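import Mathlib

/-! Cubes, slicing, and a Cartan type lemma for functions that are polynomial in each variable. -/

open MeasureTheory Set Polynomial
open scoped ENNReal

namespace SubQuad

/-- The cube `[-T, T]^k`. -/
def cube (k : ℕ) (T : ℝ) : Set (Fin k → ℝ) := Set.pi Set.univ fun _ => Set.Icc (-T) T

lemma mem_cube {k : ℕ} {T : ℝ} {x : Fin k → ℝ} : x ∈ cube k T ↔ ∀ i, |x i| ≤ T := by
  simp only [cube, Set.mem_pi, Set.mem_univ, true_imp_iff, Set.mem_Icc, abs_le]

lemma measurableSet_cube (k : ℕ) (T : ℝ) : MeasurableSet (cube k T) :=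
  MeasurableSet.univ_pi fun _ => measurableSet_Icc

lemma vol_cube (k : ℕ) {T : ℝ} (hT : 0 ≤ T) :
    volume (cube k T) = ENNReal.ofReal ((2 * T) ^ k) := by
  unfold cube
  rw [volume_pi_pi]
  simp only [Real.volume_Icc, Finset.prod_const, Finset.card_univ, Fintype.card_fin]
  rw [ENNReal.ofReal_pow (by linarith)]
  congr 2
  ring

lemma cons_mem_cube {k : ℕ} {T t : ℝ} {x : Fin k → ℝ} :
    (Fin.cons t x : Fin (k + 1) → ℝ) ∈ cube (k + 1) T ↔ |t| ≤ T ∧ x ∈ cube k T := by
  simp [mem_cube, Fin.forall_fin_succ]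

lemma tail_mem_cube {k : ℕ} {T : ℝ} {y : Fin (k + 1) → ℝ} (hy : y ∈ cube (k + 1) T) :
    Fin.tail y ∈ cube k T := by
  rw [mem_cube] at hy ⊢
  intro i
  exact hy i.succ

lemma vol_eq_lintegral {k : ℕ} {S : Set (Fin (k + 1) → ℝ)} (hS : MeasurableSet S) :
    volume S = ∫⁻ x : Fin k → ℝ, volume {t : ℝ | (Fin.cons t x : Fin (k + 1) → ℝ) ∈ S} := by
  have h := (volume_preserving_piFinSuccAbove (fun _ : Fin (k + 1) => ℝ) 0).symm
  rw [← h.measure_preimage hS.nullMeasurableSet, Measure.volume_eq_prod,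
    Measure.prod_apply_symm (h.measurable hS)]
  refine lintegral_congr fun x => ?_
  congr 1
  ext t
  simp [MeasurableEquiv.piFinSuccAbove_symm_apply, Fin.insertNthEquiv, Fin.insertNth_zero']

lemma fubini_le {k : ℕ} {T : ℝ} (hT : 0 ≤ T) {S : Set (Fin (k + 1) → ℝ)} (hS : MeasurableSet S)
    (hSQ : S ⊆ cube (k + 1) T) (A : Set (Fin k → ℝ)) (b : ℝ≥0∞)
    (h : ∀ x ∈ cube k T, x ∉ A → volume {t : ℝ | (Fin.cons t x : Fin (k + 1) → ℝ) ∈ S} ≤ b) :
    volume S ≤ ENNReal.ofReal (2 * T) * volume A + ENNReal.ofReal ((2 * T) ^ k) * b := by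
  rw [vol_eq_lintegral hS]
  have hA := measurableSet_toMeasurable (volume : Measure (Fin k → ℝ)) A
  calc ∫⁻ x : Fin k → ℝ, volume {t : ℝ | (Fin.cons t x : Fin (k + 1) → ℝ) ∈ S}
      ≤ ∫⁻ x : Fin k → ℝ, ((toMeasurable volume A).indicator (fun _ => ENNReal.ofReal (2 * T)) x
          + (cube k T).indicator (fun _ => b) x) := by
        refine lintegral_mono fun x => ?_
        by_cases hx : x ∈ cube k T
        · by_cases hxA : x ∈ toMeasurable volume A
          · rw [indicator_of_mem hxA]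
            refine le_trans ?_ le_self_add
            calc volume {t : ℝ | (Fin.cons t x : Fin (k + 1) → ℝ) ∈ S}
                ≤ volume (Icc (-T) T) := measure_mono fun t ht => by
                  have := (cons_mem_cube.1 (hSQ ht)).1
                  exact abs_le.1 this
              _ = ENNReal.ofReal (2 * T) := by rw [Real.volume_Icc]; congr 1; ring
          · rw [indicator_of_mem hx]
            refine le_trans ?_ le_add_self
            exact h x hx fun h' => hxA (subset_toMeasurable _ _ h')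
        · have : {t : ℝ | (Fin.cons t x : Fin (k + 1) → ℝ) ∈ S} = ∅ := by
            ext t
            simp only [mem_ofPred_eq, mem_empty_iff_false, iff_false]
            exact fun ht => hx (cons_mem_cube.1 (hSQ ht)).2
          rw [this, measure_empty]
          exact zero_le
    _ = ENNReal.ofReal (2 * T) * volume A + ENNReal.ofReal ((2 * T) ^ k) * b := by
        rw [lintegral_add_left (measurable_const.indicator hA), lintegral_indicator_const hA,
          lintegral_indicator_const (measurableSet_cube k T), measure_toMeasurable, vol_cube k hT,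
          mul_comm b]

/-- Points near one of finitely many numbers. -/
lemma vol_near {ι : Type*} [Fintype ι] (z : ι → ℝ) {ε : ℝ} (hε : 0 ≤ ε) :
    volume {t : ℝ | ∃ j, |t - z j| < ε} ≤ ENNReal.ofReal (2 * Fintype.card ι * ε) := by
  have : {t : ℝ | ∃ j, |t - z j| < ε} = ⋃ j, Ioo (z j - ε) (z j + ε) := by
    ext t
    simp only [mem_ofPred_eq, mem_iUnion, mem_Ioo, abs_lt]
    exact exists_congr fun j => by constructor <;> rintro ⟨h1, h2⟩ <;> constructor <;> linarith
  rw [this]
  refine (measure_iUnion_fintype_le _ _).trans ?_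
  simp only [Real.volume_Ioo]
  rw [← ENNReal.ofReal_sum_of_nonneg fun j _ => by linarith]
  refine le_of_eq ?_
  congr 1
  rw [Finset.sum_congr rfl (g := fun _ => 2 * ε) fun j _ => by ring]
  simp
  ring

/-- Complex roots listed with multiplicity. -/
lemma exists_roots (g : ℂ[X]) : ∃ z : Fin g.natDegree → ℂ,
    g = C g.leadingCoeff * Lagrange.nodal Finset.univ z ∧ g.roots = Finset.univ.val.map z := by
  have hs : g.Splits := IsAlgClosed.splits g
  have hc : g.roots.toList.length = g.natDegree := by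
    rw [Multiset.length_toList, hs.natDegree_eq_card_roots]
  have hr : g.roots = Finset.univ.val.map fun j : Fin g.natDegree =>
      g.roots.toList.get (Fin.cast hc.symm j) := by
    rw [Fin.univ_val_map]
    conv_lhs => rw [← Multiset.coe_toList g.roots]
    congr 1
    apply List.ext_get
    · simp [hc]
    · intro n h1 h2
      simp
  refine ⟨fun j => g.roots.toList.get (Fin.cast hc.symm j), ?_, hr⟩
  have h1 := Polynomial.C_leadingCoeff_mul_prod_multiset_X_sub_C (p := g)
    hs.natDegree_eq_card_roots.symm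
  conv_lhs => rw [← h1]
  congr 1
  rw [Lagrange.nodal, Finset.prod_eq_multiset_prod]
  conv_lhs => rw [hr, Multiset.map_map]
  rfl

/-- A real polynomial written through its complex roots. -/
lemma exists_roots_real (q : ℝ[X]) : ∃ (a : ℝ) (z : Fin q.natDegree → ℂ),
    a = |q.leadingCoeff| ∧ (∀ t : ℝ, |q.eval t| = a * ∏ j, ‖(t : ℂ) - z j‖) ∧
    q.map (algebraMap ℝ ℂ) = C (q.leadingCoeff : ℂ) * Lagrange.nodal Finset.univ z ∧
    (q.map (algebraMap ℝ ℂ)).roots = Finset.univ.val.map z := by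
  have hd : (q.map (algebraMap ℝ ℂ)).natDegree = q.natDegree :=
    natDegree_map_eq_of_injective (algebraMap ℝ ℂ).injective q
  have hl : (q.map (algebraMap ℝ ℂ)).leadingCoeff = (q.leadingCoeff : ℂ) :=
    leadingCoeff_map_of_injective (algebraMap ℝ ℂ).injective q
  have h := exists_roots (q.map (algebraMap ℝ ℂ))
  rw [hl] at h
  generalize (q.map (algebraMap ℝ ℂ)).natDegree = e at h hd
  subst hd
  obtain ⟨z, hz, hr⟩ := h
  refine ⟨_, z, rfl, fun t => ?_, hz, hr⟩
  have h1 : ((q.eval t : ℝ) : ℂ) = (q.map (algebraMap ℝ ℂ)).eval (t : ℂ) := by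
    rw [eval_map_algebraMap]
    exact (aeval_algebraMap_apply ℂ t q).symm.trans (by simp) |>.symm |>.symm
  have h2 : |q.eval t| = ‖((q.eval t : ℝ) : ℂ)‖ := by simp
  rw [h2, h1, hz, eval_mul, eval_C, Lagrange.eval_nodal, norm_mul, norm_prod]
  simp

lemma abs_re_le (t : ℝ) (z : ℂ) : |t - z.re| ≤ ‖(t : ℂ) - z‖ := by
  simpa using Complex.abs_re_le_norm ((t : ℂ) - z)

/-- One variable Cartan estimate. -/
lemma cartan_one (q : ℝ[X]) {d : ℕ} (hq : q.natDegree ≤ d) {U ε u : ℝ} (hU : 1 ≤ U)
    (hε : 0 < ε) (hε1 : ε ≤ 1) (hu : |u| ≤ U) :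
    volume {t : ℝ | |t| ≤ U ∧ |q.eval t| < (ε / (4 * U)) ^ d * |q.eval u|} ≤
      ENNReal.ofReal (2 * d * ε) := by
  obtain ⟨a, z, ha, hz, -, -⟩ := exists_roots_real q
  have ha0 : 0 ≤ a := ha ▸ abs_nonneg _
  refine le_trans (measure_mono ?_) ((vol_near (fun j => (z j).re) hε.le).trans ?_)
  · rintro t ⟨ht, hlt⟩
    by_contra hno
    simp only [mem_ofPred_eq, not_exists, not_lt] at hno
    have hr : 0 ≤ ε / (4 * U) := by positivity
    have hr1 : ε / (4 * U) ≤ 1 := by
      rw [div_le_one (by positivity)]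
      linarith
    have key : ∀ j, ε / (4 * U) * ‖(u : ℂ) - z j‖ ≤ ‖(t : ℂ) - z j‖ := by
      intro j
      have h1 : ε ≤ ‖(t : ℂ) - z j‖ := (hno j).trans (abs_re_le t (z j))
      have h2 : ‖(u : ℂ) - z j‖ ≤ 2 * U + ‖(t : ℂ) - z j‖ := by
        have h3 : (u : ℂ) - z j = ((u - t : ℝ) : ℂ) + ((t : ℂ) - z j) := by push_cast; ring
        rw [h3]
        refine (norm_add_le _ _).trans ?_
        have h4 : ‖((u - t : ℝ) : ℂ)‖ ≤ 2 * U := by
          rw [Complex.norm_real, Real.norm_eq_abs]
          have := abs_sub u t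
          linarith
        linarith
      rw [div_mul_eq_mul_div, div_le_iff₀ (by positivity)]
      have h5 := norm_nonneg ((t : ℂ) - z j)
      nlinarith [mul_le_mul_of_nonneg_left h2 hε.le, mul_le_mul_of_nonneg_left h1 (by linarith : 0 ≤ U),
        mul_le_mul_of_nonneg_right hε1 h5, mul_le_mul_of_nonneg_right hU h5]
    have h6 : (ε / (4 * U)) ^ d * |q.eval u| ≤ |q.eval t| := by
      rw [hz u, hz t]
      calc (ε / (4 * U)) ^ d * (a * ∏ j, ‖(u : ℂ) - z j‖)
          ≤ (ε / (4 * U)) ^ q.natDegree * (a * ∏ j, ‖(u : ℂ) - z j‖) := by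
            gcongr ?_ * _
            exact pow_le_pow_of_le_one hr hr1 hq
        _ = a * ∏ j, (ε / (4 * U) * ‖(u : ℂ) - z j‖) := by
            rw [Finset.prod_mul_distrib, Finset.prod_const, Finset.card_univ, Fintype.card_fin]
            ring
        _ ≤ a * ∏ j, ‖(t : ℂ) - z j‖ := by
            gcongr with j
            exact key j
    exact absurd hlt (not_lt.2 h6)
  · refine ENNReal.ofReal_le_ofReal ?_
    simp only [Fintype.card_fin]
    have : (q.natDegree : ℝ) ≤ d := by exact_mod_cast hq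
    gcongr

/-- Continuous functions that are polynomial of degree at most `d` in each variable. -/
def SepPoly {k : ℕ} (d : ℕ) (F : (Fin k → ℝ) → ℝ) : Prop :=
  Continuous F ∧ ∀ (i : Fin k) (x : Fin k → ℝ), ∃ p : ℝ[X], p.natDegree ≤ d ∧
    ∀ t, F (Function.update x i t) = p.eval t

lemma SepPoly.cons {k d : ℕ} {F : (Fin (k + 1) → ℝ) → ℝ} (h : SepPoly d F) (t : ℝ) :
    SepPoly d fun x : Fin k → ℝ => F (Fin.cons t x) := by
  refine ⟨h.1.comp (Continuous.finCons continuous_const continuous_id), fun i x => ?_⟩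
  obtain ⟨p, hp, hF⟩ := h.2 i.succ (Fin.cons t x)
  refine ⟨p, hp, fun r => ?_⟩
  rw [← hF r, ← Fin.cons_update]

/-- Cartan estimate on a cube. -/
lemma cartan {d : ℕ} {T U ε : ℝ} (hT : 0 ≤ T) (hTU : T ≤ U) (hU : 1 ≤ U) (hε : 0 < ε)
    (hε1 : ε ≤ 1) : ∀ (k : ℕ) (F : (Fin k → ℝ) → ℝ), SepPoly d F → ∀ u ∈ cube k U,
    ENNReal.ofReal (2 * T) *
      volume {x | x ∈ cube k T ∧ |F x| < (ε / (4 * U)) ^ (k * d) * |F u|} ≤
      ENNReal.ofReal (2 * k * d * ε * (2 * T) ^ k) := by
  intro k
  induction k with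
  | zero =>
    intro F _ u _
    have : {x | x ∈ cube 0 T ∧ |F x| < (ε / (4 * U)) ^ (0 * d) * |F u|} = ∅ := by
      ext x
      have : x = u := Subsingleton.elim _ _
      simp [this]
    rw [this]
    simp
  | succ k ih =>
    intro F hF u hu
    have hu' : (Fin.cons (u 0) (Fin.tail u) : Fin (k + 1) → ℝ) ∈ cube (k + 1) U := by
      rwa [Fin.cons_self_tail]
    obtain ⟨hu0, hut⟩ := cons_mem_cube.1 hu'
    have h1 := ih _ (hF.cons (u 0)) _ hut
    simp only [Fin.cons_self_tail] at h1
    have hr : 0 ≤ ε / (4 * U) := by positivity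
    have hm : MeasurableSet
        {x | x ∈ cube (k + 1) T ∧ |F x| < (ε / (4 * U)) ^ ((k + 1) * d) * |F u|} :=
      (measurableSet_cube _ _).inter (measurableSet_lt hF.1.abs.measurable measurable_const)
    have h2 := fubini_le hT hm (fun x hx => hx.1)
      {x | x ∈ cube k T ∧ |F (Fin.cons (u 0) x)| < (ε / (4 * U)) ^ (k * d) * |F u|}
      (ENNReal.ofReal (2 * d * ε)) (by
        intro x hx hxA
        obtain ⟨p, hp, hFp⟩ := hF.2 0 (Fin.cons (u 0) x)
        simp only [Fin.update_cons_zero] at hFp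
        refine le_trans (measure_mono ?_) (cartan_one p hp hU hε hε1 hu0)
        rintro t ⟨ht, hlt⟩
        refine ⟨(cons_mem_cube.1 ht).1.trans hTU, ?_⟩
        have h3 : (ε / (4 * U)) ^ (k * d) * |F u| ≤ |F (Fin.cons (u 0) x)| := by
          by_contra h4
          exact hxA ⟨hx, not_le.1 h4⟩
        rw [← hFp, ← hFp]
        refine hlt.trans_le ?_
        rw [show (k + 1) * d = d + k * d by ring, pow_add, mul_assoc]
        gcongr)
    calc _ ≤ ENNReal.ofReal (2 * T) * (ENNReal.ofReal (2 * k * d * ε * (2 * T) ^ k) +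
          ENNReal.ofReal ((2 * T) ^ k) * ENNReal.ofReal (2 * d * ε)) := by
          gcongr
          exact h2.trans (by gcongr)
      _ = _ := by
          rw [← ENNReal.ofReal_mul (by positivity), ← ENNReal.ofReal_add (by positivity)
            (by positivity), ← ENNReal.ofReal_mul (by positivity)]
          congr 1
          push_cast
          ring

end SubQuad
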