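import Pool.Agent.P.MP_923088_al.Kernel

/-! The bootstrap over scales. -/

namespace Pool.Agent.P.MP_923088_al

open Finset Filter Topology

/-- The data the bootstrap uses: `h n k` are traces of even powers, `lam k` the norms. -/
structure Data (h : ℕ → ℕ → ℝ) (lam : ℕ → ℝ) : Prop where
  nn : ∀ n k, 0 ≤ h n k
  zero : ∀ n, h n 0 ≤ 1
  l0 : ∀ k, 0 ≤ lam k
  l1 : ∀ k, lam k ≤ 1
  l2 : ∀ k, 1 ≤ k → lam k < 1
  P1a : ∀ n k, lam k ^ (2 * n) ≤ h n k
  P1b : ∀ n t k, h (n + t) k ≤ h n k * lam k ^ (2 * t)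
  P2 : ∀ n N N' : ℕ, 4 ≤ N → N ≤ N' → Msum (h n) N' ≤
      10000000 * ((N' : ℝ) / N) ^ 3 * (1 + Real.log N) * Msum (h n) N
  P3 : ∀ n N k : ℕ, 4 ≤ N → N ≤ k → k ≤ N ^ 3 → h n k ≤
      10000000 * Real.sqrt ((k : ℝ) / (N : ℝ) ^ 3) * (1 + Real.log N) * Msum (h n) N

/-- The integer scale attached to a logarithmic scale. -/
noncomputable def Nf (v : ℝ) : ℕ := ⌊Real.exp v⌋₊

lemma Nf_le (v : ℝ) : (Nf v : ℝ) ≤ Real.exp v := Nat.floor_le (Real.exp_pos v).le

lemma lt_Nf (v : ℝ) : Real.exp v < Nf v + 1 := Nat.lt_floor_add_one _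

lemma Nf_mono {v w : ℝ} (h : v ≤ w) : Nf v ≤ Nf w := Nat.floor_le_floor (Real.exp_le_exp.mpr h)

lemma four_le_Nf {v : ℝ} (h : 3 ≤ v) : 4 ≤ Nf v := by
  apply Nat.le_floor
  have := Real.add_one_le_exp v
  push_cast; linarith

lemma exp_le_two_Nf {v : ℝ} (h : 3 ≤ v) : Real.exp v ≤ 2 * Nf v := by
  have h1 := lt_Nf v
  have h2 : (4 : ℝ) ≤ Nf v := by exact_mod_cast four_le_Nf h
  linarith

lemma log_Nf_le {v : ℝ} (h : 3 ≤ v) : Real.log (Nf v) ≤ v := by
  have h2 : (4 : ℝ) ≤ Nf v := by exact_mod_cast four_le_Nf h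
  rw [Real.log_le_iff_le_exp (by linarith)]
  exact Nf_le v

lemma poly_le_exp {l : ℝ} (hl : (10 : ℝ) ^ 30 ≤ l) :
    1000000000 * (1 + 2 * l) ^ 2 ≤ Real.exp (l / 1000000) := by
  have l1 : (1 : ℝ) ≤ l := le_trans (by norm_num) hl
  have h := Real.pow_div_factorial_le_exp (l / 1000000) (by positivity) 3
  have e : (l / 1000000) ^ 3 / (Nat.factorial 3 : ℝ) = l ^ 2 * (l / (6 * 10 ^ 18)) := by
    simp only [Nat.factorial]; push_cast; ring
  rw [e] at h
  have h1 : (1 + 2 * l) ^ 2 ≤ (3 * l) ^ 2 := by gcongr; linarith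
  have h2 : (10 : ℝ) ^ 10 ≤ l / (6 * 10 ^ 18) := by
    rw [le_div_iff₀ (by norm_num)]
    exact le_trans (by norm_num) hl
  have h3 : l ^ 2 * (10 : ℝ) ^ 10 ≤ l ^ 2 * (l / (6 * 10 ^ 18)) := by gcongr
  have h4 : 0 ≤ l ^ 2 := by positivity
  nlinarith

variable {h : ℕ → ℕ → ℝ} {lam : ℕ → ℝ}

lemma Data.anti (d : Data h lam) {n n' : ℕ} (hn : n ≤ n') (k : ℕ) : h n' k ≤ h n k := by
  obtain ⟨t, rfl⟩ := Nat.exists_eq_add_of_le hn
  exact (d.P1b n t k).trans (mul_le_of_le_one_right (d.nn n k) (pow_le_one₀ (d.l0 k) (d.l1 k)))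

lemma Data.Manti (d : Data h lam) {n n' : ℕ} (hn : n ≤ n') (N : ℕ) :
    Msum (h n') N ≤ Msum (h n) N :=
  sum_le_sum fun k _ => mul_le_mul_of_nonneg_left (d.anti hn k) (by positivity)

lemma Data.base (d : Data h lam) (N : ℕ) : ∃ n₀ : ℕ, Msum (h n₀) N ≤ 2 := by
  have t1 : Tendsto (fun n : ℕ => ∑ k ∈ range N, ((k : ℝ) + 2) * (h 0 (k + 1) * lam (k + 1) ^ (2 * n)))
      atTop (𝓝 (∑ k ∈ range N, ((k : ℝ) + 2) * (h 0 (k + 1) * 0))) := by
    apply tendsto_finsetSum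
    intro k _
    apply Tendsto.const_mul
    apply Tendsto.const_mul
    have := tendsto_pow_atTop_nhds_zero_of_lt_one (d.l0 (k + 1)) (d.l2 (k + 1) (by omega))
    exact this.comp (tendsto_id.const_mul_atTop' (by norm_num : 0 < 2))
  simp only [mul_zero, sum_const_zero] at t1
  obtain ⟨n, hn⟩ := (t1.eventually (ge_mem_nhds (by norm_num : (0 : ℝ) < 1))).exists
  refine ⟨n, ?_⟩
  unfold Msum
  rw [sum_range_succ']
  have a1 : ∑ k ∈ range N, (((k + 1 : ℕ) : ℝ) + 1) * h n (k + 1)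
      ≤ ∑ k ∈ range N, ((k : ℝ) + 2) * (h 0 (k + 1) * lam (k + 1) ^ (2 * n)) := by
    apply sum_le_sum
    intro k _
    have := d.P1b 0 n (k + 1)
    rw [zero_add] at this
    have e : (((k + 1 : ℕ) : ℝ) + 1) = (k : ℝ) + 2 := by push_cast; ring
    rw [e]
    exact mul_le_mul_of_nonneg_left this (by positivity)
  have a2 := d.zero n
  simp only [Nat.cast_zero, zero_add, one_mul]
  linarith

lemma Data.window (d : Data h lam) {l L' : ℝ} (hl : (10 : ℝ) ^ 30 ≤ l)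
    (h2 : L' ≤ 17019002 / 10000000 * l) {n k : ℕ} (hM : Msum (h n) (Nf l) ≤ l)
    (hk1 : Nf l ≤ k) (hk2 : k ≤ Nf L') : lam k ^ (2 * n) ≤ Real.exp (-(649 / 1000 * l)) := by
  have l3 : (3 : ℝ) ≤ l := le_trans (by norm_num) hl
  have N4 := four_le_Nf l3
  have N0 : (0 : ℝ) < Nf l := by exact_mod_cast (by omega : 0 < Nf l)
  have k1 : (k : ℝ) ≤ Real.exp L' := le_trans (by exact_mod_cast hk2) (Nf_le L')
  have e3 : Real.exp (3 * l) ≤ 8 * (Nf l : ℝ) ^ 3 := by
    have : Real.exp (3 * l) = Real.exp l ^ 3 := by rw [← Real.exp_nat_mul]; norm_num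
    rw [this]
    calc Real.exp l ^ 3 ≤ (2 * Nf l) ^ 3 := by gcongr; exact exp_le_two_Nf l3
      _ = _ := by ring
  have r1 : (k : ℝ) / (Nf l : ℝ) ^ 3 ≤ 9 * Real.exp (L' - 3 * l) := by
    rw [div_le_iff₀ (by positivity), Real.exp_sub]
    have p := Real.exp_pos (3 * l)
    have q := Real.exp_pos L'
    rw [mul_div_assoc', div_mul_eq_mul_div, le_div_iff₀ p]
    calc (k : ℝ) * Real.exp (3 * l) ≤ Real.exp L' * (8 * (Nf l : ℝ) ^ 3) := by gcongr
      _ ≤ Real.exp L' * (9 * (Nf l : ℝ) ^ 3) := by gcongr; norm_num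
      _ = _ := by ring
  have r2 : Real.sqrt ((k : ℝ) / (Nf l : ℝ) ^ 3) ≤ 3 * Real.exp ((L' - 3 * l) / 2) := by
    rw [Real.sqrt_le_iff]
    refine ⟨by positivity, r1.trans (le_of_eq ?_)⟩
    rw [mul_pow, ← Real.exp_nat_mul]
    congr 1
    · norm_num
    · congr 1; push_cast; ring
  have k3 : k ≤ Nf l ^ 3 := by
    have b1 : Real.exp (L' - 3 * l) ≤ Real.exp (-l) := Real.exp_le_exp.mpr (by linarith)
    have b2 : 9 * Real.exp (-l) ≤ 1 := by
      rw [Real.exp_neg, ← div_eq_mul_inv, div_le_one (Real.exp_pos l)]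
      have := Real.add_one_le_exp l
      have : (10 : ℝ) ≤ l := le_trans (by norm_num) hl
      linarith
    have b3 : (k : ℝ) / (Nf l : ℝ) ^ 3 ≤ 1 := by linarith
    rw [div_le_one (by positivity)] at b3
    exact_mod_cast b3
  have p3 := d.P3 n (Nf l) k N4 hk1 k3
  have lg := log_Nf_le l3
  have lg0 : 0 ≤ Real.log (Nf l) := Real.log_natCast_nonneg _
  have M0 := Msum_nonneg (d.nn n) (Nf l)
  have p4 : h n k ≤ 10000000 * (3 * Real.exp ((L' - 3 * l) / 2)) * (1 + l) * l := by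
    refine p3.trans ?_
    gcongr
  have q := poly_le_exp hl
  have q2 : 10000000 * 3 * (1 + l) * l ≤ Real.exp (l / 1000000) := by nlinarith
  calc lam k ^ (2 * n) ≤ h n k := d.P1a n k
    _ ≤ (10000000 * 3 * (1 + l) * l) * Real.exp ((L' - 3 * l) / 2) := by
      refine p4.trans (le_of_eq ?_); ring
    _ ≤ Real.exp (l / 1000000) * Real.exp ((L' - 3 * l) / 2) := by gcongr
    _ = Real.exp (l / 1000000 + (L' - 3 * l) / 2) := (Real.exp_add _ _).symm
    _ ≤ _ := Real.exp_le_exp.mpr (by linarith)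

lemma pow_le_exp_of {x a b : ℝ} {n t : ℕ} (hx : 0 ≤ x) (hn : 0 < n)
    (h1 : x ^ n ≤ Real.exp (-a)) (h2 : b * n ≤ a * t) : x ^ t ≤ Real.exp (-b) := by
  have e1 : (x ^ t) ^ n ≤ Real.exp (-b) ^ n := by
    rw [← pow_mul, mul_comm, pow_mul]
    calc (x ^ n) ^ t ≤ Real.exp (-a) ^ t := by gcongr
      _ = Real.exp (t * -a) := (Real.exp_nat_mul _ _).symm
      _ ≤ Real.exp (n * -b) := Real.exp_le_exp.mpr (by linarith)
      _ = _ := Real.exp_nat_mul _ _
  exact (pow_le_pow_iff_left₀ (by positivity) (Real.exp_pos _).le hn.ne').mp e1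

lemma Data.step (d : Data h lam) {l L : ℝ} (hl : (10 : ℝ) ^ 30 ≤ l) (h1 : l ≤ L)
    (h2 : L ≤ 17002 / 10000 * l) {n n' t : ℕ} (hn : 0 < n) (hM : Msum (h n) (Nf l) ≤ l)
    (hM' : Msum (h n') (Nf L) ≤ L) (ht : 5102 / 1000000 * (n : ℝ) ≤ 649 / 1000 * t) :
    Msum (h (n' + t)) (Nf (1001 / 1000 * L)) ≤ 1001 / 1000 * L := by
  have l3 : (3 : ℝ) ≤ l := le_trans (by norm_num) hl
  have l4 : (1000 : ℝ) ≤ l := le_trans (by norm_num) hl
  have L3 : (3 : ℝ) ≤ L := by linarith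
  have NN : Nf L ≤ Nf (1001 / 1000 * L) := Nf_mono (by linarith)
  have N4 := four_le_Nf L3
  have N0 : (0 : ℝ) < Nf L := by exact_mod_cast (by omega : 0 < Nf L)
  have w : ∀ k, Nf L < k → k ≤ Nf (1001 / 1000 * L) →
      lam k ^ (2 * t) ≤ Real.exp (-(5102 / 1000000 * l)) := by
    intro k hk1 hk2
    have w1 := d.window (L' := 1001 / 1000 * L) hl (by linarith) hM
      ((Nf_mono h1).trans hk1.le) hk2
    apply pow_le_exp_of (d.l0 k) (by omega : 0 < 2 * n) w1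
    push_cast
    nlinarith
  have p2 := d.P2 n' (Nf L) (Nf (1001 / 1000 * L)) N4 NN
  have r1 : ((Nf (1001 / 1000 * L) : ℝ) / Nf L) ≤ 2 * Real.exp (L / 1000) := by
    rw [div_le_iff₀ N0]
    calc (Nf (1001 / 1000 * L) : ℝ) ≤ Real.exp (1001 / 1000 * L) := Nf_le _
      _ = Real.exp (L / 1000) * Real.exp L := by rw [← Real.exp_add]; congr 1; ring
      _ ≤ Real.exp (L / 1000) * (2 * Nf L) := by gcongr; exact exp_le_two_Nf L3
      _ = _ := by ring
  have lg := log_Nf_le L3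
  have lg0 : 0 ≤ Real.log (Nf L) := Real.log_natCast_nonneg _
  have M0 := Msum_nonneg (d.nn n') (Nf L)
  have p3 : Msum (h n') (Nf (1001 / 1000 * L)) ≤
      10000000 * (2 * Real.exp (L / 1000)) ^ 3 * (1 + 2 * l) * (2 * l) := by
    refine p2.trans ?_
    gcongr <;> linarith
  have q := poly_le_exp hl
  have q2 : 10000000 * 8 * (1 + 2 * l) * (2 * l) ≤ Real.exp (l / 1000000) := by nlinarith
  have p4 : Msum (h n') (Nf (1001 / 1000 * L)) ≤ Real.exp (5102 / 1000000 * l) := by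
    calc _ ≤ (10000000 * 8 * (1 + 2 * l) * (2 * l)) * Real.exp (3 * (L / 1000)) := by
          refine p3.trans (le_of_eq ?_)
          have : Real.exp (3 * (L / 1000)) = Real.exp (L / 1000) ^ 3 := by
            rw [← Real.exp_nat_mul]; norm_num
          rw [this]; ring
      _ ≤ Real.exp (l / 1000000) * Real.exp (3 * (L / 1000)) := by gcongr
      _ = Real.exp (l / 1000000 + 3 * (L / 1000)) := (Real.exp_add _ _).symm
      _ ≤ _ := Real.exp_le_exp.mpr (by linarith)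
  have s1 : Msum (h (n' + t)) (Nf (1001 / 1000 * L)) ≤ Msum (h n') (Nf L) +
      Real.exp (-(5102 / 1000000 * l)) * Msum (h n') (Nf (1001 / 1000 * L)) := by
    unfold Msum
    rw [← Finset.sum_filter_add_sum_filter_not (range (Nf (1001 / 1000 * L) + 1))
      (fun k => k ≤ Nf L)]
    apply add_le_add
    · have e : (range (Nf (1001 / 1000 * L) + 1)).filter (fun k => k ≤ Nf L)
          = range (Nf L + 1) := by
        ext k; rw [mem_filter, mem_range, mem_range]; omega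
      rw [e]
      exact d.Manti (Nat.le_add_right n' t) (Nf L)
    · rw [Finset.mul_sum]
      calc _ ≤ ∑ k ∈ (range (Nf (1001 / 1000 * L) + 1)).filter (fun k => ¬ k ≤ Nf L),
            Real.exp (-(5102 / 1000000 * l)) * (((k : ℝ) + 1) * h n' k) := by
            apply sum_le_sum
            intro k hk
            rw [mem_filter, mem_range] at hk
            have b1 := w k (by omega) (by omega)
            have b2 := d.P1b n' t k
            have b3 : h n' k * lam k ^ (2 * t) ≤ h n' k * Real.exp (-(5102 / 1000000 * l)) :=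
              mul_le_mul_of_nonneg_left b1 (d.nn n' k)
            calc ((k : ℝ) + 1) * h (n' + t) k
                ≤ ((k : ℝ) + 1) * (h n' k * Real.exp (-(5102 / 1000000 * l))) :=
                  mul_le_mul_of_nonneg_left (b2.trans b3) (by positivity)
              _ = _ := by ring
        _ ≤ _ := by
            apply sum_le_sum_of_subset_of_nonneg (filter_subset _ _)
            intro k _ _
            exact mul_nonneg (Real.exp_pos _).le (mul_nonneg (by positivity) (d.nn n' k))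
  have s2 : Real.exp (-(5102 / 1000000 * l)) * Msum (h n') (Nf (1001 / 1000 * L)) ≤ 1 := by
    calc _ ≤ Real.exp (-(5102 / 1000000 * l)) * Real.exp (5102 / 1000000 * l) := by gcongr
      _ = 1 := by rw [← Real.exp_add]; simp
  linarith

lemma numB : ((1001 : ℝ) / 1000) ^ 531 ≤ 17002 / 10000 := by
  have h : ((1001 : ℝ) / 1000) ^ 177 ≤ 1193526 / 1000000 := by norm_num
  calc ((1001 : ℝ) / 1000) ^ 531 = (((1001 : ℝ) / 1000) ^ 177) ^ 3 := by rw [← pow_mul]
    _ ≤ ((1193526 : ℝ) / 1000000) ^ 3 := by gcongr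
    _ ≤ _ := by norm_num

lemma numR : (34075 : ℝ) / 10000 ≤ ((10023115 : ℝ) / 10000000) ^ 531 := by
  have h : (15048045 : ℝ) / 10000000 ≤ ((10023115 : ℝ) / 10000000) ^ 177 := by norm_num
  calc (34075 : ℝ) / 10000 ≤ ((15048045 : ℝ) / 10000000) ^ 3 := by norm_num
    _ ≤ (((10023115 : ℝ) / 10000000) ^ 177) ^ 3 := by gcongr
    _ = _ := by rw [← pow_mul]

lemma numA : ((10023115 : ℝ) / 10000000) ^ 100 ≤ ((1001 : ℝ) / 1000) ^ 231 := by norm_num

/-- Logarithmic scales. -/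
noncomputable def Ls (j : ℕ) : ℝ := (10 : ℝ) ^ 30 * ((1001 : ℝ) / 1000) ^ j

/-- Times. -/
noncomputable def ns (A : ℝ) (j : ℕ) : ℕ := ⌈A * ((10023115 : ℝ) / 10000000) ^ j⌉₊

lemma Ls_mono {i j : ℕ} (hij : i ≤ j) : Ls i ≤ Ls j := by
  unfold Ls
  apply mul_le_mul_of_nonneg_left _ (by positivity)
  exact pow_le_pow_right₀ (by norm_num) hij

lemma le_Ls (j : ℕ) : (10 : ℝ) ^ 30 ≤ Ls j := by
  have := Ls_mono (Nat.zero_le j)
  simpa [Ls] using this

lemma Ls_succ (j : ℕ) : Ls (j + 1) = 1001 / 1000 * Ls j := by unfold Ls; ring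

lemma Ls_shift (j : ℕ) : Ls (j + 531) ≤ 17002 / 10000 * Ls j := by
  unfold Ls
  rw [pow_add]
  have h := numB
  have p : (0 : ℝ) ≤ (10 : ℝ) ^ 30 * ((1001 : ℝ) / 1000) ^ j := by positivity
  generalize ((1001 : ℝ) / 1000) ^ 531 = B at h ⊢
  nlinarith

lemma ns_mono {A : ℝ} (hA : 0 ≤ A) {i j : ℕ} (hij : i ≤ j) : ns A i ≤ ns A j := by
  unfold ns
  apply Nat.ceil_mono
  apply mul_le_mul_of_nonneg_left _ hA
  exact pow_le_pow_right₀ (by norm_num) hij

lemma ns_gap {A : ℝ} (hA : 1000000 ≤ A) (i : ℕ) :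
    5102 / 1000000 * (ns A i : ℝ) ≤ 649 / 1000 * ((ns A (i + 531 + 1) : ℝ) - ns A (i + 531)) := by
  have A0 : 0 ≤ A := by linarith
  have x1 : (1 : ℝ) ≤ ((10023115 : ℝ) / 10000000) ^ i := one_le_pow₀ (by norm_num)
  have a1 : (ns A i : ℝ) ≤ A * ((10023115 : ℝ) / 10000000) ^ i + 1 :=
    (Nat.ceil_lt_add_one (by positivity)).le
  have a2 : (ns A (i + 531) : ℝ) ≤ A * ((10023115 : ℝ) / 10000000) ^ (i + 531) + 1 :=
    (Nat.ceil_lt_add_one (by positivity)).le
  have a3 : A * ((10023115 : ℝ) / 10000000) ^ (i + 531 + 1) ≤ (ns A (i + 531 + 1) : ℝ) :=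
    Nat.le_ceil _
  rw [pow_succ, pow_add] at a3
  rw [pow_add] at a2
  have h := numR
  generalize ((10023115 : ℝ) / 10000000) ^ 531 = R at h a2 a3
  generalize ((10023115 : ℝ) / 10000000) ^ i = x at x1 a1 a2 a3
  have y1 : 1000000 ≤ A * x := by nlinarith
  have y2 : A * x * (34075 / 10000) ≤ A * x * R := by gcongr
  have e1 : A * (x * R) = A * x * R := by ring
  have e2 : A * (x * R * (10023115 / 10000000)) = A * x * R * (10023115 / 10000000) := by ring
  rw [e1] at a2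
  rw [e2] at a3
  linarith

lemma Data.all (d : Data h lam) : ∃ A : ℝ, 1 ≤ A ∧ ∀ j, Msum (h (ns A j)) (Nf (Ls j)) ≤ Ls j := by
  obtain ⟨n₀, hn₀⟩ := d.base (Nf (Ls 531))
  have p0 : (0 : ℝ) ≤ n₀ := Nat.cast_nonneg n₀
  refine ⟨n₀ + 1000000, by linarith, ?_⟩
  set A : ℝ := n₀ + 1000000 with hA
  have A0 : 0 ≤ A := by linarith
  have n0 : n₀ + 1 ≤ ns A 0 := by
    have : ((n₀ + 1 : ℕ) : ℝ) ≤ ns A 0 := by
      refine le_trans ?_ (Nat.le_ceil _)
      push_cast; linarith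
    exact_mod_cast this
  intro j
  induction j using Nat.strong_induction_on with
  | _ j ih =>
    rcases le_or_gt j 531 with hj | hj
    · calc Msum (h (ns A j)) (Nf (Ls j)) ≤ Msum (h (ns A j)) (Nf (Ls 531)) :=
            Msum_mono (d.nn _) (Nf_mono (Ls_mono hj))
        _ ≤ Msum (h n₀) (Nf (Ls 531)) :=
            d.Manti (le_trans (by omega) (ns_mono A0 (Nat.zero_le j))) _
        _ ≤ 2 := hn₀
        _ ≤ (10 : ℝ) ^ 30 := by norm_num
        _ ≤ _ := le_Ls j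
    · obtain ⟨i, rfl⟩ : ∃ i, j = i + 531 + 1 := ⟨j - 532, by omega⟩
      have m1 : ns A (i + 531) ≤ ns A (i + 531 + 1) := ns_mono A0 (Nat.le_succ _)
      obtain ⟨t, ht⟩ := Nat.exists_eq_add_of_le m1
      rw [ht, Ls_succ]
      apply d.step (le_Ls i) (Ls_mono (Nat.le_add_right i 531)) (Ls_shift i)
        (n := ns A i) (lt_of_lt_of_le (by omega) (ns_mono A0 (Nat.zero_le i)))
        (ih i (by omega)) (ih (i + 531) (by omega))
      have g := ns_gap (A := A) (by linarith) i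
      rw [ht] at g
      push_cast at g
      linarith

lemma exp_neg_le {y : ℝ} (h0 : 0 ≤ y) (h1 : y ≤ 1) : Real.exp (-y) ≤ 1 - y / 2 := by
  rw [Real.exp_neg, inv_le_iff_one_le_mul₀ (Real.exp_pos y)]
  have := Real.add_one_le_exp y
  nlinarith

lemma Data.large (d : Data h lam) : ∃ c : ℝ, 0 < c ∧ ∀ k : ℕ, Nf (Ls 531) < k →
    lam k ≤ 1 - c / Real.log (k + 1) ^ (131 / 100 : ℝ) := by
  classical
  obtain ⟨A, A1, hA⟩ := d.all
  have A0 : 0 < A := by linarith
  refine ⟨1 / (2 * (4 * A)), by positivity, ?_⟩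
  intro k hk
  have ex : ∃ j, k ≤ Nf (Ls j) := by
    obtain ⟨j, hj⟩ := pow_unbounded_of_one_lt (k : ℝ) (by norm_num : (1 : ℝ) < 1001 / 1000)
    refine ⟨j, Nat.le_floor ?_⟩
    have b1 := Real.add_one_le_exp (Ls j)
    have b2 : ((1001 : ℝ) / 1000) ^ j ≤ Ls j := by
      unfold Ls
      exact le_mul_of_one_le_left (by positivity) (by norm_num)
    linarith
  have j1 := Nat.find_spec ex
  have j2 : 531 < Nat.find ex := by
    by_contra hc
    have := Nf_mono (Ls_mono (not_lt.mp hc))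
    omega
  obtain ⟨i, hi⟩ : ∃ i, Nat.find ex = i + 531 + 1 := ⟨Nat.find ex - 532, by omega⟩
  have j3 : ¬ k ≤ Nf (Ls (i + 531)) := Nat.find_min ex (by omega)
  rw [hi] at j1
  have li := le_Ls i
  have w := d.window (L' := Ls (i + 531 + 1)) li
    (by rw [Ls_succ]; have := Ls_shift i; linarith) (hA i)
    (le_trans (Nf_mono (Ls_mono (Nat.le_add_right i 531))) (by omega)) j1
  set x : ℝ := ((1001 : ℝ) / 1000) ^ i with hx
  have x1 : 1 ≤ x := one_le_pow₀ (by norm_num)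
  have x0 : 0 < x := by linarith
  have Lx : Ls i = (10 : ℝ) ^ 30 * x := rfl
  have wx : x ≤ Real.log (k + 1) := by
    rw [Real.le_log_iff_exp_le (by positivity)]
    have b1 := lt_Nf (Ls (i + 531))
    have b2 : (Nf (Ls (i + 531)) : ℝ) ≤ k := by exact_mod_cast (by omega : Nf (Ls (i + 531)) ≤ k)
    have b3 : x ≤ Ls (i + 531) := by
      refine le_trans ?_ (Ls_mono (Nat.le_add_right i 531))
      rw [Lx]; exact le_mul_of_one_le_left x0.le (by norm_num)
    have b4 := Real.exp_le_exp.mpr b3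
    linarith
  have rx : ((10023115 : ℝ) / 10000000) ^ i ≤ x * x ^ (131 / 100 : ℝ) := by
    have b1 : (((10023115 : ℝ) / 10000000) ^ i) ^ 100 ≤ (x * x ^ (131 / 100 : ℝ)) ^ 100 := by
      have e1 : (x * x ^ (131 / 100 : ℝ)) ^ 100 = x ^ 231 := by
        rw [mul_pow, ← Real.rpow_natCast (x ^ (131 / 100 : ℝ)) 100, ← Real.rpow_mul x0.le]
        have : (131 / 100 : ℝ) * ((100 : ℕ) : ℝ) = ((131 : ℕ) : ℝ) := by norm_num
        rw [this, Real.rpow_natCast, ← pow_add]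
      rw [e1, hx, ← pow_mul, ← pow_mul, mul_comm i 100, mul_comm i 231, pow_mul, pow_mul]
      exact pow_le_pow_left₀ (by positivity) numA i
    exact (pow_le_pow_iff_left₀ (by positivity) (by positivity) (by norm_num)).mp b1
  set z : ℝ := x ^ (131 / 100 : ℝ) with hz
  have z1 : 1 ≤ z := Real.one_le_rpow x1 (by norm_num)
  set W : ℝ := Real.log (k + 1) ^ (131 / 100 : ℝ) with hW
  have zW : z ≤ W := Real.rpow_le_rpow x0.le wx (by norm_num)
  have W0 : 0 < W := by linarith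
  have r1 : (1 : ℝ) ≤ ((10023115 : ℝ) / 10000000) ^ i := one_le_pow₀ (by norm_num)
  have n1 : (ns A i : ℝ) ≤ 2 * A * (x * W) := by
    have a1 : (ns A i : ℝ) ≤ A * ((10023115 : ℝ) / 10000000) ^ i + 1 :=
      (Nat.ceil_lt_add_one (by positivity)).le
    have a2 : 1 ≤ A * ((10023115 : ℝ) / 10000000) ^ i := by nlinarith
    have a3 : A * ((10023115 : ℝ) / 10000000) ^ i ≤ A * (x * W) := by
      apply mul_le_mul_of_nonneg_left (rx.trans _) A0.le
      gcongr
    linarith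
  have n0 : 0 < ns A i := Nat.ceil_pos.mpr (by positivity)
  have f : lam k ^ 1 ≤ Real.exp (-(1 / (4 * A) / W)) := by
    apply pow_le_exp_of (d.l0 k) (by omega : 0 < 2 * ns A i) w
    push_cast
    calc 1 / (4 * A) / W * (2 * (ns A i : ℝ)) ≤ 1 / (4 * A) / W * (2 * (2 * A * (x * W))) := by
          gcongr
      _ = x := by field_simp; norm_num
      _ ≤ _ := by rw [Lx]; nlinarith
  rw [pow_one] at f
  have y1 : 1 / (4 * A) / W ≤ 1 := by
    rw [div_le_one W0]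
    have : 1 / (4 * A) ≤ 1 := by rw [div_le_one (by positivity)]; linarith
    linarith
  refine f.trans ((exp_neg_le (by positivity) y1).trans (le_of_eq ?_))
  field_simp

lemma exists_pos_le (g : ℕ → ℝ) (hg : ∀ k, 1 ≤ k → 0 < g k) (N : ℕ) :
    ∃ c : ℝ, 0 < c ∧ ∀ k, 1 ≤ k → k ≤ N → c ≤ g k := by
  induction N with
  | zero => exact ⟨1, one_pos, fun k h1 h2 => by omega⟩
  | succ N ih =>
    obtain ⟨c, c0, hc⟩ := ih
    refine ⟨min c (g (N + 1)), lt_min c0 (hg _ (by omega)), fun k h1 h2 => ?_⟩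
    rcases h2.eq_or_lt with h | h
    · rw [h]; exact min_le_right _ _
    · exact (min_le_left _ _).trans (hc k h1 (by omega))

theorem Data.gap (d : Data h lam) : ∃ c : ℝ, 0 < c ∧ ∀ D k : ℕ, 1 ≤ k → k ≤ D + 1 →
    lam k ≤ 1 - c / Real.log (D + 2) ^ (131 / 100 : ℝ) := by
  have lp : ∀ k : ℕ, 1 ≤ k → 0 < Real.log (k + 1) := by
    intro k hk
    have : (1 : ℝ) ≤ k := by exact_mod_cast hk
    exact Real.log_pos (by linarith)
  obtain ⟨c1, c10, hc1⟩ := d.large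
  obtain ⟨c2, c20, hc2⟩ := exists_pos_le
    (fun k => (1 - lam k) * Real.log (k + 1) ^ (131 / 100 : ℝ))
    (fun k hk => mul_pos (by linarith [d.l2 k hk]) (Real.rpow_pos_of_pos (lp k hk) _))
    (Nf (Ls 531))
  refine ⟨min c1 c2, lt_min c10 c20, fun D k h1 h2 => ?_⟩
  have W0 : 0 < Real.log (k + 1) ^ (131 / 100 : ℝ) := Real.rpow_pos_of_pos (lp k h1) _
  have hW : Real.log (k + 1) ^ (131 / 100 : ℝ) ≤ Real.log (D + 2) ^ (131 / 100 : ℝ) := by
    apply Real.rpow_le_rpow (lp k h1).le _ (by norm_num)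
    apply Real.log_le_log (by positivity)
    have : (k : ℝ) ≤ D + 1 := by exact_mod_cast h2
    linarith
  have m0 : 0 < min c1 c2 := lt_min c10 c20
  have e1 : min c1 c2 / Real.log (D + 2) ^ (131 / 100 : ℝ)
      ≤ min c1 c2 / Real.log (k + 1) ^ (131 / 100 : ℝ) := by gcongr
  rcases le_or_gt k (Nf (Ls 531)) with hk | hk
  · have b1 : min c1 c2 / Real.log (k + 1) ^ (131 / 100 : ℝ) ≤ 1 - lam k := by
      rw [div_le_iff₀ W0]
      exact (min_le_right _ _).trans (hc2 k h1 hk)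
    linarith
  · have b1 := hc1 k hk
    have b2 : min c1 c2 / Real.log (k + 1) ^ (131 / 100 : ℝ)
        ≤ c1 / Real.log (k + 1) ^ (131 / 100 : ℝ) := by gcongr; exact min_le_left _ _
    linarith

end Pool.Agent.P.MP_923088_al
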