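import Mathlib

/-! Chebyshev polynomials of the second kind as characters of SU(2): product formula and bounds. -/

namespace Pool.Agent.P.MP_923088_al

open Finset

/-- Chebyshev polynomial of the second kind. -/
noncomputable def u : ℕ → ℝ → ℝ
  | 0, _ => 1
  | 1, c => 2 * c
  | (k + 2), c => 2 * c * u (k + 1) c - u k c

lemma u_zero (c : ℝ) : u 0 c = 1 := rfl
lemma u_one (c : ℝ) : u 1 c = 2 * c := rfl
lemma u_two (k : ℕ) (c : ℝ) : u (k + 2) c = 2 * c * u (k + 1) c - u k c := rfl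

lemma u_succ_mul (n : ℕ) (c : ℝ) : ∀ m : ℕ,
    u (n + 1) c * u (m + 1) c = u n c * u m c + u (n + m + 2) c := by
  intro m
  induction m using Nat.twoStepInduction with
  | zero => simp only [zero_add, add_zero, u_zero, u_one, u_two]; ring
  | one =>
    have h1 : u (n + 1 + 2) c = 2 * c * u (n + 2) c - u (n + 1) c := u_two (n + 1) c
    have h2 : u (1 + 1) c = 2 * c * (2 * c) - 1 := u_two 0 c
    rw [h1, h2, u_two n c, u_one]; ring
  | more m h0 h1 =>
    have e1 : u (m + 2 + 1) c = 2 * c * u (m + 2) c - u (m + 1) c := u_two (m + 1) c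
    have e2 : u (n + (m + 2) + 2) c = 2 * c * u (n + (m + 1) + 2) c - u (n + m + 2) c :=
      u_two (n + m + 2) c
    have e3 : u (m + 1 + 1) c = u (m + 2) c := rfl
    rw [e3] at h1
    rw [e1, e2]
    have e4 := u_two m c
    linear_combination 2 * c * h1 - h0 - u n c * e4

lemma u_mul_add (d : ℕ) (c : ℝ) : ∀ b : ℕ,
    u (b + d) c * u b c = ∑ t ∈ range (b + 1), u (d + 2 * t) c := by
  intro b
  induction b with
  | zero => simp [u_zero]
  | succ b ih =>
    rw [sum_range_succ, ← ih]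
    have h := u_succ_mul (b + d) c b
    have e1 : b + 1 + d = b + d + 1 := by ring
    have e2 : d + 2 * (b + 1) = b + d + b + 2 := by ring
    rw [e1, e2, h]

/-- The Clebsch-Gordan index set. -/
def cg (a b : ℕ) : Finset ℕ :=
  (range (a + b + 1)).filter (fun k => a ≤ b + k ∧ b ≤ a + k ∧ (k + a + b) % 2 = 0)

lemma mem_cg {a b k : ℕ} :
    k ∈ cg a b ↔ k ≤ a + b ∧ a ≤ b + k ∧ b ≤ a + k ∧ (k + a + b) % 2 = 0 := by
  simp only [cg, mem_filter, mem_range, Nat.lt_succ_iff]

lemma u_mul_of_le {a b : ℕ} (h : b ≤ a) (c : ℝ) : u a c * u b c = ∑ k ∈ cg a b, u k c := by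
  obtain ⟨d, rfl⟩ := Nat.exists_eq_add_of_le h
  rw [u_mul_add]
  apply Finset.sum_bij (fun t _ => d + 2 * t)
  · intro t ht
    rw [mem_range] at ht
    rw [mem_cg]; omega
  · intro t _ t' _ h; omega
  · intro k hk
    rw [mem_cg] at hk
    exact ⟨(k - d) / 2, by rw [mem_range]; omega, by omega⟩
  · intro t _; rfl

lemma u_mul (a b : ℕ) (c : ℝ) : u a c * u b c = ∑ k ∈ cg a b, u k c := by
  rcases le_total b a with h | h
  · exact u_mul_of_le h c
  · rw [mul_comm, u_mul_of_le h c]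
    apply Finset.sum_congr _ (fun _ _ => rfl)
    ext k; rw [mem_cg, mem_cg]; omega

lemma u_sq (m : ℕ) (c : ℝ) : u m c ^ 2 = ∑ i ∈ range (m + 1), u (2 * i) c := by
  have h := u_mul_add 0 c m
  simp only [add_zero, zero_add] at h
  rw [sq, h]

lemma sin_mul_u (θ : ℝ) : ∀ k : ℕ,
    Real.sin θ * u k (Real.cos θ) = Real.sin ((k + 1) * θ) := by
  intro k
  induction k using Nat.twoStepInduction with
  | zero => simp [u_zero]
  | one =>
    rw [u_one]
    have : ((1 : ℕ) + 1 : ℝ) * θ = 2 * θ := by push_cast; ring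
    rw [this, Real.sin_two_mul]; ring
  | more k h0 h1 =>
    rw [u_two]
    have e0 : ((k : ℝ) + 1) * θ = ((k : ℝ) + 2) * θ - θ := by ring
    have e1 : (((k + 1 : ℕ) : ℝ) + 1) * θ = ((k : ℝ) + 2) * θ := by push_cast; ring
    have e2 : (((k + 2 : ℕ) : ℝ) + 1) * θ = ((k : ℝ) + 2) * θ + θ := by push_cast; ring
    rw [e0, Real.sin_sub] at h0
    rw [e1] at h1
    rw [e2, Real.sin_add]
    linear_combination 2 * Real.cos θ * h1 - h0

lemma u_succ_cos (θ : ℝ) : ∀ k : ℕ,
    u (k + 1) (Real.cos θ) = Real.cos θ * u k (Real.cos θ) + Real.cos ((k + 1) * θ) := by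
  intro k
  induction k using Nat.twoStepInduction with
  | zero => simp [u_zero, u_one]; ring
  | one =>
    have h2 : u (1 + 1) (Real.cos θ) = 2 * Real.cos θ * (2 * Real.cos θ) - 1 := u_two 0 _
    have : ((1 : ℕ) + 1 : ℝ) * θ = 2 * θ := by push_cast; ring
    rw [h2, u_one, this, Real.cos_two_mul]; ring
  | more k h0 h1 =>
    have e3 : u (k + 2 + 1) (Real.cos θ)
        = 2 * Real.cos θ * u (k + 2) (Real.cos θ) - u (k + 1) (Real.cos θ) := u_two (k + 1) _
    have e4 := u_two k (Real.cos θ)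
    have e5 : u (k + 1 + 1) (Real.cos θ) = u (k + 2) (Real.cos θ) := rfl
    have e0 : ((k : ℝ) + 1) * θ = ((k : ℝ) + 2) * θ - θ := by ring
    have e1 : (((k + 1 : ℕ) : ℝ) + 1) * θ = ((k : ℝ) + 2) * θ := by push_cast; ring
    have e2 : (((k + 2 : ℕ) : ℝ) + 1) * θ = ((k : ℝ) + 2) * θ + θ := by push_cast; ring
    rw [e0, Real.cos_sub] at h0
    rw [e1, e5] at h1
    rw [e2, Real.cos_add, e3]
    linear_combination 2 * Real.cos θ * h1 - h0 - Real.cos θ * e4

lemma abs_u_cos_le (θ : ℝ) : ∀ k : ℕ, |u k (Real.cos θ)| ≤ k + 1 := by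
  intro k
  induction k with
  | zero => simp [u_zero]
  | succ k ih =>
    rw [u_succ_cos]
    have h1 := Real.abs_cos_le_one θ
    have h2 := Real.abs_cos_le_one ((k + 1) * θ)
    have h3 : |Real.cos θ * u k (Real.cos θ)| ≤ k + 1 := by
      rw [abs_mul]
      calc _ ≤ 1 * ((k : ℝ) + 1) := mul_le_mul h1 ih (abs_nonneg _) zero_le_one
        _ = _ := one_mul _
    have h4 := abs_add_le (Real.cos θ * u k (Real.cos θ)) (Real.cos ((k + 1) * θ))
    push_cast
    linarith

/-- The sine of the angle with cosine `c`. -/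
noncomputable def sn (c : ℝ) : ℝ := Real.sqrt (1 - c ^ 2)

lemma sn_nonneg (c : ℝ) : 0 ≤ sn c := Real.sqrt_nonneg _

lemma sn_le_one (c : ℝ) : sn c ≤ 1 := by
  unfold sn
  rw [Real.sqrt_le_iff]
  constructor
  · norm_num
  · nlinarith [sq_nonneg c]

lemma abs_u_le {c : ℝ} (hc : |c| ≤ 1) (k : ℕ) : |u k c| ≤ k + 1 := by
  rw [abs_le] at hc
  have := abs_u_cos_le (Real.arccos c) k
  rwa [Real.cos_arccos hc.1 hc.2] at this

lemma abs_u_mul_sn_le {c : ℝ} (hc : |c| ≤ 1) (k : ℕ) : |u k c| * sn c ≤ 1 := by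
  rw [abs_le] at hc
  have h := sin_mul_u (Real.arccos c) k
  rw [Real.cos_arccos hc.1 hc.2, Real.sin_arccos] at h
  have h2 := Real.abs_sin_le_one ((k + 1) * Real.arccos c)
  rw [← h, abs_mul, abs_of_nonneg (Real.sqrt_nonneg _)] at h2
  unfold sn
  linarith [mul_comm (|u k c|) (Real.sqrt (1 - c ^ 2))]

lemma u_neg (c : ℝ) : ∀ k : ℕ, u k (-c) = (-1) ^ k * u k c := by
  intro k
  induction k using Nat.twoStepInduction with
  | zero => simp [u_zero]
  | one => simp [u_one]
  | more k h0 h1 => rw [u_two, u_two, h0, h1]; ring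

lemma u_at_one : ∀ k : ℕ, u k 1 = k + 1 := by
  intro k
  induction k using Nat.twoStepInduction with
  | zero => simp [u_zero]
  | one => simp [u_one]; norm_num
  | more k h0 h1 => rw [u_two, h0, h1]; push_cast; ring

lemma le_u_of_nonneg {c : ℝ} (h0 : 0 ≤ c) (h1 : c ≤ 1) (J : ℕ) (hJ : (J + 1) * sn c ≤ 1) :
    ((J : ℝ) + 1) / 2 ≤ u J c := by
  have hc : -1 ≤ c := by linarith
  have h := sin_mul_u (Real.arccos c) J
  have hs : Real.sin (Real.arccos c) = sn c := Real.sin_arccos c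
  rw [Real.cos_arccos hc h1, hs] at h
  have hφ0 : 0 ≤ Real.arccos c := Real.arccos_nonneg c
  have hφ1 : Real.arccos c ≤ Real.pi / 2 := Real.arccos_le_pi_div_two.mpr h0
  have hJ0 : (0 : ℝ) < J + 1 := by positivity
  rcases (sn_nonneg c).eq_or_lt with hz | hp
  · have : c = 1 := by
      have h3 : 1 - c ^ 2 ≤ 0 := by
        have := Real.sqrt_eq_zero'.mp hz.symm
        exact this
      nlinarith
    rw [this, u_at_one]; linarith
  · have j1 := Real.mul_le_sin hφ0 hφ1
    rw [hs] at j1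
    have hpi := Real.pi_pos
    have j2 : ((J : ℝ) + 1) * Real.arccos c ≤ Real.pi / 2 := by
      have : 2 / Real.pi * (((J : ℝ) + 1) * Real.arccos c) ≤ 1 := by
        calc _ = ((J : ℝ) + 1) * (2 / Real.pi * Real.arccos c) := by ring
          _ ≤ ((J : ℝ) + 1) * sn c := by gcongr
          _ ≤ 1 := hJ
      rw [div_mul_eq_mul_div, div_le_one hpi] at this
      linarith
    have j3 := Real.mul_le_sin (mul_nonneg hJ0.le hφ0) j2
    have j4 : sn c ≤ Real.arccos c := by rw [← hs]; exact Real.sin_le hφ0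
    have j5 : (1 : ℝ) / 2 ≤ 2 / Real.pi := by
      rw [div_le_div_iff₀ (by norm_num) hpi]; linarith [Real.pi_le_four]
    have j6 : sn c * ((J + 1) / 2) ≤ sn c * u J c := by
      rw [h]
      calc sn c * ((J + 1) / 2) = 1 / 2 * ((J + 1) * sn c) := by ring
        _ ≤ 2 / Real.pi * ((J + 1) * Real.arccos c) := by gcongr
        _ ≤ _ := j3
    exact le_of_mul_le_mul_left j6 hp

lemma le_abs_u {c : ℝ} (hc : |c| ≤ 1) (J : ℕ) (hJ : (J + 1) * sn c ≤ 1) :
    ((J : ℝ) + 1) / 2 ≤ |u J c| := by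
  rw [abs_le] at hc
  rcases le_total 0 c with h | h
  · exact (le_u_of_nonneg h hc.2 J hJ).trans (le_abs_self _)
  · have e : sn (-c) = sn c := by unfold sn; rw [neg_sq]
    have h2 := le_u_of_nonneg (c := -c) (by linarith) (by linarith) J (by rw [e]; exact hJ)
    rw [u_neg] at h2
    refine h2.trans ((le_abs_self _).trans ?_)
    rw [abs_mul, abs_pow, abs_neg, abs_one, one_pow, one_mul]

end Pool.Agent.P.MP_923088_al
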