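import Pool.Agent.P.MP_923088_al.Basic

/-! One variable estimate: a polynomial whose discriminant is not small cannot be very small
away from its roots. -/

open MeasureTheory Set Polynomial
open scoped ENNReal

namespace SubQuad

lemma res_eq_zero {g : ℝ[X]} {e : ℕ} (h : g.natDegree < e) :
    resultant g (derivative g) e (e - 1) = 0 := by
  rcases Nat.eq_zero_or_pos g.natDegree with h0 | h0
  · obtain ⟨c, rfl⟩ := natDegree_eq_zero.1 h0
    rw [derivative_C, resultant_zero_right, zero_pow (by omega), zero_mul]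
  · exact resultant_eq_zero_of_lt_lt _ _ _ _ h ((natDegree_derivative_le g).trans_lt (by omega))

lemma res_formula (g : ℝ[X]) (he : 1 ≤ g.natDegree) (z : Fin g.natDegree → ℂ)
    (hz : g.map (algebraMap ℝ ℂ) = C (g.leadingCoeff : ℂ) * Lagrange.nodal Finset.univ z)
    (hr : (g.map (algebraMap ℝ ℂ)).roots = Finset.univ.val.map z) :
    |resultant g (derivative g) g.natDegree (g.natDegree - 1)| =
      |g.leadingCoeff| ^ (2 * g.natDegree - 1) *
        ∏ i, ∏ j ∈ Finset.univ.erase i, ‖z i - z j‖ := by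
  have hd : (g.map (algebraMap ℝ ℂ)).natDegree = g.natDegree :=
    natDegree_map_eq_of_injective (algebraMap ℝ ℂ).injective g
  have hl : (g.map (algebraMap ℝ ℂ)).leadingCoeff = (g.leadingCoeff : ℂ) :=
    leadingCoeff_map_of_injective (algebraMap ℝ ℂ).injective g
  have h1 := resultant_eq_prod_eval (g.map (algebraMap ℝ ℂ))
    (derivative (g.map (algebraMap ℝ ℂ))) (g.natDegree - 1)
    ((natDegree_derivative_le _).trans (by rw [hd])) (IsAlgClosed.splits _)
  rw [hd, hl, hr, Multiset.map_map] at h1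
  have h2 : ∀ i, (derivative (g.map (algebraMap ℝ ℂ))).eval (z i) =
      (g.leadingCoeff : ℂ) * ∏ j ∈ Finset.univ.erase i, (z i - z j) := fun i => by
    rw [hz, derivative_C_mul, eval_mul, eval_C,
      Lagrange.eval_nodal_derivative_eval_node_eq (Finset.mem_univ i), Lagrange.eval_nodal]
  have h3 : ((resultant g (derivative g) g.natDegree (g.natDegree - 1) : ℝ) : ℂ) =
      (g.leadingCoeff : ℂ) ^ (g.natDegree - 1) *
        ∏ i, ((g.leadingCoeff : ℂ) * ∏ j ∈ Finset.univ.erase i, (z i - z j)) := by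
    have h4 := resultant_map_map g (derivative g) g.natDegree (g.natDegree - 1) (algebraMap ℝ ℂ)
    rw [← derivative_map, h1] at h4
    rw [← Complex.coe_algebraMap, ← h4, Finset.prod_eq_multiset_prod]
    congr 2
    exact Multiset.map_congr rfl fun i _ => h2 i
  have h5 := congrArg norm h3
  rw [Complex.norm_real, Real.norm_eq_abs] at h5
  rw [h5, norm_mul, norm_pow, Finset.prod_mul_distrib, norm_mul, Finset.prod_const, norm_pow,
    norm_prod, Complex.norm_real, Real.norm_eq_abs, Finset.card_univ, Fintype.card_fin,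
    ← mul_assoc, ← pow_add]
  congr 1
  · congr 1
    omega
  · exact Finset.prod_congr rfl fun i _ => norm_prod _ _

lemma prod_bound {e : ℕ} (he : 1 ≤ e) {a : ℝ} (ha : 0 ≤ a) (μ : Fin e → ℝ) (hμ : ∀ j, 1 ≤ μ j)
    (r w : Fin e → Fin e → ℝ) (hr : ∀ i j, 0 ≤ r i j) (hw : ∀ i j, 0 ≤ w i j)
    (h : ∀ i j, r i j ≤ 2 * μ i * μ j * w i j) :
    a ^ (2 * e - 1) * ∏ i, ∏ j ∈ Finset.univ.erase i, r i j ≤
      Real.exp (e ^ 2) * (a * ∏ j, μ j) ^ (2 * e - 1) *
        ∏ i, ∏ j ∈ Finset.univ.erase i, w i j := by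
  have hμ0 : ∀ j, 0 ≤ μ j := fun j => zero_le_one.trans (hμ j)
  have hP : 0 ≤ ∏ j, μ j := Finset.prod_nonneg fun j _ => hμ0 j
  have h1 : ∀ i, ∏ j ∈ Finset.univ.erase i, r i j ≤
      Real.exp e * μ i ^ (e - 1) * (∏ j, μ j) * ∏ j ∈ Finset.univ.erase i, w i j := fun i => by
    calc ∏ j ∈ Finset.univ.erase i, r i j
        ≤ ∏ j ∈ Finset.univ.erase i, (2 * μ i * μ j * w i j) :=
          Finset.prod_le_prod (fun j _ => hr i j) fun j _ => h i j
      _ = 2 ^ (e - 1) * μ i ^ (e - 1) * (∏ j ∈ Finset.univ.erase i, μ j) *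
            ∏ j ∈ Finset.univ.erase i, w i j := by
          rw [Finset.prod_mul_distrib, Finset.prod_mul_distrib, Finset.prod_const,
            Finset.card_erase_of_mem (Finset.mem_univ i), Finset.card_univ, Fintype.card_fin,
            mul_pow]
      _ ≤ _ := by
          have h2 : (2 : ℝ) ^ (e - 1) ≤ Real.exp e := by
            calc (2 : ℝ) ^ (e - 1) ≤ 2 ^ e := pow_le_pow_right₀ one_le_two (Nat.sub_le _ _)
              _ ≤ Real.exp 1 ^ e := by
                  gcongr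
                  linarith [Real.add_one_le_exp (1 : ℝ)]
              _ = Real.exp e := by rw [← Real.exp_nat_mul, mul_one]
          have h3 : ∏ j ∈ Finset.univ.erase i, μ j ≤ ∏ j, μ j := by
            rw [← Finset.mul_prod_erase _ _ (Finset.mem_univ i)]
            exact le_mul_of_one_le_left (Finset.prod_nonneg fun j _ => hμ0 j) (hμ i)
          have h4 : 0 ≤ ∏ j ∈ Finset.univ.erase i, w i j := Finset.prod_nonneg fun j _ => hw i j
          have h5 := hμ0 i
          have h6 : 0 ≤ ∏ j ∈ Finset.univ.erase i, μ j := Finset.prod_nonneg fun j _ => hμ0 j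
          gcongr
  calc a ^ (2 * e - 1) * ∏ i, ∏ j ∈ Finset.univ.erase i, r i j
      ≤ a ^ (2 * e - 1) * ∏ i, (Real.exp e * μ i ^ (e - 1) * (∏ j, μ j) *
          ∏ j ∈ Finset.univ.erase i, w i j) := by
        gcongr with i
        · exact fun i _ => Finset.prod_nonneg fun j _ => hr i j
        · exact h1 i
    _ = _ := by
        rw [Finset.prod_mul_distrib, Finset.prod_mul_distrib, Finset.prod_mul_distrib,
          Finset.prod_const, Finset.prod_const, Finset.prod_pow, Finset.card_univ,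
          Fintype.card_fin, ← Real.exp_nat_mul, mul_pow,
          show 2 * e - 1 = (e - 1) + e by omega, pow_add (∏ j, μ j), ← sq]
        ring

lemma dist_le_two (t a b : ℂ) : ‖a - b‖ ≤ 2 * max 1 ‖t - a‖ * max 1 ‖t - b‖ *
    max (min 1 ‖t - a‖) (min 1 ‖t - b‖) := by
  have h1 : ‖a - b‖ ≤ ‖t - a‖ + ‖t - b‖ := by
    have : a - b = (t - b) - (t - a) := by ring
    rw [this, add_comm]
    exact norm_sub_le _ _
  have ha := norm_nonneg (t - a)
  have hb := norm_nonneg (t - b)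
  generalize ‖t - a‖ = p at *
  generalize ‖t - b‖ = q at *
  refine h1.trans ?_
  rcases le_total p 1 with hp | hp <;> rcases le_total q 1 with hq | hq
  · rw [max_eq_left hp, max_eq_left hq, min_eq_right hp, min_eq_right hq]
    linarith [le_max_left p q, le_max_right p q]
  · rw [max_eq_left hp, max_eq_right hq, min_eq_right hp, min_eq_left hq, max_eq_right hp]
    linarith
  · rw [max_eq_right hp, max_eq_left hq, min_eq_left hp, min_eq_right hq, max_eq_left hq]
    linarith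
  · rw [max_eq_right hp, max_eq_right hq, min_eq_left hp, min_eq_left hq, max_self]
    nlinarith

lemma mahler_le {e : ℕ} (he : 1 ≤ e) {a : ℝ} (ha : 0 ≤ a) (z : Fin e → ℂ) {T S t : ℝ}
    (hT : 1 ≤ T) (ht : |t| ≤ T) (hS : ∀ y : ℝ, |y| ≤ T → a * ∏ j, ‖(y : ℂ) - z j‖ ≤ S) :
    a * ∏ j, max 1 ‖(t : ℂ) - z j‖ ≤ (4 * e + 1) ^ e * S := by
  have he1 : (1 : ℝ) ≤ e := by exact_mod_cast he
  have hy : ∃ y : ℝ, |y| ≤ T ∧ ∀ j, T / (2 * e) ≤ |y - (z j).re| := by
    by_contra h
    push Not at h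
    have h1 : volume (Icc (-T) T) ≤ volume {y : ℝ | ∃ j, |y - (z j).re| < T / (2 * e)} :=
      measure_mono fun y hy => h y (abs_le.2 hy)
    have h2 := h1.trans (vol_near (fun j => (z j).re) (by positivity))
    rw [Real.volume_Icc, ENNReal.ofReal_le_ofReal_iff (by positivity), Fintype.card_fin] at h2
    have h3 : 2 * (e : ℝ) * (T / (2 * e)) = T := by field_simp
    linarith
  obtain ⟨y, hy, hyz⟩ := hy
  have key : ∀ j, max 1 ‖(t : ℂ) - z j‖ ≤ (4 * e + 1) * ‖(y : ℂ) - z j‖ := fun j => by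
    have h1 : T / (2 * e) ≤ ‖(y : ℂ) - z j‖ := (hyz j).trans (abs_re_le y (z j))
    rw [div_le_iff₀ (by positivity)] at h1
    have h2 : ‖(t : ℂ) - z j‖ ≤ 2 * T + ‖(y : ℂ) - z j‖ := by
      have h3 : (t : ℂ) - z j = ((t - y : ℝ) : ℂ) + ((y : ℂ) - z j) := by push_cast; ring
      rw [h3]
      refine (norm_add_le _ _).trans ?_
      have h4 : ‖((t - y : ℝ) : ℂ)‖ ≤ 2 * T := by
        rw [Complex.norm_real, Real.norm_eq_abs]
        have := abs_sub t y
        linarith
      linarith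
    have h5 := norm_nonneg ((y : ℂ) - z j)
    refine max_le ?_ ?_ <;> nlinarith
  calc a * ∏ j, max 1 ‖(t : ℂ) - z j‖ ≤ a * ∏ j, ((4 * e + 1) * ‖(y : ℂ) - z j‖) := by
        gcongr with j
        exact key j
    _ = (4 * e + 1) ^ e * (a * ∏ j, ‖(y : ℂ) - z j‖) := by
        rw [Finset.prod_mul_distrib, Finset.prod_const, Finset.card_univ, Fintype.card_fin]
        ring
    _ ≤ _ := by
        gcongr
        exact hS y hy

lemma pow_exp_eq (e : ℕ) (A : ℝ) :
    (4 * (e : ℝ) + 1) ^ e * Real.exp A = Real.exp (A + e * Real.log (4 * e + 1)) := by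
  rw [Real.exp_add, Real.exp_nat_mul, Real.exp_log (by positivity), mul_comm]

/-- Upper bound for the resultant of `g` and `g'`. -/
lemma res_le {g : ℝ[X]} {e : ℕ} (he : 1 ≤ e) (hg : g.natDegree ≤ e) {T A : ℝ} (hT : 1 ≤ T)
    (hA : 0 ≤ A) (hS : ∀ y : ℝ, |y| ≤ T → |g.eval y| ≤ Real.exp A) :
    |resultant g (derivative g) e (e - 1)| ≤
      Real.exp (e ^ 2 + 2 * e * (A + e * Real.log (4 * e + 1))) := by
  rcases hg.lt_or_eq with hg | rfl
  · rw [res_eq_zero hg, abs_zero]
    exact (Real.exp_pos _).le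
  obtain ⟨a, z, ha, hz, h1, h2⟩ := exists_roots_real g
  have ha0 : 0 ≤ a := ha ▸ abs_nonneg _
  rw [res_formula g he z h1 h2, ← ha]
  have h3 := prod_bound he ha0 (fun j => max 1 ‖((0 : ℝ) : ℂ) - z j‖) (fun j => le_max_left _ _)
    (fun i j => ‖z i - z j‖) (fun _ _ => 1) (fun _ _ => norm_nonneg _) (fun _ _ => zero_le_one)
    (fun i j => (dist_le_two ((0 : ℝ) : ℂ) (z i) (z j)).trans (by
      gcongr
      exact max_le (min_le_left _ _) (min_le_left _ _)))
  have h4 := mahler_le he ha0 z hT (t := 0) (by simp; linarith)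
    (fun y hy => (hz y).symm.trans_le (hS y hy))
  rw [pow_exp_eq] at h4
  refine h3.trans ?_
  simp only [Finset.prod_const_one, mul_one]
  have h5 : 0 ≤ Real.log (4 * (g.natDegree : ℝ) + 1) :=
    Real.log_nonneg (by linarith [Nat.cast_nonneg (α := ℝ) g.natDegree])
  rw [Real.exp_add]
  gcongr
  calc _ ≤ Real.exp (A + g.natDegree * Real.log (4 * g.natDegree + 1)) ^ (2 * g.natDegree - 1) := by
        gcongr
    _ ≤ Real.exp (A + g.natDegree * Real.log (4 * g.natDegree + 1)) ^ (2 * g.natDegree) :=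
        pow_le_pow_right₀ (Real.one_le_exp (by positivity)) (Nat.sub_le _ _)
    _ = _ := by
        rw [← Real.exp_nat_mul]
        push_cast
        rfl

lemma sum_sq_le {e : ℕ} (l : Fin e → ℝ) {L : ℝ} (h0 : ∀ j, 0 ≤ l j) (hL : ∀ j, l j ≤ L) :
    (∑ j, l j) ^ 2 - L * ∑ j, l j ≤ ∑ i, ∑ j ∈ Finset.univ.erase i, l i * l j := by
  have h1 : ∀ i, ∑ j ∈ Finset.univ.erase i, l i * l j = l i * (∑ j, l j) - l i * l i := fun i => by
    rw [← Finset.mul_sum, Finset.sum_erase_eq_sub (Finset.mem_univ i)]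
    ring
  rw [Finset.sum_congr rfl fun i _ => h1 i, Finset.sum_sub_distrib, ← Finset.sum_mul,
    Finset.mul_sum _ _ L, sq]
  gcongr with i
  · exact h0 i
  · exact hL i

/-- The pointwise estimate. -/
lemma core_point {e : ℕ} (he : 1 ≤ e) {a : ℝ} (ha : 0 ≤ a) (z : Fin e → ℂ) (t : ℂ)
    {L Λ A : ℝ} (hL : 0 < L) (hΛ : 0 ≤ Λ) (hA : 0 ≤ A)
    (hM : a * ∏ j, max 1 ‖t - z j‖ ≤ Real.exp A) (ht : ∀ j, Real.exp (-L) ≤ ‖t - z j‖)
    (hR : Real.exp (-Λ) ≤ a ^ (2 * e - 1) * ∏ i, ∏ j ∈ Finset.univ.erase i, ‖z i - z j‖) :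
    Real.exp (-(L + √(L * (Λ + e ^ 2 + 2 * e * A)) + Λ / e + e)) ≤ a * ∏ j, ‖t - z j‖ := by
  have he1 : (1 : ℝ) ≤ e := by exact_mod_cast he
  have hρ : ∀ j, 0 < ‖t - z j‖ := fun j => (Real.exp_pos _).trans_le (ht j)
  set l : Fin e → ℝ := fun j => -Real.log (min 1 ‖t - z j‖) with hl
  have hmin : ∀ j, 0 < min 1 ‖t - z j‖ := fun j => lt_min one_pos (hρ j)
  have hexp : ∀ j, min 1 ‖t - z j‖ = Real.exp (-l j) := fun j => by
    rw [hl, neg_neg, Real.exp_log (hmin j)]
  have hl0 : ∀ j, 0 ≤ l j := fun j =>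
    neg_nonneg.2 (Real.log_nonpos (hmin j).le (min_le_left _ _))
  have hlL : ∀ j, l j ≤ L := fun j => by
    have h1 : Real.exp (-L) ≤ Real.exp (-l j) := by
      rw [← hexp]
      exact le_min (Real.exp_le_one_iff.2 (by linarith)) (ht j)
    linarith [Real.exp_le_exp.1 h1]
  have h3 := prod_bound he ha (fun j => max 1 ‖t - z j‖) (fun j => le_max_left _ _)
    (fun i j => ‖z i - z j‖) (fun i j => Real.exp (-(l i * l j / L))) (fun _ _ => norm_nonneg _)
    (fun _ _ => (Real.exp_pos _).le)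
    (fun i j => (dist_le_two t (z i) (z j)).trans (by
      gcongr
      rw [hexp, hexp]
      refine max_le ?_ ?_ <;> rw [Real.exp_le_exp, neg_le_neg_iff, div_le_iff₀ hL] <;>
        nlinarith [hl0 i, hl0 j, hlL i, hlL j]))
  set M := a * ∏ j, max 1 ‖t - z j‖ with hMdef
  set Y := (∑ i, ∑ j ∈ Finset.univ.erase i, l i * l j) / L with hY
  have h4 : ∏ i, ∏ j ∈ Finset.univ.erase i, Real.exp (-(l i * l j / L)) = Real.exp (-Y) := by
    simp only [← Real.exp_sum, Finset.sum_neg_distrib, ← Finset.sum_div, hY]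
  rw [h4] at h3
  have h5 := hR.trans h3
  have hM0 : 0 < M := by
    have h6 : 0 ≤ M := mul_nonneg ha (Finset.prod_nonneg fun j _ => by positivity)
    rcases h6.lt_or_eq with h | h
    · exact h
    · rw [← h, zero_pow (by omega), mul_zero, zero_mul] at h5
      exact absurd h5 (not_le.2 (Real.exp_pos _))
  have h7 : -Λ ≤ e ^ 2 + (2 * e - 1) * Real.log M - Y := by
    have h8 : M ^ (2 * e - 1) = Real.exp ((2 * e - 1) * Real.log M) := by
      have h9 : (2 * e - 1 : ℝ) = ((2 * e - 1 : ℕ) : ℝ) := by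
        rw [Nat.cast_sub (by omega)]
        push_cast
        ring
      rw [h9, Real.exp_nat_mul, Real.exp_log hM0]
    rw [h8, ← Real.exp_add, ← Real.exp_add, Real.exp_le_exp] at h5
    linarith
  have hY0 : 0 ≤ Y := div_nonneg (Finset.sum_nonneg fun i _ => Finset.sum_nonneg fun j _ =>
    mul_nonneg (hl0 i) (hl0 j)) hL.le
  have hlogM : Real.log M ≤ A := (Real.log_le_iff_le_exp hM0).2 hM
  have hlow : -(Λ / e + e) ≤ Real.log M := by
    have h8 : Λ / e + e = (Λ + e ^ 2) / e := by field_simp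
    rw [h8, ← neg_div, div_le_iff₀ (by linarith)]
    rcases le_total 0 (Real.log M) with h | h <;> nlinarith
  set X := ∑ j, l j with hX
  have hX0 : 0 ≤ X := Finset.sum_nonneg fun j _ => hl0 j
  have hXY : X ^ 2 - L * X ≤ L * (Λ + e ^ 2 + 2 * e * A) := by
    have h8 := sum_sq_le l hl0 hlL
    have h9 : ∑ i, ∑ j ∈ Finset.univ.erase i, l i * l j = L * Y := by
      rw [hY]
      field_simp
    have h10 : Y ≤ Λ + e ^ 2 + 2 * e * A := by nlinarith
    rw [h9] at h8
    exact h8.trans (mul_le_mul_of_nonneg_left h10 hL.le)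
  have hXle : X ≤ L + √(L * (Λ + e ^ 2 + 2 * e * A)) := by
    by_contra h
    push Not at h
    have h8 : 0 ≤ L * (Λ + e ^ 2 + 2 * e * A) := by positivity
    have h9 := Real.sq_sqrt h8
    have h10 := Real.sqrt_nonneg (L * (Λ + e ^ 2 + 2 * e * A))
    nlinarith
  have h11 : a * ∏ j, ‖t - z j‖ = Real.exp (Real.log M - X) := by
    rw [sub_eq_add_neg, Real.exp_add, Real.exp_log hM0, hX, ← Finset.sum_neg_distrib,
      Real.exp_sum, hMdef, mul_assoc, ← Finset.prod_mul_distrib]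
    congr 1
    refine Finset.prod_congr rfl fun j _ => ?_
    rw [← hexp, max_mul_min, one_mul]
  rw [h11, Real.exp_le_exp]
  linarith

/-- The one variable estimate in measure form. -/
lemma core_vol {g : ℝ[X]} {e : ℕ} (he : 1 ≤ e) (hg : g.natDegree ≤ e) {T A L Λ : ℝ} (hT : 1 ≤ T)
    (hA : 0 ≤ A) (hS : ∀ y : ℝ, |y| ≤ T → |g.eval y| ≤ Real.exp A) (hL : 0 < L) (hΛ : 0 ≤ Λ)
    (hR : Real.exp (-Λ) ≤ |resultant g (derivative g) e (e - 1)|) :
    volume {t : ℝ | |t| ≤ T ∧ |g.eval t| < Real.exp (-(L + √(L * (Λ + e ^ 2 +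
      2 * e * (A + e * Real.log (4 * e + 1)))) + Λ / e + e))} ≤
      ENNReal.ofReal (2 * e * Real.exp (-L)) := by
  rcases hg.lt_or_eq with hg | rfl
  · rw [res_eq_zero hg, abs_zero] at hR
    exact absurd hR (not_le.2 (Real.exp_pos _))
  obtain ⟨a, z, ha, hz, h1, h2⟩ := exists_roots_real g
  have ha0 : 0 ≤ a := ha ▸ abs_nonneg _
  rw [res_formula g he z h1 h2, ← ha] at hR
  have h3 := vol_near (fun j => (z j).re) (Real.exp_pos (-L)).le
  rw [Fintype.card_fin] at h3
  refine le_trans (measure_mono ?_) h3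
  rintro t ⟨ht, hlt⟩
  by_contra hno
  simp only [mem_ofPred_eq, not_exists, not_lt] at hno
  have h4 := mahler_le he ha0 z hT ht (fun y hy => (hz y).symm.trans_le (hS y hy))
  rw [pow_exp_eq] at h4
  have h5 : 0 ≤ Real.log (4 * (g.natDegree : ℝ) + 1) :=
    Real.log_nonneg (by linarith [Nat.cast_nonneg (α := ℝ) g.natDegree])
  have h6 := core_point he ha0 z t hL hΛ (by positivity) h4
    (fun j => (hno j).trans (abs_re_le t (z j))) hR
  rw [← hz] at h6
  exact absurd hlt (not_lt.2 h6)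

end SubQuad
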