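import Mathlib

/-! Definitions for the quasi-gap statement on SU(2). -/

namespace Pool.Agent.P.MP_923088_al

/-- The group SU(2). -/
abbrev SU2 : Type := Matrix.specialUnitaryGroup (Fin 2) ℂ

open Classical in
/-- The symmetrised set, the union of `S` and the set of inverses of its elements. -/
noncomputable def symmSet (S : Finset SU2) : Finset SU2 := S ∪ S.image (fun s => s⁻¹)

/-- The averaging operator: the mean of `f (s * x)` over the symmetrised set. -/
noncomputable def avg (S : Finset SU2) (f : SU2 → ℂ) (x : SU2) : ℂ :=
  (1 / ((symmSet S).card : ℂ)) * ∑ s ∈ symmSet S, f (s * x)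

/-- The function on SU(2) given by a polynomial in the four matrix entries. -/
noncomputable def polyFun (p : MvPolynomial (Fin 2 × Fin 2) ℂ) (x : SU2) : ℂ :=
  MvPolynomial.eval (fun ij : Fin 2 × Fin 2 => (x : Matrix (Fin 2) (Fin 2) ℂ) ij.1 ij.2) p

end Pool.Agent.P.MP_923088_al
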