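import Pool.Agent.P.MP_923088_al.Size
import Pool.Agent.P.MP_923088_al.Core

/-! The discriminant in the first variable of an integer polynomial. -/

open MeasureTheory Set Polynomial
open scoped ENNReal

namespace SubQuad

variable {k : ℕ}

/-- `P` as a polynomial in the first variable. -/
noncomputable def up (P : MvPolynomial (Fin (k + 1)) ℤ) : (MvPolynomial (Fin k) ℤ)[X] :=
  MvPolynomial.finSuccEquiv ℤ k P

/-- Evaluation as a ring homomorphism. -/
noncomputable def evHom (x : Fin k → ℝ) : MvPolynomial (Fin k) ℤ →+* ℝ :=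
  (MvPolynomial.aeval x : MvPolynomial (Fin k) ℤ →ₐ[ℤ] ℝ).toRingHom

lemma evHom_apply (x : Fin k → ℝ) (f : MvPolynomial (Fin k) ℤ) : evHom x f = ev f x := rfl

/-- The slice of `P` over `x`. -/
noncomputable def sl (P : MvPolynomial (Fin (k + 1)) ℤ) (x : Fin k → ℝ) : ℝ[X] :=
  (up P).map (evHom x)

lemma sl_eval (P : MvPolynomial (Fin (k + 1)) ℤ) (x : Fin k → ℝ) (t : ℝ) :
    (sl P x).eval t = ev P (Fin.cons t x) := by
  induction P using MvPolynomial.induction_on with
  | C a => simp [sl, up, ev]
  | add p q hp hq =>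
    simp only [sl, up, ev, map_add, Polynomial.map_add, eval_add] at hp hq ⊢
    rw [hp, hq]
  | mul_X p i hp =>
    simp only [sl, up, ev, map_mul, Polynomial.map_mul, eval_mul] at hp ⊢
    rw [hp]
    refine Fin.cases ?_ (fun j => ?_) i
    · simp [MvPolynomial.finSuccEquiv_X_zero]
    · simp [MvPolynomial.finSuccEquiv_X_succ, evHom]

lemma sl_natDegree_le (P : MvPolynomial (Fin (k + 1)) ℤ) (x : Fin k → ℝ) :
    (sl P x).natDegree ≤ (up P).natDegree := natDegree_map_le

lemma up_natDegree_le (P : MvPolynomial (Fin (k + 1)) ℤ) : (up P).natDegree ≤ P.totalDegree := by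
  rw [up, MvPolynomial.natDegree_finSuccEquiv]
  exact MvPolynomial.degreeOf_le_totalDegree P 0

lemma up_coeff_le (P : MvPolynomial (Fin (k + 1)) ℤ) (i : ℕ) :
    ((up P).coeff i).totalDegree ≤ P.totalDegree := by
  by_cases h : (up P).coeff i = 0
  · simp [h]
  · exact le_self_add.trans (MvPolynomial.totalDegree_coeff_finSuccEquiv_add_le P i h)

/-- The resultant of `P` and its derivative in the first variable. -/
noncomputable def disc (P : MvPolynomial (Fin (k + 1)) ℤ) : MvPolynomial (Fin k) ℤ :=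
  resultant (up P) (derivative (up P)) (up P).natDegree ((up P).natDegree - 1)

lemma ev_disc (P : MvPolynomial (Fin (k + 1)) ℤ) (x : Fin k → ℝ) :
    ev (disc P) x =
      resultant (sl P x) (derivative (sl P x)) (up P).natDegree ((up P).natDegree - 1) := by
  rw [sl, derivative_map, resultant_map_map, evHom_apply, disc]

lemma disc_ne_zero {P : MvPolynomial (Fin (k + 1)) ℤ} (hP : Irreducible P)
    (he : (up P).natDegree ≠ 0) : disc P ≠ 0 := by
  have h1 : Irreducible (up P) :=
    (MulEquiv.irreducible_iff (MvPolynomial.finSuccEquiv ℤ k)).2 hP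
  let K := FractionRing (MvPolynomial (Fin k) ℤ)
  have hinj := IsFractionRing.injective (MvPolynomial (Fin k) ℤ) K
  haveI : CharZero K := charZero_of_injective_algebraMap hinj
  have h2 : Irreducible ((up P).map (algebraMap (MvPolynomial (Fin k) ℤ) K)) :=
    ((h1.isPrimitive he).irreducible_iff_irreducible_map_fraction_map).1 h1
  have h3 := resultant_ne_zero _ _ ((separable_def _).1 h2.separable)
  rw [natDegree_derivative, natDegree_map_eq_of_injective hinj, derivative_map,
    resultant_map_map] at h3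
  intro h
  apply h3
  rw [← disc, h, map_zero]

lemma totalDegree_det_le {n D : ℕ} (M : Matrix (Fin n) (Fin n) (MvPolynomial (Fin k) ℤ))
    (h : ∀ i j, (M i j).totalDegree ≤ D) : M.det.totalDegree ≤ n * D := by
  rw [Matrix.det_apply']
  refine MvPolynomial.totalDegree_finsetSum_le fun σ _ => ?_
  refine (MvPolynomial.totalDegree_mul _ _).trans ?_
  have h1 : ((Equiv.Perm.sign σ : ℤ) : MvPolynomial (Fin k) ℤ).totalDegree = 0 := by
    rw [← eq_intCast (MvPolynomial.C : ℤ →+* MvPolynomial (Fin k) ℤ), MvPolynomial.totalDegree_C]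
  rw [h1, zero_add]
  refine (MvPolynomial.totalDegree_finsetProd _ _).trans ?_
  refine (Finset.sum_le_sum fun i _ => h (σ i) i).trans ?_
  simp

lemma disc_degree (P : MvPolynomial (Fin (k + 1)) ℤ) :
    (disc P).totalDegree ≤ 2 * (up P).natDegree * P.totalDegree := by
  refine (totalDegree_det_le (D := P.totalDegree) _ fun i j => ?_).trans
    (Nat.mul_le_mul_right _ (by omega))
  induction j using Fin.addCases with
  | left j =>
    simp only [sylvester, Matrix.of_apply, Fin.addCases_left]
    split_ifs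
    · rw [coeff_derivative]
      refine (MvPolynomial.totalDegree_mul _ _).trans ?_
      have h1 : (((i - j : ℕ) : MvPolynomial (Fin k) ℤ) + 1).totalDegree = 0 := by
        rw [← Nat.cast_succ, ← map_natCast (MvPolynomial.C : ℤ →+* MvPolynomial (Fin k) ℤ),
          MvPolynomial.totalDegree_C]
      rw [h1, add_zero]
      exact up_coeff_le P _
    · simp
  | right j =>
    simp only [sylvester, Matrix.of_apply, Fin.addCases_right]
    split_ifs
    · exact up_coeff_le P _
    · simp

lemma Sz.e_le {T : ℝ} {P : MvPolynomial (Fin (k + 1)) ℤ} {s : ℕ} (h : Sz T P s) :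
    ((up P).natDegree : ℝ) ≤ s := by
  exact_mod_cast (up_natDegree_le P).trans h.deg_le

lemma Sz.elog_le {T : ℝ} {P : MvPolynomial (Fin (k + 1)) ℤ} {s : ℕ} (h : Sz T P s) :
    (up P).natDegree * Real.log (4 * (up P).natDegree + 1) ≤ 2 * s := by
  have h1 : ((up P).natDegree : ℝ) ≤ P.totalDegree := by exact_mod_cast up_natDegree_le P
  have h0 : (0 : ℝ) ≤ (up P).natDegree := Nat.cast_nonneg _
  have h2 : Real.log (4 * (up P).natDegree + 1) ≤ 2 * Real.log (P.totalDegree + 2) := by
    have h3 := Real.log_pow ((P.totalDegree : ℝ) + 2) 2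
    push_cast at h3
    rw [← h3]
    exact Real.log_le_log (by positivity) (by nlinarith)
  have h4 := log_two_le P.totalDegree
  calc _ ≤ P.totalDegree * (2 * Real.log (P.totalDegree + 2)) := by
        gcongr
        exact Real.log_nonneg (by linarith)
    _ ≤ _ := by linarith [h.deg]

lemma Sz.sl_le {T : ℝ} {P : MvPolynomial (Fin (k + 1)) ℤ} {s : ℕ} (h : Sz T P s)
    {x : Fin k → ℝ} (hx : x ∈ cube k T) (y : ℝ) (hy : |y| ≤ T) :
    |(sl P x).eval y| ≤ Real.exp s := by
  rw [sl_eval]
  exact h.sup _ (cons_mem_cube.2 ⟨hy, hx⟩)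

lemma Sz.disc {T : ℝ} (hT : 1 ≤ T) {P : MvPolynomial (Fin (k + 1)) ℤ} {s : ℕ} (h : Sz T P s)
    (he : 1 ≤ (up P).natDegree) : Sz T (disc P) (7 * (up P).natDegree * s) := by
  have h1 := h.one
  have he1 : (1 : ℝ) ≤ (up P).natDegree := by exact_mod_cast he
  have hs1 : (1 : ℝ) ≤ s := by exact_mod_cast h1
  refine ⟨by nlinarith, ?_, fun x hx => ?_⟩
  · have h2 : ((SubQuad.disc P).totalDegree : ℝ) ≤ 2 * (up P).natDegree * P.totalDegree := by
      exact_mod_cast disc_degree P
    have h3 : ((up P).natDegree : ℝ) ≤ P.totalDegree := by exact_mod_cast up_natDegree_le P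
    have h4 : Real.log ((SubQuad.disc P).totalDegree + 2) ≤ 3 * Real.log (P.totalDegree + 2) := by
      have h5 := Real.log_pow ((P.totalDegree : ℝ) + 2) 3
      push_cast at h5
      rw [← h5]
      refine Real.log_le_log (by positivity) ?_
      have h6 : (0 : ℝ) ≤ P.totalDegree := Nat.cast_nonneg _
      nlinarith [mul_le_mul_of_nonneg_right h3 h6, pow_nonneg h6 3]
    have h5 := log_two_le (SubQuad.disc P).totalDegree
    calc _ ≤ 2 * (up P).natDegree * P.totalDegree * (3 * Real.log (P.totalDegree + 2)) := by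
          gcongr
      _ = 6 * (up P).natDegree * (P.totalDegree * Real.log (P.totalDegree + 2)) := by ring
      _ ≤ 6 * (up P).natDegree * s := by gcongr; exact h.deg
      _ ≤ _ := by push_cast; nlinarith
  · rw [ev_disc]
    refine (res_le he (sl_natDegree_le P x) hT (Nat.cast_nonneg s) (h.sl_le hx)).trans ?_
    rw [Real.exp_le_exp]
    push_cast
    nlinarith [h.e_le, h.elog_le]

/-- Polynomials not involving the first variable. -/
lemma const_case {T : ℝ} (hT : 1 ≤ T) {P : MvPolynomial (Fin (k + 1)) ℤ} (hP : P ≠ 0) {s : ℕ}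
    (h : Sz T P s) (he : (up P).natDegree = 0) : ∃ f : MvPolynomial (Fin k) ℤ, f ≠ 0 ∧ Sz T f s ∧
      ∀ t x, ev P (Fin.cons t x) = ev f x := by
  have h1 := eq_C_of_natDegree_eq_zero he
  have h2 : ∀ t x, ev P (Fin.cons t x) = ev ((up P).coeff 0) x := fun t x => by
    rw [← sl_eval, sl]
    conv_lhs => rw [h1]
    simp [evHom_apply]
  refine ⟨(up P).coeff 0, fun h0 => hP ?_, ⟨h.one, ?_, fun x hx => ?_⟩, h2⟩
  · rw [h0, map_zero] at h1
    exact (map_eq_zero_iff _ (MvPolynomial.finSuccEquiv ℤ k).injective).1 h1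
  · have h3 : (((up P).coeff 0).totalDegree : ℝ) ≤ P.totalDegree := by
      exact_mod_cast up_coeff_le P 0
    refine le_trans ?_ h.deg
    have h4 := log_two_le ((up P).coeff 0).totalDegree
    gcongr
  · rw [← h2 0 x]
    exact h.sup _ (cons_mem_cube.2 ⟨by simp; linarith, hx⟩)

end SubQuad
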