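import Pool.Agent.P.MP_923088_al.Induct

/-! Almost everywhere lower bounds for exponentially large families of integer polynomials. -/

open MeasureTheory Set
open scoped ENNReal

namespace SubQuad

lemma ae_family {k : ℕ} {T : ℝ} (hT : 1 ≤ T) {ι : Type*} (F : ℕ → Finset ι)
    (f : ι → MvPolynomial (Fin k) ℤ) (s : ℕ → ℕ) {B : ℝ} (hB : 0 ≤ B)
    (hcard : ∀ N, ((F N).card : ℝ) ≤ Real.exp (B * N)) (hF0 : F 0 = ∅)
    (hf : ∀ N, ∀ i ∈ F N, f i ≠ 0 ∧ Sz T (f i) (s N))
    (hs : ∀ N, 1 ≤ N → (s N : ℝ) ≤ Real.exp (B * N)) :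
    ∀ᵐ x : Fin k → ℝ, x ∈ cube k T → ∃ K : ℝ, 0 ≤ K ∧ ∀ N, ∀ i ∈ F N,
      Real.exp (-(K * s N * (N : ℝ) ^ (1 - (1 / 2 : ℝ) ^ k))) ≤ |ev (f i) x| := by
  rw [ae_iff]
  refine le_antisymm (ENNReal.le_of_forall_pos_le_add fun ε hε _ => ?_) zero_le
  have hε' : (0 : ℝ) < ε := hε
  obtain ⟨K, c, G, hK, -, hGv, hE⟩ := thm_all hT k (ε / 2) (by positivity)
  set θ : ℝ := (1 / 2) ^ k with hθ
  have hθ0 : 0 ≤ θ := by positivity
  have hθ1 : θ ≤ 1 := pow_le_one₀ (by norm_num) (by norm_num)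
  obtain ⟨δ, hδ0, hδ1, hδ⟩ : ∃ δ : ℝ, 0 < δ ∧ δ ≤ 1 ∧ 2 * (K * δ) ≤ ε / 2 := by
    refine ⟨min 1 (ε / (4 * K)), by positivity, min_le_left _ _, ?_⟩
    have h1 : min 1 (ε / (4 * K)) ≤ ε / (4 * K) := min_le_right _ _
    rw [le_div_iff₀ (by positivity)] at h1
    linarith
  set j := -Real.log (δ / 2) with hj
  have hj0 : 0 ≤ j := neg_nonneg.2 (Real.log_nonpos (by positivity) (by linarith))
  set J := B + c * B + j + 1 with hJ
  have hcB : 0 ≤ c * B := by positivity
  have hJ1 : 1 ≤ J := by linarith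
  set A : ℕ → Set (Fin k → ℝ) := fun N =>
    ⋃ i ∈ F N, (G ∩ bad T (f i) (K * s N * (J * N) ^ (1 - θ))) with hA
  have hAv : volume (⋃ N, A N) ≤ ENNReal.ofReal (2 * (K * δ)) := by
    refine vol_iUnion_geom _ _ (by positivity) fun N => ?_
    rcases Nat.eq_zero_or_pos N with rfl | hN0
    · simp only [hA, hF0]
      simp
    have hN1 : (1 : ℝ) ≤ N := by exact_mod_cast hN0
    refine (vol_biUnion_le _ _ _ (b := K * s N ^ c * Real.exp (-(J * N)))
      fun i hi => ?_).trans (ENNReal.ofReal_le_ofReal ?_)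
    · exact hE _ _ (hf N i hi).1 (hf N i hi).2 _ (one_le_mul_of_one_le_of_one_le hJ1 hN1)
    · have h2 : (s N : ℝ) ^ c ≤ Real.exp (c * (B * N)) := by
        rw [Real.exp_nat_mul]
        gcongr
        exact hs N hN0
      have h3 : Real.exp (-(j * N)) ≤ δ * (1 / 2) ^ N := by
        rw [show -(j * N) = N * Real.log (δ / 2) by rw [hj]; ring, Real.exp_nat_mul,
          Real.exp_log (by positivity), div_eq_mul_one_div, mul_pow]
        gcongr
        exact pow_le_of_le_one hδ0.le hδ1 hN0.ne'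
      have h4 := hcard N
      calc _ ≤ Real.exp (B * N) * (K * Real.exp (c * (B * N)) * Real.exp (-(J * N))) := by gcongr
        _ = K * Real.exp (B * N + c * (B * N) - J * N) := by
            rw [sub_eq_add_neg, Real.exp_add, Real.exp_add]
            ring
        _ ≤ K * Real.exp (-(j * N)) := by
            gcongr
            rw [hJ]
            nlinarith
        _ ≤ K * (δ * (1 / 2) ^ N) := by gcongr
        _ = _ := by ring
  have hsub : {x : Fin k → ℝ | ¬(x ∈ cube k T → ∃ K : ℝ, 0 ≤ K ∧ ∀ N, ∀ i ∈ F N,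
      Real.exp (-(K * s N * (N : ℝ) ^ (1 - θ))) ≤ |ev (f i) x|)} ⊆
      (cube k T \ G) ∪ ⋃ N, A N := by
    intro x hx
    by_contra hno
    refine hx fun hxc => ⟨K * J, by positivity, fun N i hi => ?_⟩
    have hxG : x ∈ G := by
      by_contra h
      exact hno (Or.inl ⟨hxc, h⟩)
    have h1 : Real.exp (-(K * s N * (J * N) ^ (1 - θ))) ≤ |ev (f i) x| := by
      by_contra h
      refine hno (Or.inr (mem_iUnion.2 ⟨N, ?_⟩))
      simp only [hA, mem_iUnion]
      exact ⟨i, hi, hxG, hxc, not_le.1 h⟩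
    refine le_trans (Real.exp_le_exp.2 (neg_le_neg ?_)) h1
    have h2 : J ^ (1 - θ) ≤ J := by
      conv_rhs => rw [← Real.rpow_one J]
      exact Real.rpow_le_rpow_of_exponent_le hJ1 (by linarith)
    rw [Real.mul_rpow (by linarith) (Nat.cast_nonneg _)]
    calc K * s N * (J ^ (1 - θ) * (N : ℝ) ^ (1 - θ)) ≤ K * s N * (J * (N : ℝ) ^ (1 - θ)) := by
          gcongr
      _ = _ := by ring
  calc _ ≤ volume (cube k T \ G) + volume (⋃ N, A N) :=
        (measure_mono hsub).trans (measure_union_le _ _)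
    _ ≤ ENNReal.ofReal (ε / 2) + ENNReal.ofReal (2 * (K * δ)) := by gcongr
    _ ≤ _ := by
        rw [← ENNReal.ofReal_add (by positivity) (by positivity), zero_add,
          ← ENNReal.ofReal_coe_nnreal]
        exact ENNReal.ofReal_le_ofReal (by linarith)

end SubQuad
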