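import Mathlib

/-! Spectral facts for an operator that is symmetric for a pulled back inner product. -/

namespace Pool.Agent.P.MP_923088_al

open Module

variable {E F : Type*} [AddCommGroup E] [Module ℂ E] [NormedAddCommGroup F]
  [InnerProductSpace ℂ F]

lemma exists_eigenbasis [FiniteDimensional ℂ E] (ι : E →ₗ[ℂ] F) (hι : Function.Injective ι)
    (T : E →ₗ[ℂ] E) (hT : ∀ x y, inner ℂ (ι (T x)) (ι y) = inner ℂ (ι x) (ι (T y))) :
    ∃ (b : Basis (Fin (finrank ℂ E)) ℂ E) (μ : Fin (finrank ℂ E) → ℝ),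
      ∀ i, T (b i) = (μ i : ℂ) • b i := by
  let _ : NormedAddCommGroup E := NormedAddCommGroup.induced E F ι hι
  let _ : InnerProductSpace ℂ E := InnerProductSpace.induced ι
  have hs : T.IsSymmetric := hT
  exact ⟨(hs.eigenvectorBasis rfl).toBasis, hs.eigenvalues rfl, fun i => by
    rw [OrthonormalBasis.coe_toBasis]; exact hs.apply_eigenvectorBasis rfl i⟩

lemma trace_pow_eq {n : ℕ} (b : Basis (Fin n) ℂ E) (μ : Fin n → ℂ) (T : E →ₗ[ℂ] E)
    (h : ∀ i, T (b i) = μ i • b i) (j : ℕ) : LinearMap.trace ℂ E (T ^ j) = ∑ i, μ i ^ j := by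
  have e : ∀ i, (T ^ j) (b i) = μ i ^ j • b i := by
    intro i
    induction j with
    | zero => simp
    | succ j ih => rw [pow_succ', Module.End.mul_apply, ih, map_smul, h, smul_smul, pow_succ]
  rw [LinearMap.trace_eq_matrix_trace ℂ b, Matrix.trace]
  apply Finset.sum_congr rfl
  intro i _
  rw [Matrix.diag_apply, LinearMap.toMatrix_apply, e, map_smul, Basis.repr_self]
  simp

lemma norm_le_of_mem (ι : E →ₗ[ℂ] F) (hι : Function.Injective ι)
    (T : E →ₗ[ℂ] E) (hT : ∀ x y, inner ℂ (ι (T x)) (ι y) = inner ℂ (ι x) (ι (T y)))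
    {q : ℝ} (hq : 0 ≤ q) {x : E}
    (hx : x ∈ ⨆ μ : {μ : ℂ // ‖μ‖ ≤ q}, Module.End.eigenspace T μ.1) :
    ‖ι (T x)‖ ≤ q * ‖ι x‖ := by
  classical
  let _ : NormedAddCommGroup E := NormedAddCommGroup.induced E F ι hι
  let _ : InnerProductSpace ℂ E := InnerProductSpace.induced ι
  have hs : T.IsSymmetric := hT
  have ho := hs.orthogonalFamily_eigenspaces.comp
    (f := fun μ : {μ : ℂ // ‖μ‖ ≤ q} => μ.1) Subtype.val_injective
  obtain ⟨f, hf, rfl⟩ := (Submodule.mem_iSup_iff_exists_finsupp _ _).mp hx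
  change ‖T (f.sum fun _ xi => xi)‖ ≤ q * ‖f.sum fun _ xi => xi‖
  have e1 := ho.norm_sum (fun μ => ⟨f μ, hf μ⟩) f.support
  have e2 := ho.norm_sum (fun μ => μ.1 • ⟨f μ, hf μ⟩) f.support
  have t1 : T (f.sum fun _ xi => xi) = ∑ μ ∈ f.support, μ.1 • f μ := by
    rw [Finsupp.sum, map_sum]
    apply Finset.sum_congr rfl
    intro μ _
    exact Module.End.mem_eigenspace_iff.mp (hf μ)
  have e1' : ‖f.sum fun _ xi => xi‖ ^ 2 = ∑ μ ∈ f.support, ‖f μ‖ ^ 2 := e1
  have e2' : ‖∑ μ ∈ f.support, μ.1 • f μ‖ ^ 2 = ∑ μ ∈ f.support, ‖μ.1 • f μ‖ ^ 2 := e2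
  rw [t1]
  apply (pow_le_pow_iff_left₀ (norm_nonneg _) (mul_nonneg hq (norm_nonneg _)) two_ne_zero).mp
  rw [mul_pow, e1', e2', Finset.mul_sum]
  apply Finset.sum_le_sum
  intro μ _
  rw [norm_smul, mul_pow]
  have := μ.2
  gcongr

lemma eq_of_avg {I : Type*} (s : Finset I) (v : I → F) (x : F) (μ : ℂ) (hμ : 1 ≤ ‖μ‖)
    (hv : ∀ i ∈ s, ‖v i‖ = ‖x‖) (h : ∑ i ∈ s, v i = (s.card : ℂ) • μ • x) :
    ∀ i ∈ s, v i = μ • x := by
  have e : ∑ i ∈ s, ‖v i - μ • x‖ ^ 2 ≤ 0 := by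
    have a1 : ∀ i ∈ s, ‖v i - μ • x‖ ^ 2
        = ‖x‖ ^ 2 - 2 * (inner ℂ (v i) (μ • x)).re + ‖μ • x‖ ^ 2 := by
      intro i hi
      rw [@norm_sub_sq ℂ, hv i hi]; rfl
    rw [Finset.sum_congr rfl a1, Finset.sum_add_distrib, Finset.sum_sub_distrib,
      ← Finset.mul_sum, ← Complex.re_sum, ← sum_inner, h, inner_smul_left,
      inner_self_eq_norm_sq_to_K]
    simp only [Finset.sum_const, nsmul_eq_mul, map_natCast, Complex.coe_algebraMap]
    rw [← Complex.ofReal_pow, ← Complex.ofReal_natCast, ← Complex.ofReal_mul, Complex.ofReal_re]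
    have a2 : ‖x‖ ^ 2 ≤ ‖μ • x‖ ^ 2 := by
      rw [norm_smul]
      have := norm_nonneg x
      gcongr
      exact le_mul_of_one_le_left this hμ
    have a3 : (0 : ℝ) ≤ s.card := Nat.cast_nonneg _
    nlinarith
  intro i hi
  have := (Finset.sum_eq_zero_iff_of_nonneg (fun i _ => sq_nonneg ‖v i - μ • x‖)).mp
    (le_antisymm e (Finset.sum_nonneg fun i _ => sq_nonneg _)) i hi
  rwa [sq_eq_zero_iff, norm_eq_zero, sub_eq_zero] at this

lemma coeff_mem {A : Type*} [CommRing A] [Algebra ℂ A] (W : Submodule ℂ A) (p : Polynomial A)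
    (h : ∀ t : ℂ, p.eval (algebraMap ℂ A t) ∈ W) (n : ℕ) : p.coeff n ∈ W := by
  rw [← Subspace.forall_mem_dualAnnihilator_apply_eq_zero_iff]
  intro φ hφ
  rw [Submodule.mem_dualAnnihilator] at hφ
  have e : (∑ j ∈ p.support, Polynomial.monomial j (φ (p.coeff j))) = 0 := by
    apply Polynomial.funext
    intro t
    rw [Polynomial.eval_zero, ← hφ _ (h t), Polynomial.eval_finsetSum, Polynomial.eval_eq_sum,
      Polynomial.sum_def, map_sum]
    apply Finset.sum_congr rfl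
    intro j _
    rw [Polynomial.eval_monomial, ← map_pow, mul_comm (p.coeff j), ← Algebra.smul_def, map_smul,
      smul_eq_mul, mul_comm]
  have e2 := congrArg (fun r => Polynomial.coeff r n) e
  simp only [Polynomial.finsetSum_coeff, Polynomial.coeff_monomial, Polynomial.coeff_zero,
    Finset.sum_ite_eq'] at e2
  split_ifs at e2 with hn
  · exact e2
  · rw [Polynomial.notMem_support_iff.mp hn, map_zero]

end Pool.Agent.P.MP_923088_al
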