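import Pool.Agent.P.MP_923088_al.Rep
import Pool.Agent.P.MP_923088_al.Spec

/-! Polynomials of degree at most `D` are sums of right translates of homogeneous polynomials in
the first column of degree at most `D`. -/

namespace Pool.Agent.P.MP_923088_al

open ComplexConjugate Module

/-- The span of the right translates of the spaces `V k` with `k ≤ D`. -/
noncomputable def W (D : ℕ) : Submodule ℂ CF :=
  Submodule.span ℂ {F | ∃ k, k ≤ D ∧ ∃ g : SU2, ∃ f ∈ V k, F = Rt g f}

lemma W_mono {D D' : ℕ} (h : D ≤ D') : W D ≤ W D' := by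
  apply Submodule.span_mono
  rintro F ⟨k, hk, g, f, hf, rfl⟩
  exact ⟨k, hk.trans h, g, f, hf, rfl⟩

lemma Rt_Rt (g h : SU2) (f : CF) : Rt h (Rt g f) = Rt (h * g) f := by
  ext x; rw [Rt_apply, Rt_apply, Rt_apply, mul_assoc]

lemma Rt_one (f : CF) : Rt 1 f = f := by
  ext x; rw [Rt_apply, mul_one]

lemma Rt_mem_W (h : SU2) {D : ℕ} {F : CF} (hF : F ∈ W D) : Rt h F ∈ W D := by
  induction hF using Submodule.span_induction with
  | mem F hF =>
    obtain ⟨k, hk, g, f, hf, rfl⟩ := hF
    exact Submodule.subset_span ⟨k, hk, h * g, f, hf, Rt_Rt g h f⟩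
  | zero => rw [map_zero]; exact zero_mem _
  | add f g _ _ hf hg => rw [map_add]; exact add_mem hf hg
  | smul c f _ hf => rw [map_smul]; exact Submodule.smul_mem _ _ hf

lemma V_mem_W {k D : ℕ} (hk : k ≤ D) {f : CF} (hf : f ∈ V k) : f ∈ W D :=
  Submodule.subset_span ⟨k, hk, 1, f, hf, (Rt_one f).symm⟩

lemma colpow_mem (t : ℂ) (i j : ℕ) :
    (ent 0 0 + t • ent 0 1) ^ i * (ent 1 0 + t • ent 1 1) ^ j ∈ W (i + j) := by
  have p0 : 0 < 1 + Complex.normSq t := by linarith [Complex.normSq_nonneg t]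
  set r : ℝ := Real.sqrt (1 + Complex.normSq t) with hr
  have r0 : 0 < r := Real.sqrt_pos.mpr p0
  have r2 : (r : ℂ) * r = 1 + t * conj t := by
    rw [Complex.mul_conj, ← Complex.ofReal_mul, hr, Real.mul_self_sqrt p0.le]
    push_cast; rfl
  have rc : (r : ℂ) ≠ 0 := by exact_mod_cast r0.ne'
  have hu : 1 / (r : ℂ) * conj (1 / (r : ℂ)) + t / r * conj (t / r) = 1 := by
    rw [map_div₀, map_div₀, Complex.conj_ofReal, map_one]
    field_simp
    linear_combination -r2
  have e : ∀ a : Fin 2, ent a 0 + t • ent a 1 = (r : ℂ) • Rt (mkU _ _ hu) (ent a 0) := by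
    intro a
    rw [Rt_ent, mkU_00, mkU_10, smul_add, smul_smul, smul_smul, mul_one_div_cancel rc, one_smul,
      mul_div_cancel₀ t rc]
  rw [e, e, smul_pow, smul_pow, smul_mul_smul_comm, ← map_pow, ← map_pow, ← map_mul]
  exact Submodule.smul_mem _ _ (Rt_mem_W _ (V_mem_W le_rfl (mono_mem rfl)))

lemma deriv_mem (i j : ℕ) :
    (i : ℂ) • (ent 0 0 ^ (i - 1) * ent 0 1 * ent 1 0 ^ j)
      + (j : ℂ) • (ent 0 0 ^ i * ent 1 0 ^ (j - 1) * ent 1 1) ∈ W (i + j) := by
  have h := coeff_mem (W (i + j))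
    ((Polynomial.C (ent 0 0) + Polynomial.X * Polynomial.C (ent 0 1)) ^ i
      * (Polynomial.C (ent 1 0) + Polynomial.X * Polynomial.C (ent 1 1)) ^ j) (by
      intro t
      have := colpow_mem t i j
      simpa only [Polynomial.eval_mul, Polynomial.eval_pow, Polynomial.eval_add,
        Polynomial.eval_C, Polynomial.eval_X, Algebra.smul_def] using this) 1
  have e := Polynomial.coeff_derivative
    ((Polynomial.C (ent 0 0) + Polynomial.X * Polynomial.C (ent 0 1)) ^ i
      * (Polynomial.C (ent 1 0) + Polynomial.X * Polynomial.C (ent 1 1)) ^ j) 0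
  rw [Nat.cast_zero, zero_add, zero_add, mul_one, Polynomial.coeff_zero_eq_eval_zero] at e
  rw [← e] at h
  convert h using 1
  simp only [Polynomial.derivative_mul, Polynomial.derivative_pow, Polynomial.derivative_add,
    Polynomial.derivative_C, Polynomial.derivative_X, Polynomial.eval_mul, Polynomial.eval_pow,
    Polynomial.eval_add, Polynomial.eval_C, Polynomial.eval_X, Polynomial.eval_one,
    Polynomial.eval_zero, Algebra.smul_def, map_natCast, Polynomial.eval_natCast]
  ring

lemma det_ent : ent 0 0 * ent 1 1 - ent 0 1 * ent 1 0 = 1 := by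
  ext x
  exact det_entries x

lemma mono_mul_01 (a b : ℕ) : ent 0 0 ^ a * ent 1 0 ^ b * ent 0 1 ∈ W (a + b + 1) := by
  have h1 := deriv_mem (a + 1) b
  have h2 : (b : ℂ) • (ent 0 0 ^ a * ent 1 0 ^ (b - 1)) ∈ W (a + b + 1) :=
    Submodule.smul_mem _ _ (V_mem_W (by omega) (mono_mem rfl))
  rw [show a + 1 + b = a + b + 1 by omega] at h1
  have c0 : ((a : ℂ) + b + 1) ≠ 0 := by exact_mod_cast (by omega : a + b + 1 ≠ 0)
  rw [← Submodule.smul_mem_iff _ c0]
  convert sub_mem h1 h2 using 1
  have d := det_ent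
  rcases b with _ | b
  · simp only [Algebra.smul_def, map_natCast, map_add, map_one, Nat.add_sub_cancel]
    push_cast; ring
  · simp only [Algebra.smul_def, map_natCast, map_add, map_one, Nat.add_sub_cancel]
    push_cast
    linear_combination (-((b : CF) + 1) * ent 0 0 ^ a * ent 1 0 ^ b) * d

lemma mono_mul_11 (a b : ℕ) : ent 0 0 ^ a * ent 1 0 ^ b * ent 1 1 ∈ W (a + b + 1) := by
  have h1 := deriv_mem a (b + 1)
  have h2 : (a : ℂ) • (ent 0 0 ^ (a - 1) * ent 1 0 ^ b) ∈ W (a + b + 1) :=
    Submodule.smul_mem _ _ (V_mem_W (by omega) (mono_mem rfl))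
  rw [← add_assoc] at h1
  have c0 : ((a : ℂ) + b + 1) ≠ 0 := by exact_mod_cast (by omega : a + b + 1 ≠ 0)
  rw [← Submodule.smul_mem_iff _ c0]
  convert add_mem h1 h2 using 1
  have d := det_ent
  rcases a with _ | a
  · simp only [Algebra.smul_def, map_natCast, map_add, map_one, Nat.add_sub_cancel]
    push_cast; ring
  · simp only [Algebra.smul_def, map_natCast, map_add, map_one, Nat.add_sub_cancel]
    push_cast
    linear_combination (((a : CF) + 1) * ent 0 0 ^ a * ent 1 0 ^ b) * d

lemma V_mul_ent {k : ℕ} {f : CF} (hf : f ∈ V k) (i j : Fin 2) : f * ent i j ∈ W (k + 1) := by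
  induction hf using Submodule.span_induction with
  | mem f hf =>
    obtain ⟨a, rfl⟩ := hf
    have ha := a.2
    have e : k + 1 = (a : ℕ) + (k - a) + 1 := by omega
    unfold mono
    fin_cases i <;> fin_cases j
    · have : ent 0 0 ^ ((a : ℕ) + 1) * ent 1 0 ^ (k - a) ∈ W (k + 1) :=
        V_mem_W le_rfl (mono_mem (by omega))
      convert this using 1
      simp only [Fin.zero_eta]; ring
    · have := mono_mul_01 a (k - a)
      rw [← e] at this
      exact this
    · have : ent 0 0 ^ (a : ℕ) * ent 1 0 ^ (k - a + 1) ∈ W (k + 1) :=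
        V_mem_W le_rfl (mono_mem (by omega))
      convert this using 1
      simp only [Fin.zero_eta, Fin.mk_one]; ring
    · have := mono_mul_11 a (k - a)
      rw [← e] at this
      exact this
  | zero => rw [zero_mul]; exact zero_mem _
  | add f g _ _ hf hg => rw [add_mul]; exact add_mem hf hg
  | smul c f _ hf => rw [smul_mul_assoc]; exact Submodule.smul_mem _ _ hf

lemma W_mul_ent {D : ℕ} {F : CF} (hF : F ∈ W D) (i j : Fin 2) : F * ent i j ∈ W (D + 1) := by
  induction hF using Submodule.span_induction with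
  | mem F hF =>
    obtain ⟨k, hk, g, f, hf, rfl⟩ := hF
    have e : Rt g f * ent i j = Rt g (f * Rt g⁻¹ (ent i j)) := by
      rw [map_mul, Rt_Rt, mul_inv_cancel, Rt_one]
    rw [e, Rt_ent, mul_add, mul_smul_comm, mul_smul_comm]
    apply Rt_mem_W
    apply W_mono (Nat.succ_le_succ hk)
    exact add_mem (Submodule.smul_mem _ _ (V_mul_ent hf _ _))
      (Submodule.smul_mem _ _ (V_mul_ent hf _ _))
  | zero => rw [zero_mul]; exact zero_mem _
  | add f g _ _ hf hg => rw [add_mul]; exact add_mem hf hg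
  | smul c f _ hf => rw [smul_mul_assoc]; exact Submodule.smul_mem _ _ hf

lemma W_mul_pow {D : ℕ} {F : CF} (hF : F ∈ W D) (i j : Fin 2) (n : ℕ) :
    F * ent i j ^ n ∈ W (D + n) := by
  induction n with
  | zero => simpa using hF
  | succ n ih => rw [pow_succ, ← mul_assoc]; exact W_mul_ent ih i j

lemma prod_mem_W (d : Fin 2 × Fin 2 → ℕ) (t : Finset (Fin 2 × Fin 2)) :
    ∏ ij ∈ t, ent ij.1 ij.2 ^ d ij ∈ W (∑ ij ∈ t, d ij) := by
  induction t using Finset.induction_on with
  | empty => simpa using V_mem_W le_rfl one_mem_V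
  | insert a t ha ih =>
    rw [Finset.prod_insert ha, Finset.sum_insert ha, mul_comm, add_comm]
    exact W_mul_pow ih _ _ _

/-- A polynomial in the entries as a continuous function. -/
noncomputable def polyC (p : MvPolynomial (Fin 2 × Fin 2) ℂ) : CF :=
  ∑ d ∈ p.support, p.coeff d • ∏ ij ∈ d.support, ent ij.1 ij.2 ^ d ij

lemma polyC_apply (p : MvPolynomial (Fin 2 × Fin 2) ℂ) (x : SU2) : polyC p x = polyFun p x := by
  unfold polyC polyFun
  rw [MvPolynomial.eval_eq, ContinuousMap.sum_apply]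
  apply Finset.sum_congr rfl
  intro d _
  rw [ContinuousMap.smul_apply, ContinuousMap.prod_apply, smul_eq_mul]
  rfl

lemma polyC_mem {D : ℕ} {p : MvPolynomial (Fin 2 × Fin 2) ℂ} (hp : p.totalDegree ≤ D) :
    polyC p ∈ W D := by
  apply Submodule.sum_mem
  intro d hd
  apply Submodule.smul_mem
  exact W_mono ((MvPolynomial.le_totalDegree hd).trans hp) (prod_mem_W d d.support)

end Pool.Agent.P.MP_923088_al
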