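import Pool.Agent.P.MP_923088_al.Walk
import Pool.Agent.P.MP_923088_al.Span

/-! From the homogeneous pieces to all polynomials of bounded degree. -/

namespace Pool.Agent.P.MP_923088_al

open ComplexConjugate Module MeasureTheory

lemma Tp_Rt (S : Finset SU2) (g : SU2) (f : CF) : Tp S (Rt g f) = Rt g (Tp S f) := by
  ext x
  rw [Rt_apply, Tp_apply, Tp_apply]
  simp only [Rt_apply, mul_assoc]

lemma nonempty_of_dense {S : Finset SU2}
    (hS : Dense ((Subgroup.closure (S : Set SU2)) : Set SU2)) : S.Nonempty := by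
  rw [Finset.nonempty_iff_ne_empty]
  rintro rfl
  rw [Finset.coe_empty, Subgroup.closure_empty, Subgroup.coe_bot] at hS
  have h1 : (-1 : ℂ) * conj (-1 : ℂ) = 1 := by simp
  have h2 := hS (dg (-1) h1)
  rw [closure_singleton, Set.mem_singleton_iff] at h2
  have h3 : (dg (-1) h1).1 0 0 = (1 : SU2).1 0 0 := by rw [h2]
  rw [dg_00] at h3
  have h4 : (1 : SU2).1 0 0 = 1 := rfl
  rw [h4] at h3
  norm_num at h3

lemma Tp_one {S : Finset SU2} (hS : S.Nonempty) : Tp S 1 = 1 := by
  have c0 : (S.card : ℂ) ≠ 0 := by exact_mod_cast hS.card_pos.ne'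
  ext x
  rw [Tp_apply]
  simp [c0]

lemma W_le {S : Finset SU2} {D : ℕ} {I : Type} (μ : I → ℂ)
    (h : ∀ k, 1 ≤ k → k ≤ D → V k ≤ ⨆ i : I, Module.End.eigenspace (Tp S) (μ i)) :
    W D ≤ Submodule.span ℂ {(1 : CF)} ⊔ ⨆ i : I, Module.End.eigenspace (Tp S) (μ i) := by
  unfold W
  rw [Submodule.span_le]
  rintro F ⟨k, hk, g, f, hf, rfl⟩
  rcases Nat.eq_zero_or_pos k with rfl | k0
  · apply Submodule.mem_sup_left
    have e : Set.range (mono 0) = {1} := by
      ext F
      simp only [Set.mem_range, Set.mem_singleton_iff]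
      constructor
      · rintro ⟨i, rfl⟩
        fin_cases i
        simp [mono]
      · rintro rfl
        exact ⟨0, by simp [mono]⟩
    unfold V at hf
    rw [e, Submodule.mem_span_singleton] at hf
    obtain ⟨a, rfl⟩ := hf
    rw [map_smul, map_one]
    exact Submodule.smul_mem _ _ (Submodule.mem_span_singleton_self _)
  · apply Submodule.mem_sup_right
    have hz := h k k0 hk hf
    clear hf
    induction hz using Submodule.iSup_induction' with
    | mem i f hf =>
      apply Submodule.mem_iSup_of_mem i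
      rw [Module.End.mem_eigenspace_iff] at hf ⊢
      rw [Tp_Rt, hf, map_smul]
    | zero => rw [map_zero]; exact zero_mem _
    | add f g _ _ hf hg => rw [map_add]; exact add_mem hf hg

variable [MeasurableSpace SU2] [BorelSpace SU2] (m : Measure SU2) [m.IsHaarMeasure]
  [IsProbabilityMeasure m]

theorem quasi_gap {S : Finset SU2} (hinv : ∀ s ∈ S, s⁻¹ ∈ S)
    (hS : Dense ((Subgroup.closure (S : Set SU2)) : Set SU2)) :
    ∃ c : ℝ, 0 < c ∧ ∀ D : ℕ, ∀ F ∈ W D, ∫ x, F x ∂m = 0 →
      ‖io m (Tp S F)‖ ≤ (1 - c / Real.log (D + 2) ^ (131 / 100 : ℝ)) * ‖io m F‖ := by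
  obtain ⟨c, c0, hc⟩ := exists_eig m hinv hS
  refine ⟨c, c0, fun D F hF h0 => ?_⟩
  have q0 := (hc D 1 le_rfl (by omega)).1
  have q1 : 1 - c / Real.log (D + 2) ^ (131 / 100 : ℝ) < 1 := by
    have : (0 : ℝ) ≤ D := Nat.cast_nonneg D
    have := div_pos c0 (Real.rpow_pos_of_pos (Real.log_pos (by linarith : (1 : ℝ) < D + 2))
      (131 / 100 : ℝ))
    linarith
  apply norm_le_of_mem (io m) (io_inj m) (Tp S) (Tp_symm m hinv) q0
  have h1 := W_le (fun μ : {μ : ℂ // ‖μ‖ ≤ 1 - c / Real.log (D + 2) ^ (131 / 100 : ℝ)} => μ.1)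
    (fun k k1 k2 => (hc D k k1 (by omega)).2) hF
  obtain ⟨y, hy, z, hz, rfl⟩ := Submodule.mem_sup.mp h1
  obtain ⟨a, rfl⟩ := Submodule.mem_span_singleton.mp hy
  have i0 : inner ℂ (io m 1) (io m z) = 0 := by
    clear h0 h1 hF
    induction hz using Submodule.iSup_induction' with
    | mem μ f hf =>
      rw [Module.End.mem_eigenspace_iff] at hf
      have s := Tp_symm m hinv 1 f
      rw [Tp_one (nonempty_of_dense hS), hf, map_smul, inner_smul_right] at s
      by_contra hne
      have e : μ.1 = 1 := mul_right_cancel₀ hne (by rw [← s, one_mul])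
      have := μ.2
      rw [e, norm_one] at this
      linarith
    | zero => simp
    | add f g _ _ hf hg => rw [map_add, inner_add_right, hf, hg, add_zero]
  have i1 : inner ℂ (io m 1) (io m (a • 1 + z)) = 0 := by
    rw [inner_io, ← h0]
    simp
  have i2 : inner ℂ (io m 1) (io m 1) = 1 := by
    rw [inner_io]
    simp
  rw [map_add, map_smul, inner_add_right, inner_smul_right, i0, i2, mul_one, add_zero] at i1
  rw [i1, zero_smul, zero_add]
  exact hz

end Pool.Agent.P.MP_923088_al
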