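import Pool.Agent.P.MP_923088_al.Disc

/-! The metric theorem for integer polynomials, by induction on the number of variables. -/

open MeasureTheory Set Polynomial
open scoped ENNReal

namespace SubQuad

variable {k : ℕ}

/-- Points of the cube where `f` is smaller than `exp (-r)`. -/
def bad (T : ℝ) (f : MvPolynomial (Fin k) ℤ) (r : ℝ) : Set (Fin k → ℝ) :=
  {x | x ∈ cube k T ∧ |ev f x| < Real.exp (-r)}

lemma measurableSet_bad (T : ℝ) (f : MvPolynomial (Fin k) ℤ) (r : ℝ) :
    MeasurableSet (bad T f r) :=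
  (measurableSet_cube k T).inter
    (measurableSet_lt (continuous_ev f).abs.measurable measurable_const)

/-- The estimate on a good set `G`. -/
def Est (T θ K : ℝ) (c : ℕ) (G : Set (Fin k → ℝ)) : Prop :=
  ∀ (f : MvPolynomial (Fin k) ℤ) (s : ℕ), f ≠ 0 → Sz T f s → ∀ u : ℝ, 1 ≤ u →
    volume (G ∩ bad T f (K * s * u ^ (1 - θ))) ≤ ENNReal.ofReal (K * s ^ c * Real.exp (-u))

/-- The metric theorem in `k` variables with gain `θ`. -/
def Thm (k : ℕ) (T θ : ℝ) : Prop :=
  ∀ η : ℝ, 0 < η → ∃ (K : ℝ) (c : ℕ) (G : Set (Fin k → ℝ)), 1 ≤ K ∧ MeasurableSet G ∧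
    volume (cube k T \ G) ≤ ENNReal.ofReal η ∧ Est T θ K c G

lemma thm_zero (T : ℝ) : Thm 0 T 1 := by
  intro η _
  refine ⟨1, 0, univ, le_rfl, MeasurableSet.univ, by simp, fun f s hf _ u _ => ?_⟩
  have : bad T f (1 * s * u ^ (1 - 1 : ℝ)) = ∅ := by
    ext x
    simp only [bad, mem_ofPred_eq, mem_empty_iff_false, iff_false, not_and, not_lt]
    intro _
    have h1 := MvPolynomial.eq_C_of_isEmpty f
    have hc : MvPolynomial.coeff 0 f ≠ 0 := fun h => hf (by rw [h1, h, map_zero])
    have h2 : (1 : ℝ) ≤ |ev f x| := by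
      rw [h1, ev_C, ← Int.cast_abs]
      exact_mod_cast Int.one_le_abs hc
    refine le_trans (Real.exp_le_one_iff.2 ?_) h2
    simp
  rw [this]
  simp

/-- The cylinder over `G`. -/
def cyl (G : Set (Fin k → ℝ)) : Set (Fin (k + 1) → ℝ) := {y | Fin.tail y ∈ G}

lemma measurableSet_cyl {G : Set (Fin k → ℝ)} (hG : MeasurableSet G) : MeasurableSet (cyl G) := by
  have : Measurable (fun y : Fin (k + 1) → ℝ => (Fin.tail y : Fin k → ℝ)) :=
    measurable_pi_lambda _ fun i => measurable_pi_apply i.succ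
  exact this hG

lemma irr_est {T θ K : ℝ} {c : ℕ} {G : Set (Fin k → ℝ)} (hT : 1 ≤ T) (hθ0 : 0 ≤ θ) (hθ1 : θ ≤ 1)
    (hK : 1 ≤ K) (hG : MeasurableSet G) (h : Est T θ K c G) :
    ∃ K1 : ℝ, 1 ≤ K1 ∧ ∀ (P : MvPolynomial (Fin (k + 1)) ℤ) (s : ℕ), Irreducible P → Sz T P s →
      ∀ u : ℝ, 1 ≤ u → volume (cyl G ∩ bad T P (u + K1 * s * u ^ (1 - θ / 2))) ≤
        ENNReal.ofReal (K1 * s ^ (2 * c + 1) * Real.exp (-u)) := by
  have hA : 0 ≤ 2 * T * K * 7 ^ c := by positivity
  have hB : 0 ≤ 2 * (2 * T) ^ k := by positivity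
  refine ⟨12 * K + 2 * T * K * 7 ^ c + 2 * (2 * T) ^ k, by linarith, fun P s hP hs u hu => ?_⟩
  set K1 := 12 * K + 2 * T * K * 7 ^ c + 2 * (2 * T) ^ k with hK1
  have hs1 : (1 : ℝ) ≤ s := by exact_mod_cast hs.one
  set v := u ^ (1 - θ) with hv
  set w := u ^ (1 - θ / 2) with hw
  have hv1 : 1 ≤ v := Real.one_le_rpow hu (by linarith)
  have hvw : v ≤ w := Real.rpow_le_rpow_of_exponent_le hu (by linarith)
  have huv : u * v = w ^ 2 := by
    rw [hv, hw, ← Real.rpow_natCast, ← Real.rpow_mul (by linarith),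
      ← Real.rpow_one_add' (by linarith) (by linarith)]
    congr 1
    push_cast
    ring
  have hm : MeasurableSet (cyl G ∩ bad T P (u + K1 * s * w)) :=
    (measurableSet_cyl hG).inter (measurableSet_bad _ _ _)
  have hE := Real.exp_pos (-u)
  rcases Nat.eq_zero_or_pos (up P).natDegree with he | he
  · obtain ⟨f, hf, hfs, hfe⟩ := const_case hT hP.ne_zero hs he
    have h1 := fubini_le (by linarith) hm (fun x hx => hx.2.1) (G ∩ bad T f (K * s * v)) 0 (by
      intro x hx hxA
      have : {t : ℝ | (Fin.cons t x : Fin (k + 1) → ℝ) ∈ cyl G ∩ bad T P (u + K1 * s * w)} =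
          ∅ := by
        ext t
        simp only [mem_ofPred_eq, mem_empty_iff_false, iff_false]
        rintro ⟨h2, -, h3⟩
        refine hxA ⟨by simpa [cyl] using h2, hx, ?_⟩
        rw [hfe] at h3
        refine h3.trans_le (Real.exp_le_exp.2 ?_)
        have h4 : K * s * v ≤ K1 * s * w := by
          gcongr
          linarith
        linarith
      rw [this, measure_empty])
    rw [mul_zero, add_zero] at h1
    refine h1.trans ?_
    calc ENNReal.ofReal (2 * T) * volume (G ∩ bad T f (K * s * v))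
        ≤ ENNReal.ofReal (2 * T) * ENNReal.ofReal (K * s ^ c * Real.exp (-u)) := by
          gcongr
          exact h f s hf hfs u hu
      _ ≤ _ := by
          rw [← ENNReal.ofReal_mul (by linarith)]
          refine ENNReal.ofReal_le_ofReal ?_
          have h2 : (s : ℝ) ^ c ≤ s ^ (2 * c + 1) := pow_le_pow_right₀ hs1 (by omega)
          have h3 : 2 * T * K ≤ K1 := by
            have : 2 * T * K ≤ 2 * T * K * 7 ^ c :=
              le_mul_of_one_le_right (by positivity) (one_le_pow₀ (by norm_num))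
            linarith
          calc 2 * T * (K * s ^ c * Real.exp (-u)) = 2 * T * K * s ^ c * Real.exp (-u) := by ring
            _ ≤ _ := by gcongr
  · set e := (up P).natDegree with hedef
    have he1 : (1 : ℝ) ≤ e := by exact_mod_cast he
    have hes : (e : ℝ) ≤ s := hs.e_le
    have hel : e * Real.log (4 * e + 1) ≤ 2 * s := hs.elog_le
    set Λ := K * ((7 * e * s : ℕ) : ℝ) * v with hΛ
    have hΛ' : Λ = 7 * K * e * s * v := by rw [hΛ]; push_cast; ring
    have hΛ0 : 0 ≤ Λ := by positivity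
    have hR : u + √(u * (Λ + e ^ 2 + 2 * e * (s + e * Real.log (4 * e + 1)))) + Λ / e + e ≤
        u + K1 * s * w := by
      have h1 : Λ + e ^ 2 + 2 * e * (s + e * Real.log (4 * e + 1)) ≤ 16 * K ^ 2 * s ^ 2 * v := by
        have h2 : (e : ℝ) ^ 2 + 2 * e * (s + e * Real.log (4 * e + 1)) ≤ 7 * s ^ 2 := by nlinarith
        have h3 : Λ ≤ 7 * K * s * s * v := by rw [hΛ']; gcongr
        have h4 : 7 * (s : ℝ) ^ 2 ≤ 7 * K ^ 2 * s ^ 2 * v := by
          have : (1 : ℝ) ≤ K ^ 2 * v := one_le_mul_of_one_le_of_one_le (one_le_pow₀ hK) hv1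
          nlinarith [sq_nonneg (s : ℝ)]
        have h5 : 7 * K * s * s * v ≤ 7 * K ^ 2 * s ^ 2 * v := by
          have : K ≤ K ^ 2 := by nlinarith
          calc 7 * K * s * s * v = 7 * K * s ^ 2 * v := by ring
            _ ≤ _ := by gcongr
        have h6 : 0 ≤ K ^ 2 * s ^ 2 * v := by positivity
        linarith
      have h2 : √(u * (Λ + e ^ 2 + 2 * e * (s + e * Real.log (4 * e + 1)))) ≤ 4 * K * s * w := by
        refine Real.sqrt_le_iff.2 ⟨by positivity, ?_⟩
        calc _ ≤ u * (16 * K ^ 2 * s ^ 2 * v) := by gcongr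
          _ = 16 * K ^ 2 * s ^ 2 * (u * v) := by ring
          _ = _ := by rw [huv]; ring
      have h3 : Λ / e ≤ 7 * K * s * w := by
        rw [div_le_iff₀ (by linarith), hΛ']
        calc 7 * K * e * s * v ≤ 7 * K * e * s * w := by gcongr
          _ = _ := by ring
      have h4 : (e : ℝ) ≤ K * s * w := by
        calc (e : ℝ) ≤ 1 * s * 1 := by linarith
          _ ≤ _ := by gcongr; linarith
      have h5 : 12 * K * s * w ≤ K1 * s * w := by
        gcongr
        linarith
      linarith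
    have h1 := fubini_le (by linarith) hm (fun x hx => hx.2.1) (G ∩ bad T (disc P) Λ)
      (ENNReal.ofReal (2 * e * Real.exp (-u))) (by
        intro x hx hxA
        by_cases hxG : x ∈ G
        · have h2 : Real.exp (-Λ) ≤ |ev (disc P) x| := by
            by_contra h3
            exact hxA ⟨hxG, hx, not_le.1 h3⟩
          rw [ev_disc] at h2
          refine le_trans (measure_mono ?_) (core_vol he (sl_natDegree_le P x) hT
            (Nat.cast_nonneg s) (hs.sl_le hx) (by linarith) hΛ0 h2)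
          rintro t ⟨-, h3, h4⟩
          refine ⟨(cons_mem_cube.1 h3).1, ?_⟩
          rw [sl_eval]
          exact h4.trans_le (Real.exp_le_exp.2 (neg_le_neg hR))
        · have : {t : ℝ | (Fin.cons t x : Fin (k + 1) → ℝ) ∈ cyl G ∩ bad T P (u + K1 * s * w)} =
              ∅ := by
            ext t
            simp only [mem_ofPred_eq, mem_empty_iff_false, iff_false]
            rintro ⟨h2, -⟩
            exact hxG (by simpa [cyl] using h2)
          rw [this, measure_empty]
          exact zero_le)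
    refine h1.trans ?_
    calc ENNReal.ofReal (2 * T) * volume (G ∩ bad T (disc P) Λ) +
          ENNReal.ofReal ((2 * T) ^ k) * ENNReal.ofReal (2 * e * Real.exp (-u))
        ≤ ENNReal.ofReal (2 * T) *
            ENNReal.ofReal (K * ((7 * e * s : ℕ) : ℝ) ^ c * Real.exp (-u)) +
          ENNReal.ofReal ((2 * T) ^ k) * ENNReal.ofReal (2 * e * Real.exp (-u)) := by
          gcongr
          exact h _ _ (disc_ne_zero hP he.ne') (hs.disc hT he) u hu
      _ ≤ _ := by
          rw [← ENNReal.ofReal_mul (by linarith), ← ENNReal.ofReal_mul (by positivity),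
            ← ENNReal.ofReal_add (by positivity) (by positivity)]
          refine ENNReal.ofReal_le_ofReal ?_
          have h2 : ((7 * e * s : ℕ) : ℝ) ^ c ≤ 7 ^ c * s ^ (2 * c + 1) := by
            push_cast
            calc (7 * (e : ℝ) * s) ^ c ≤ (7 * s * s) ^ c := by gcongr
              _ = 7 ^ c * s ^ (2 * c) := by rw [mul_assoc, mul_pow, ← sq, ← pow_mul]
              _ ≤ _ := by gcongr; omega
          have h3 : (e : ℝ) ≤ s ^ (2 * c + 1) := hes.trans (le_self_pow₀ hs1 (by omega))
          calc _ ≤ 2 * T * (K * (7 ^ c * s ^ (2 * c + 1)) * Real.exp (-u)) +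
                (2 * T) ^ k * (2 * s ^ (2 * c + 1) * Real.exp (-u)) := by gcongr
            _ = (2 * T * K * 7 ^ c + 2 * (2 * T) ^ k) * s ^ (2 * c + 1) * Real.exp (-u) := by ring
            _ ≤ _ := by gcongr; linarith

lemma vol_iUnion_geom {X : Type*} [MeasurableSpace X] (μ : Measure X) (A : ℕ → Set X) {δ : ℝ}
    (hδ : 0 ≤ δ) (h : ∀ s, μ (A s) ≤ ENNReal.ofReal (δ * (1 / 2) ^ s)) :
    μ (⋃ s, A s) ≤ ENNReal.ofReal (2 * δ) := by
  refine (measure_iUnion_le A).trans ((ENNReal.tsum_le_tsum h).trans (le_of_eq ?_))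
  rw [← ENNReal.ofReal_tsum_of_nonneg (fun s => by positivity)
    (summable_geometric_two.mul_left δ), tsum_mul_left, tsum_geometric_two, mul_comm]

lemma vol_biUnion_le {X ι : Type*} [MeasurableSpace X] (μ : Measure X) (F : Finset ι)
    (A : ι → Set X) {b : ℝ} (h : ∀ i ∈ F, μ (A i) ≤ ENNReal.ofReal b) :
    μ (⋃ i ∈ F, A i) ≤ ENNReal.ofReal (F.card * b) := by
  refine (measure_biUnion_finset_le F A).trans ((Finset.sum_le_card_nsmul _ _ _ h).trans ?_)
  rw [nsmul_eq_mul, ENNReal.ofReal_mul (Nat.cast_nonneg _), ENNReal.ofReal_natCast]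

lemma thm_succ {T θ : ℝ} (hT : 1 ≤ T) (hθ0 : 0 ≤ θ) (hθ1 : θ ≤ 1) (hθk : (k + 2) * (θ / 2) ≤ 1)
    (h : Thm k T θ) : Thm (k + 1) T (θ / 2) := by
  classical
  intro η hη
  obtain ⟨K, c, G, hK, hG, hGv, hE⟩ := h (η / (4 * T)) (by positivity)
  obtain ⟨K1, hK1, hI⟩ := irr_est hT hθ0 hθ1 hK hG hE
  obtain ⟨C, hC, hF⟩ := factor_size (k + 1) hT
  obtain ⟨C2, hC2, hcount⟩ := count_size (k + 1) hT
  choose F hF1 hF2 using hcount
  set c1 := 2 * c + 1 with hc1
  obtain ⟨δ, hδ0, hδ1, hδ⟩ : ∃ δ : ℝ, 0 < δ ∧ δ ≤ 1 ∧ 2 * (K1 * δ) ≤ η / 2 := by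
    refine ⟨min 1 (η / (4 * K1)), by positivity, min_le_left _ _, ?_⟩
    have h1 : min 1 (η / (4 * K1)) ≤ η / (4 * K1) := min_le_right _ _
    rw [le_div_iff₀ (by positivity)] at h1
    linarith
  set j := -Real.log (δ / 2) with hj
  have hj0 : 0 ≤ j := neg_nonneg.2 (Real.log_nonpos (by positivity) (by linarith))
  set J := C2 + c1 + j + 1 with hJ
  have hJ1 : 1 ≤ J := by
    have : (0 : ℝ) ≤ c1 := Nat.cast_nonneg _
    linarith
  set B : ℕ → Set (Fin (k + 1) → ℝ) := fun s =>
    ⋃ P ∈ (F s).filter (fun P => Irreducible P ∧ Sz T P s),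
      (cyl G ∩ bad T P (J * s ^ (k + 2) + K1 * s * (J * s ^ (k + 2)) ^ (1 - θ / 2))) with hB
  have hBm : MeasurableSet (⋃ s, B s) := MeasurableSet.iUnion fun s =>
    Finset.measurableSet_biUnion _ fun P _ =>
      (measurableSet_cyl hG).inter (measurableSet_bad _ _ _)
  have hBv : volume (⋃ s, B s) ≤ ENNReal.ofReal (2 * (K1 * δ)) := by
    refine vol_iUnion_geom _ _ (by positivity) fun s => ?_
    rcases Nat.eq_zero_or_pos s with rfl | hs0
    · have : (F 0).filter (fun P => Irreducible P ∧ Sz T P 0) = ∅ :=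
        Finset.filter_eq_empty_iff.2 fun P _ hP => absurd hP.2.one (by norm_num)
      simp only [hB, this]
      simp
    have hs1 : (1 : ℝ) ≤ s := by exact_mod_cast hs0
    have hp : (s : ℝ) ≤ s ^ (k + 2) := le_self_pow₀ hs1 (by omega)
    refine (vol_biUnion_le _ _ _ (b := K1 * s ^ c1 * Real.exp (-(J * s ^ (k + 2))))
      fun P hP => ?_).trans (ENNReal.ofReal_le_ofReal ?_)
    · have h1 := (Finset.mem_filter.1 hP).2
      exact hI P s h1.1 h1.2 _ (one_le_mul_of_one_le_of_one_le hJ1 (one_le_pow₀ hs1))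
    · have h1 : (((F s).filter (fun P => Irreducible P ∧ Sz T P s)).card : ℝ) ≤
          Real.exp (C2 * s ^ (k + 2)) :=
        le_trans (by exact_mod_cast Finset.card_filter_le _ _) (hF2 s)
      have h2 : (s : ℝ) ^ c1 ≤ Real.exp (c1 * s) := by
        rw [Real.exp_nat_mul]
        gcongr
        linarith [Real.add_one_le_exp (s : ℝ)]
      have h3 : Real.exp (-(j * s)) ≤ δ * (1 / 2) ^ s := by
        rw [show -(j * s) = s * Real.log (δ / 2) by rw [hj]; ring, Real.exp_nat_mul,
          Real.exp_log (by positivity), div_eq_mul_one_div, mul_pow]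
        gcongr
        exact pow_le_of_le_one hδ0.le hδ1 hs0.ne'
      calc _ ≤ Real.exp (C2 * s ^ (k + 2)) *
            (K1 * Real.exp (c1 * s) * Real.exp (-(J * s ^ (k + 2)))) := by gcongr
        _ = K1 * Real.exp (C2 * s ^ (k + 2) + c1 * s - J * s ^ (k + 2)) := by
            rw [sub_eq_add_neg, Real.exp_add, Real.exp_add]
            ring
        _ ≤ K1 * Real.exp (-(j * s)) := by
            gcongr
            have h4 : (0 : ℝ) ≤ c1 := Nat.cast_nonneg _
            rw [hJ]
            nlinarith [mul_le_mul_of_nonneg_left hp h4, mul_le_mul_of_nonneg_left hp hj0]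
        _ ≤ K1 * (δ * (1 / 2) ^ s) := by gcongr
        _ = _ := by ring
  have hK2a : 0 ≤ (1 + K1) * J * C := by positivity
  have hK2b : 1 ≤ K1 * C ^ (c1 + 1) := one_le_mul_of_one_le_of_one_le hK1 (one_le_pow₀ hC)
  refine ⟨(1 + K1) * J * C + K1 * C ^ (c1 + 1), c1 + 1, cyl G \ ⋃ s, B s, by linarith,
    (measurableSet_cyl hG).diff hBm, ?_, fun f s hf hs u hu => ?_⟩
  · have h1 : cube (k + 1) T \ (cyl G \ ⋃ s, B s) ⊆ (cube (k + 1) T \ cyl G) ∪ ⋃ s, B s := by
      rintro x ⟨hx, hx2⟩
      by_cases h2 : x ∈ ⋃ s, B s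
      · exact Or.inr h2
      · exact Or.inl ⟨hx, fun h3 => hx2 ⟨h3, h2⟩⟩
    have h2 := fubini_le (by linarith) ((measurableSet_cube (k + 1) T).diff (measurableSet_cyl hG))
      sdiff_subset (cube k T \ G) 0 (by
        intro x hx hxA
        have : {t : ℝ | (Fin.cons t x : Fin (k + 1) → ℝ) ∈ cube (k + 1) T \ cyl G} = ∅ := by
          ext t
          simp only [mem_ofPred_eq, mem_empty_iff_false, iff_false]
          rintro ⟨-, h2⟩
          exact hxA ⟨hx, fun h3 => h2 (by simpa [cyl] using h3)⟩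
        rw [this, measure_empty])
    rw [mul_zero, add_zero] at h2
    calc _ ≤ volume (cube (k + 1) T \ cyl G) + volume (⋃ s, B s) :=
          (measure_mono h1).trans (measure_union_le _ _)
      _ ≤ ENNReal.ofReal (2 * T) * ENNReal.ofReal (η / (4 * T)) +
            ENNReal.ofReal (2 * (K1 * δ)) := by
          gcongr
          exact h2.trans (by gcongr)
      _ ≤ _ := by
          rw [← ENNReal.ofReal_mul (by linarith),
            ← ENNReal.ofReal_add (by positivity) (by positivity)]
          refine ENNReal.ofReal_le_ofReal ?_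
          have h3 : 2 * T * (η / (4 * T)) = η / 2 := by field_simp; ring
          linarith
  · obtain ⟨n, P, σ, hP, hσ, hprod⟩ := hF f s hf hs
    have hs1 : (1 : ℝ) ≤ s := by exact_mod_cast hs.one
    have hσ1 : ∀ i, (1 : ℝ) ≤ σ i := fun i => by exact_mod_cast (hP i).2.one
    set w := u ^ (1 - θ / 2) with hw
    have hw1 : 1 ≤ w := Real.one_le_rpow hu (by linarith)
    have huw : u ^ (θ / 2) * w = u := by
      rw [hw, ← Real.rpow_add (by linarith)]
      simp
    have hsub : (cyl G \ ⋃ s, B s) ∩ bad T f (((1 + K1) * J * C + K1 * C ^ (c1 + 1)) * s * w) ⊆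
        ⋃ i ∈ (Finset.univ : Finset (Fin n)), (cyl G ∩ bad T (P i) (u + K1 * σ i * w)) := by
      rintro x ⟨⟨hxG, hxB⟩, hx, hlt⟩
      by_contra hno
      simp only [Finset.mem_univ, iUnion_true, mem_iUnion, not_exists] at hno hxB
      have key : ∀ i, Real.exp (-((1 + K1) * J * σ i * w)) ≤ |ev (P i) x| := fun i => by
        have h0 : 0 ≤ (σ i : ℝ) * w := by positivity
        rcases le_total (u ^ (θ / 2)) (σ i) with h1 | h1
        · have h2 : Real.exp (-(u + K1 * σ i * w)) ≤ |ev (P i) x| := by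
            by_contra h3
            exact hno i ⟨hxG, hx, not_le.1 h3⟩
          refine le_trans (Real.exp_le_exp.2 (neg_le_neg ?_)) h2
          have h3 : u ≤ σ i * w := by
            rw [← huw]
            gcongr
          calc u + K1 * σ i * w ≤ (1 + K1) * 1 * σ i * w := by linarith
            _ ≤ _ := by gcongr
        · have h2 : Real.exp (-(J * σ i ^ (k + 2) +
              K1 * σ i * (J * σ i ^ (k + 2)) ^ (1 - θ / 2))) ≤ |ev (P i) x| := by
            by_contra h3
            refine hxB (σ i) ?_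
            simp only [hB, mem_iUnion]
            exact ⟨P i, Finset.mem_filter.2 ⟨hF1 _ _ (hP i).2, hP i⟩, hxG, hx, not_le.1 h3⟩
          refine le_trans (Real.exp_le_exp.2 (neg_le_neg ?_)) h2
          have h3 : ∀ r : ℕ, (σ i : ℝ) ^ r ≤ u ^ (r * (θ / 2)) := fun r => by
            rw [mul_comm, Real.rpow_mul (by linarith), Real.rpow_natCast]
            gcongr
          have h4 : (σ i : ℝ) ^ (k + 1) ≤ w := (h3 _).trans
            (Real.rpow_le_rpow_of_exponent_le hu (by push_cast; linarith))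
          have h5 : (σ i : ℝ) ^ (k + 2) ≤ u := (h3 _).trans (by
            conv_rhs => rw [← Real.rpow_one u]
            exact Real.rpow_le_rpow_of_exponent_le hu (by push_cast; linarith))
          have h6 : (J * σ i ^ (k + 2)) ^ (1 - θ / 2) ≤ J * w := by
            rw [Real.mul_rpow (by linarith) (by positivity)]
            gcongr
            · conv_rhs => rw [← Real.rpow_one J]
              exact Real.rpow_le_rpow_of_exponent_le hJ1 (by linarith)
            · exact Real.rpow_le_rpow (by positivity) h5 (by linarith)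
          calc J * σ i ^ (k + 2) + K1 * σ i * (J * σ i ^ (k + 2)) ^ (1 - θ / 2)
              = J * σ i * σ i ^ (k + 1) + K1 * σ i * (J * σ i ^ (k + 2)) ^ (1 - θ / 2) := by ring
            _ ≤ J * σ i * w + K1 * σ i * (J * w) := by gcongr
            _ = _ := by ring
      have h1 : Real.exp (-((1 + K1) * J * C * s * w)) ≤ |ev f x| := by
        refine le_trans ?_ ((Finset.prod_le_prod (fun i _ => (Real.exp_pos _).le)
          fun i _ => key i).trans (hprod x))
        rw [← Real.exp_sum, Real.exp_le_exp, Finset.sum_neg_distrib, neg_le_neg_iff,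
          ← Finset.sum_mul, ← Finset.mul_sum]
        calc (1 + K1) * J * (∑ i, (σ i : ℝ)) * w ≤ (1 + K1) * J * (C * s) * w := by gcongr
          _ = _ := by ring
      refine absurd hlt (not_lt.2 (le_trans (Real.exp_le_exp.2 (neg_le_neg ?_)) h1))
      gcongr
      linarith
    calc _ ≤ ∑ i, volume (cyl G ∩ bad T (P i) (u + K1 * σ i * w)) :=
          (measure_mono hsub).trans (measure_biUnion_finset_le _ _)
      _ ≤ ∑ i, ENNReal.ofReal (K1 * (σ i * (C * s) ^ c1) * Real.exp (-u)) := by
          refine Finset.sum_le_sum fun i _ => (hI _ _ (hP i).1 (hP i).2 u hu).trans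
            (ENNReal.ofReal_le_ofReal ?_)
          have h1 : (σ i : ℝ) ≤ C * s := le_trans (Finset.single_le_sum
            (f := fun i => (σ i : ℝ)) (fun _ _ => Nat.cast_nonneg _) (Finset.mem_univ i)) hσ
          gcongr
          calc (σ i : ℝ) ^ c1 ≤ (C * s) ^ c1 := by gcongr
            _ ≤ _ := le_mul_of_one_le_left (by positivity) (hσ1 i)
      _ ≤ _ := by
          rw [← ENNReal.ofReal_sum_of_nonneg fun i _ => by positivity]
          refine ENNReal.ofReal_le_ofReal ?_
          rw [← Finset.sum_mul, ← Finset.mul_sum, ← Finset.sum_mul]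
          calc K1 * ((∑ i, (σ i : ℝ)) * (C * s) ^ c1) * Real.exp (-u)
              ≤ K1 * ((C * s) * (C * s) ^ c1) * Real.exp (-u) := by gcongr
            _ = K1 * C ^ (c1 + 1) * s ^ (c1 + 1) * Real.exp (-u) := by rw [mul_pow]; ring
            _ ≤ _ := by gcongr; linarith

/-- The metric theorem. -/
theorem thm_all {T : ℝ} (hT : 1 ≤ T) (k : ℕ) : Thm k T ((1 / 2) ^ k) := by
  induction k with
  | zero => simpa using thm_zero T
  | succ k ih =>
    have h1 : ((k : ℝ) + 2) ≤ 2 ^ (k + 1) := by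
      have : k + 1 < 2 ^ (k + 1) := Nat.lt_two_pow_self
      exact_mod_cast this
    have h := thm_succ hT (by positivity) (pow_le_one₀ (by norm_num) (by norm_num)) (by
      rw [one_div, inv_pow, ← mul_div_assoc, div_le_iff₀ two_pos,
        ← div_eq_mul_inv, div_le_iff₀ (by positivity)]
      rw [pow_succ] at h1
      linarith) ih
    rwa [pow_succ, mul_one_div]

end SubQuad
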