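import Pool.Agent.P.MP_923088_al.Cheb

/-! Kernel estimates for positive functionals with nonnegative character coefficients. -/

namespace Pool.Agent.P.MP_923088_al

open Finset

/-- A positive normalised functional with nonnegative values on all characters. -/
structure IsPos (Λ : (ℝ → ℝ) →ₗ[ℝ] ℝ) : Prop where
  pos : ∀ F : ℝ → ℝ, (∀ c, |c| ≤ 1 → 0 ≤ F c) → 0 ≤ Λ F
  nn : ∀ k, 0 ≤ Λ (u k)

/-- The weighted partial sums. -/
noncomputable def Msum (h : ℕ → ℝ) (N : ℕ) : ℝ := ∑ k ∈ range (N + 1), ((k : ℝ) + 1) * h k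

lemma Msum_mono {h : ℕ → ℝ} (hh : ∀ k, 0 ≤ h k) {N N' : ℕ} (hN : N ≤ N') :
    Msum h N ≤ Msum h N' := by
  unfold Msum
  apply sum_le_sum_of_subset_of_nonneg
  · intro k hk; rw [mem_range] at hk ⊢; omega
  · intro k _ _; exact mul_nonneg (by positivity) (hh k)

lemma Msum_nonneg {h : ℕ → ℝ} (hh : ∀ k, 0 ≤ h k) (N : ℕ) : 0 ≤ Msum h N :=
  sum_nonneg fun k _ => mul_nonneg (by positivity) (hh k)

lemma double_count (I : Finset ℕ) (A : ℕ → Finset ℕ) (B : ℕ) (hA : ∀ i ∈ I, A i ⊆ range B)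
    (h : ℕ → ℝ) :
    ∑ i ∈ I, ∑ k ∈ A i, h k = ∑ k ∈ range B, ((I.filter (fun i => k ∈ A i)).card : ℝ) * h k := by
  have e : ∀ i ∈ I, ∑ k ∈ A i, h k = ∑ k ∈ range B, if k ∈ A i then h k else 0 := by
    intro i hi
    rw [← Finset.sum_filter]
    apply Finset.sum_congr _ (fun _ _ => rfl)
    ext k
    simp only [mem_filter]
    exact ⟨fun hk => ⟨hA i hi hk, hk⟩, fun hk => hk.2⟩
  rw [Finset.sum_congr rfl e, Finset.sum_comm]
  apply Finset.sum_congr rfl
  intro k _
  rw [← Finset.sum_filter, Finset.sum_const, nsmul_eq_mul]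

variable {Λ : (ℝ → ℝ) →ₗ[ℝ] ℝ}

lemma IsPos.mono (hΛ : IsPos Λ) {F G : ℝ → ℝ} (h : ∀ c, |c| ≤ 1 → F c ≤ G c) : Λ F ≤ Λ G := by
  have := hΛ.pos (G - F) (fun c hc => by simp only [Pi.sub_apply]; linarith [h c hc])
  rw [map_sub] at this
  linarith

lemma map_sum_sum (I : Finset ℕ) (A : ℕ → Finset ℕ) (F : ℝ → ℝ)
    (hF : ∀ c, F c = ∑ i ∈ I, ∑ k ∈ A i, u k c) :
    Λ F = ∑ i ∈ I, ∑ k ∈ A i, Λ (u k) := by
  have : F = ∑ i ∈ I, ∑ k ∈ A i, u k := by
    funext c
    rw [hF c]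
    simp only [Finset.sum_apply]
  rw [this]
  simp only [map_sum]

lemma IsPos.four (hΛ : IsPos Λ) (J : ℕ) :
    Λ (fun c => u J c ^ 4) ≤ ((J : ℝ) + 1) * Msum (fun k => Λ (u k)) (4 * J) := by
  have e : (fun c => u J c ^ 4) = ∑ i ∈ range (J + 1), (fun c => u (2 * i) c * u J c ^ 2) := by
    funext c
    simp only [Finset.sum_apply]
    rw [← Finset.sum_mul, ← u_sq]; ring
  rw [e, map_sum]
  have hb : ∀ i ∈ range (J + 1), Λ (fun c => u (2 * i) c * u J c ^ 2)
      ≤ Msum (fun k => Λ (u k)) (4 * J) := by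
    intro i hi
    rw [mem_range] at hi
    rw [map_sum_sum (range (J + 1)) (fun j => cg (2 * i) (2 * j))]
    · rw [double_count _ _ (4 * J + 1)]
      · unfold Msum
        apply sum_le_sum
        intro k _
        apply mul_le_mul_of_nonneg_right _ (hΛ.nn k)
        have hs : (range (J + 1)).filter (fun j => k ∈ cg (2 * i) (2 * j))
            ⊆ Icc (i - k / 2) (i + k / 2) := by
          intro j hj
          rw [mem_filter, mem_cg] at hj
          rw [mem_Icc]; omega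
        have hc := card_le_card hs
        rw [Nat.card_Icc] at hc
        have : ((range (J + 1)).filter (fun j => k ∈ cg (2 * i) (2 * j))).card ≤ k + 1 := by omega
        exact_mod_cast this
      · intro j hj k hk
        rw [mem_range] at hj ⊢
        rw [mem_cg] at hk
        omega
    · intro c
      rw [u_sq, Finset.mul_sum]
      apply Finset.sum_congr rfl
      intro j _
      exact u_mul _ _ c
  calc _ ≤ ∑ i ∈ range (J + 1), Msum (fun k => Λ (u k)) (4 * J) := sum_le_sum hb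
    _ = _ := by rw [sum_const, card_range, nsmul_eq_mul]; push_cast; ring

/-- The majorant kernel. -/
noncomputable def Psi (K : ℕ) (c : ℝ) : ℝ := 384 * ∑ J ∈ range K, u J c ^ 4 / ((J : ℝ) + 1) ^ 2

lemma sum_sq_ge (y : ℕ) : (y : ℝ) ^ 3 / 3 ≤ ∑ J ∈ range y, ((J : ℝ) + 1) ^ 2 := by
  induction y with
  | zero => simp
  | succ y ih =>
    rw [sum_range_succ]
    push_cast
    have : (0 : ℝ) ≤ y := Nat.cast_nonneg y
    nlinarith

lemma le_Psi {K : ℕ} (hK : 1 ≤ K) {c X Y : ℝ} (hc : |c| ≤ 1) (hY : 0 ≤ Y)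
    (h1 : X ≤ Y * (K : ℝ) ^ 3) (h2 : X * sn c ^ 3 ≤ Y) : X ≤ Y * Psi K c := by
  classical
  set y := Nat.findGreatest (fun j => (j : ℝ) * sn c ≤ 1) K with hy
  have p1 : ((1 : ℕ) : ℝ) * sn c ≤ 1 := by simpa using sn_le_one c
  have y1 : 1 ≤ y := Nat.le_findGreatest (P := fun j => (j : ℝ) * sn c ≤ 1) hK p1
  have yK : y ≤ K := Nat.findGreatest_le K
  have py : (y : ℝ) * sn c ≤ 1 :=
    Nat.findGreatest_spec (P := fun j => (j : ℝ) * sn c ≤ 1) hK p1
  have hP : 8 * (y : ℝ) ^ 3 ≤ Psi K c := by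
    unfold Psi
    have a1 : ∑ J ∈ range y, u J c ^ 4 / ((J : ℝ) + 1) ^ 2
        ≤ ∑ J ∈ range K, u J c ^ 4 / ((J : ℝ) + 1) ^ 2 := by
      apply sum_le_sum_of_subset_of_nonneg
      · intro k hk; rw [mem_range] at hk ⊢; omega
      · intro k _ _; positivity
    have a2 : ∑ J ∈ range y, ((J : ℝ) + 1) ^ 2 / 16
        ≤ ∑ J ∈ range y, u J c ^ 4 / ((J : ℝ) + 1) ^ 2 := by
      apply sum_le_sum
      intro J hJ
      rw [mem_range] at hJ
      have hJ' : ((J : ℝ) + 1) ≤ y := by exact_mod_cast hJ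
      have b1 := le_abs_u hc J ((mul_le_mul_of_nonneg_right hJ' (sn_nonneg c)).trans py)
      have b2 : (((J : ℝ) + 1) / 2) ^ 4 ≤ |u J c| ^ 4 := by gcongr
      have b3 : |u J c| ^ 4 = u J c ^ 4 := by
        rw [← abs_pow]; exact abs_of_nonneg (by positivity)
      rw [b3] at b2
      rw [le_div_iff₀ (by positivity)]
      calc _ = (((J : ℝ) + 1) / 2) ^ 4 := by ring
        _ ≤ _ := b2
    rw [← Finset.sum_div] at a2
    have a3 := sum_sq_ge y
    linarith
  have y0 : (0 : ℝ) ≤ (y : ℝ) ^ 3 := by positivity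
  rcases yK.eq_or_lt with h | h
  · rw [← h] at h1
    calc X ≤ Y * (y : ℝ) ^ 3 := h1
      _ ≤ Y * Psi K c := by gcongr; linarith
  · have np : ¬ (((y + 1 : ℕ) : ℝ) * sn c ≤ 1) :=
      Nat.findGreatest_is_greatest (P := fun j => (j : ℝ) * sn c ≤ 1) (Nat.lt_succ_self y) h
    push_cast at np
    have np' : 1 ≤ ((y : ℝ) + 1) * sn c := (not_le.mp np).le
    rcases le_total X 0 with hX | hX
    · exact hX.trans (mul_nonneg hY (by linarith))
    · have y1' : (1 : ℝ) ≤ y := by exact_mod_cast y1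
      have e1 : 1 ≤ (((y : ℝ) + 1) * sn c) ^ 3 := one_le_pow₀ np'
      have e2 : ((y : ℝ) + 1) ^ 3 ≤ (2 * y) ^ 3 := by gcongr; linarith
      calc X ≤ X * (((y : ℝ) + 1) * sn c) ^ 3 := le_mul_of_one_le_right hX e1
        _ = (X * sn c ^ 3) * ((y : ℝ) + 1) ^ 3 := by ring
        _ ≤ Y * (2 * y) ^ 3 := by
          apply mul_le_mul h2 e2 (by positivity) hY
        _ = Y * (8 * (y : ℝ) ^ 3) := by ring
        _ ≤ Y * Psi K c := by gcongr

lemma IsPos.Psi_le (hΛ : IsPos Λ) (K : ℕ) :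
    Λ (Psi K) ≤ 384 * (1 + Real.log K) * Msum (fun k => Λ (u k)) (4 * K) := by
  have e : Psi K = (384 : ℝ) • ∑ J ∈ range K, (1 / ((J : ℝ) + 1) ^ 2) • (fun c => u J c ^ 4) := by
    funext c
    simp only [Psi, Pi.smul_apply, Finset.sum_apply, smul_eq_mul]
    congr 1
    apply Finset.sum_congr rfl
    intro J _; ring
  rw [e, map_smul, map_sum, smul_eq_mul, mul_assoc]
  apply mul_le_mul_of_nonneg_left _ (by norm_num)
  have hM := Msum_nonneg hΛ.nn (4 * K)
  have hb : ∀ J ∈ range K, Λ ((1 / ((J : ℝ) + 1) ^ 2) • (fun c => u J c ^ 4))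
      ≤ (1 / ((J : ℝ) + 1)) * Msum (fun k => Λ (u k)) (4 * K) := by
    intro J hJ
    rw [mem_range] at hJ
    rw [map_smul, smul_eq_mul]
    have h1 := hΛ.four J
    have h2 : Msum (fun k => Λ (u k)) (4 * J) ≤ Msum (fun k => Λ (u k)) (4 * K) :=
      Msum_mono hΛ.nn (by omega)
    calc _ ≤ (1 / ((J : ℝ) + 1) ^ 2) * (((J : ℝ) + 1) * Msum (fun k => Λ (u k)) (4 * K)) := by
          apply mul_le_mul_of_nonneg_left _ (by positivity)
          exact h1.trans (mul_le_mul_of_nonneg_left h2 (by positivity))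
      _ = _ := by field_simp
  refine (sum_le_sum hb).trans ?_
  rw [← Finset.sum_mul]
  apply mul_le_mul_of_nonneg_right _ hM
  have h := harmonic_le_one_add_log K
  have e2 : ((harmonic K : ℚ) : ℝ) = ∑ J ∈ range K, 1 / ((J : ℝ) + 1) := by
    unfold harmonic
    push_cast
    apply Finset.sum_congr rfl
    intro J _; simp
  rwa [e2] at h

lemma IsPos.bound (hΛ : IsPos Λ) {N : ℕ} (hN : 4 ≤ N) {F : ℝ → ℝ} {Y : ℝ} (hY : 0 ≤ Y)
    (h1 : ∀ c, |c| ≤ 1 → 512 * F c ≤ Y * (N : ℝ) ^ 3)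
    (h2 : ∀ c, |c| ≤ 1 → F c * sn c ^ 3 ≤ Y) :
    Λ F ≤ Y * (384 * (1 + Real.log N) * Msum (fun k => Λ (u k)) N) := by
  set K := N / 4 with hK
  have K1 : 1 ≤ K := by omega
  have K2 : 4 * K ≤ N := by omega
  have K3 : N ≤ 8 * K := by omega
  have K3' : (N : ℝ) ≤ 8 * K := by exact_mod_cast K3
  have a1 : Λ F ≤ Λ (Y • Psi K) := by
    apply hΛ.mono
    intro c hc
    simp only [Pi.smul_apply, smul_eq_mul]
    apply le_Psi K1 hc hY _ (h2 c hc)
    have b1 := h1 c hc
    have b2 : (N : ℝ) ^ 3 ≤ (8 * K) ^ 3 := by gcongr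
    have b3 : Y * (N : ℝ) ^ 3 ≤ Y * (8 * K) ^ 3 := by gcongr
    linarith
  rw [map_smul, smul_eq_mul] at a1
  refine a1.trans (mul_le_mul_of_nonneg_left ((hΛ.Psi_le K).trans ?_) hY)
  have K0 : (0 : ℝ) < K := by exact_mod_cast K1
  have l1 : Real.log K ≤ Real.log N := Real.log_le_log K0 (by exact_mod_cast (by omega : K ≤ N))
  have l0 : 0 ≤ Real.log K := Real.log_natCast_nonneg K
  apply mul_le_mul (by linarith) (Msum_mono hΛ.nn K2) (Msum_nonneg hΛ.nn _) (by linarith)

lemma IsPos.three (hΛ : IsPos Λ) (J : ℕ) :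
    ∑ k ∈ (range (J + 1)).filter (fun k => (k + J) % 2 = 0), ((k : ℝ) + 1) * Λ (u k)
      ≤ Λ (fun c => u J c ^ 3) := by
  rw [map_sum_sum (range (J + 1)) (fun i => cg J (2 * i))]
  · rw [double_count _ _ (3 * J + 1)]
    · calc _ ≤ ∑ k ∈ (range (J + 1)).filter (fun k => (k + J) % 2 = 0),
            (((range (J + 1)).filter (fun i => k ∈ cg J (2 * i))).card : ℝ) * Λ (u k) := by
            apply sum_le_sum
            intro k hk
            rw [mem_filter, mem_range] at hk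
            apply mul_le_mul_of_nonneg_right _ (hΛ.nn k)
            have hs : Icc ((J - k) / 2) ((J + k) / 2)
                ⊆ (range (J + 1)).filter (fun i => k ∈ cg J (2 * i)) := by
              intro i hi
              rw [mem_Icc] at hi
              rw [mem_filter, mem_cg, mem_range]; omega
            have hc := card_le_card hs
            rw [Nat.card_Icc] at hc
            have : k + 1 ≤ ((range (J + 1)).filter (fun i => k ∈ cg J (2 * i))).card := by omega
            exact_mod_cast this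
        _ ≤ _ := by
            apply sum_le_sum_of_subset_of_nonneg
            · intro k hk
              rw [mem_filter, mem_range] at hk
              rw [mem_range]; omega
            · intro k _ _; exact mul_nonneg (by positivity) (hΛ.nn k)
    · intro i hi k hk
      rw [mem_range] at hi ⊢
      rw [mem_cg] at hk
      omega
  · intro c
    rw [show u J c ^ 3 = u J c * u J c ^ 2 by ring, u_sq, Finset.mul_sum]
    apply Finset.sum_congr rfl
    intro j _
    exact u_mul _ _ c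

lemma IsPos.P2 (hΛ : IsPos Λ) {N N' : ℕ} (hN : 4 ≤ N) (hN' : N ≤ N') :
    Msum (fun k => Λ (u k)) N' ≤
      10000000 * ((N' : ℝ) / N) ^ 3 * (1 + Real.log N) * Msum (fun k => Λ (u k)) N := by
  have N0 : (0 : ℝ) < N := by exact_mod_cast (by omega : 0 < N)
  have N1 : (N : ℝ) ≤ N' := by exact_mod_cast hN'
  have N4 : (4 : ℝ) ≤ N := by exact_mod_cast hN
  have r1 : 1 ≤ (N' : ℝ) / N := by rw [le_div_iff₀ N0]; linarith
  have hb : ∀ J : ℕ, J ≤ N' + 1 → Λ (fun c => u J c ^ 3) ≤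
      (4096 * ((N' : ℝ) / N) ^ 3) * (384 * (1 + Real.log N) * Msum (fun k => Λ (u k)) N) := by
    intro J hJ
    have hJ' : (J : ℝ) ≤ N' + 1 := by exact_mod_cast hJ
    apply hΛ.bound hN (by positivity)
    · intro c hc
      have b1 := abs_u_le hc J
      have b2 : u J c ^ 3 ≤ |u J c| ^ 3 := by rw [← abs_pow]; exact le_abs_self _
      have b3 : |u J c| ^ 3 ≤ (2 * N') ^ 3 := by gcongr; linarith
      have e : 4096 * ((N' : ℝ) / N) ^ 3 * (N : ℝ) ^ 3 = 512 * (2 * N') ^ 3 := by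
        field_simp; ring
      rw [e]; linarith
    · intro c hc
      have b1 := abs_u_mul_sn_le hc J
      have b0 := sn_nonneg c
      have b2 : u J c ^ 3 * sn c ^ 3 ≤ (|u J c| * sn c) ^ 3 := by
        rw [mul_pow]
        apply mul_le_mul_of_nonneg_right _ (by positivity)
        rw [← abs_pow]; exact le_abs_self _
      have b3 : (|u J c| * sn c) ^ 3 ≤ 1 := pow_le_one₀ (by positivity) b1
      have b4 : 1 ≤ ((N' : ℝ) / N) ^ 3 := one_le_pow₀ r1
      linarith
  have t1 := hΛ.three N'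
  have t2 := hΛ.three (N' + 1)
  have s1 : Msum (fun k => Λ (u k)) N' ≤
      ∑ k ∈ (range (N' + 1)).filter (fun k => (k + N') % 2 = 0), ((k : ℝ) + 1) * Λ (u k)
      + ∑ k ∈ (range (N' + 1 + 1)).filter (fun k => (k + (N' + 1)) % 2 = 0),
          ((k : ℝ) + 1) * Λ (u k) := by
    unfold Msum
    rw [← Finset.sum_filter_add_sum_filter_not (range (N' + 1)) (fun k => (k + N') % 2 = 0)]
    apply add_le_add le_rfl
    apply sum_le_sum_of_subset_of_nonneg
    · intro k hk
      rw [mem_filter, mem_range] at hk ⊢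
      omega
    · intro k _ _; exact mul_nonneg (by positivity) (hΛ.nn k)
  have u1 := hb N' (by omega)
  have u2 := hb (N' + 1) le_rfl
  have l0 : 0 ≤ Real.log N := Real.log_natCast_nonneg N
  have hM := Msum_nonneg hΛ.nn N
  have p : 0 ≤ ((N' : ℝ) / N) ^ 3 * (1 + Real.log N) * Msum (fun k => Λ (u k)) N := by positivity
  nlinarith

lemma IsPos.P3 (hΛ : IsPos Λ) {N k : ℕ} (hN : 4 ≤ N) (hk : N ≤ k) (hk3 : k ≤ N ^ 3) :
    Λ (u k) ≤ 10000000 * Real.sqrt ((k : ℝ) / (N : ℝ) ^ 3) * (1 + Real.log N)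
      * Msum (fun k => Λ (u k)) N := by
  have N0 : (0 : ℝ) < N := by exact_mod_cast (by omega : 0 < N)
  have k0 : (0 : ℝ) < k := by exact_mod_cast (by omega : 0 < k)
  have k1 : (1 : ℝ) ≤ k := by exact_mod_cast (by omega : 1 ≤ k)
  have kN : (N : ℝ) ≤ k := by exact_mod_cast hk
  have k3 : (k : ℝ) ≤ (N : ℝ) ^ 3 := by exact_mod_cast hk3
  set r := Real.sqrt ((N : ℝ) ^ 3 / k) with hr
  have r1 : 1 ≤ r := by
    rw [hr, Real.le_sqrt (by norm_num) (by positivity), le_div_iff₀ k0]; linarith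
  have r2 : r ^ 2 = (N : ℝ) ^ 3 / k := Real.sq_sqrt (by positivity)
  have r3 : r ≤ k := by
    rw [hr, Real.sqrt_le_iff]
    refine ⟨k0.le, ?_⟩
    rw [div_le_iff₀ k0]
    calc (N : ℝ) ^ 3 ≤ (k : ℝ) ^ 3 := by gcongr
      _ = _ := by ring
  obtain ⟨m, hm⟩ : ∃ m : ℕ, ⌈r⌉₊ = m + 1 := by
    have : 0 < ⌈r⌉₊ := Nat.ceil_pos.mpr (by linarith)
    exact ⟨⌈r⌉₊ - 1, by omega⟩
  have m1 : r ≤ (m : ℝ) + 1 := by
    have := Nat.le_ceil r
    rw [hm] at this; exact_mod_cast this
  have m2 : (m : ℝ) + 1 ≤ 2 * r := by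
    have := Nat.ceil_lt_add_one (by linarith : 0 ≤ r)
    rw [hm] at this; push_cast at this; linarith
  have m3 : m + 1 ≤ k := by
    rw [← hm]; exact Nat.ceil_le.mpr r3
  have a1 : ((m : ℝ) + 1) * Λ (u k) ≤ Λ (fun c => u k c * u m c ^ 2) := by
    rw [map_sum_sum (range (m + 1)) (fun i => cg k (2 * i)) (fun c => u k c * u m c ^ 2)]
    · calc _ = ∑ i ∈ range (m + 1), Λ (u k) := by
            rw [sum_const, card_range, nsmul_eq_mul]; push_cast; ring
        _ ≤ _ := by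
            apply sum_le_sum
            intro i hi
            rw [mem_range] at hi
            apply single_le_sum (f := fun k => Λ (u k)) (fun j _ => hΛ.nn j)
            rw [mem_cg]; omega
    · intro c
      rw [u_sq, Finset.mul_sum]
      apply Finset.sum_congr rfl
      intro j _
      exact u_mul _ _ c
  have a2 : Λ (fun c => u k c * u m c ^ 2) ≤
      4096 * (384 * (1 + Real.log N) * Msum (fun k => Λ (u k)) N) := by
    apply hΛ.bound hN (by norm_num)
    · intro c hc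
      have b1 := abs_u_le hc k
      have b2 := abs_u_le hc m
      have b3 : u m c ^ 2 ≤ (2 * r) ^ 2 := by
        rw [← sq_abs]; gcongr; linarith
      have b4 : u k c ≤ 2 * k := by linarith [le_abs_self (u k c)]
      have b5 : u k c * u m c ^ 2 ≤ (2 * k) * (2 * r) ^ 2 :=
        mul_le_mul b4 b3 (by positivity) (by positivity)
      have e : (2 * (k : ℝ)) * (2 * r) ^ 2 = 8 * (N : ℝ) ^ 3 := by
        rw [mul_pow, r2]; field_simp; norm_num
      linarith
    · intro c hc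
      have b1 := abs_u_mul_sn_le hc k
      have b2 := abs_u_mul_sn_le hc m
      have b0 := sn_nonneg c
      have b3 : (|u m c| * sn c) ^ 2 ≤ 1 := pow_le_one₀ (by positivity) b2
      have b4 : u k c * sn c ≤ 1 :=
        (mul_le_mul_of_nonneg_right (le_abs_self _) b0).trans b1
      have e : u k c * u m c ^ 2 * sn c ^ 3 = (u k c * sn c) * (|u m c| * sn c) ^ 2 := by
        rw [mul_pow, sq_abs]; ring
      rw [e]
      have : (u k c * sn c) * (|u m c| * sn c) ^ 2 ≤ 1 * 1 :=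
        mul_le_mul b4 b3 (by positivity) (by norm_num)
      linarith
  have e1 : Real.sqrt ((k : ℝ) / (N : ℝ) ^ 3) = 1 / r := by
    rw [hr, one_div, ← Real.sqrt_inv, inv_div]
  have l0 : 0 ≤ Real.log N := Real.log_natCast_nonneg N
  have hM := Msum_nonneg hΛ.nn N
  have p : 0 ≤ (1 + Real.log N) * Msum (fun k => Λ (u k)) N := by positivity
  have a3 : r * Λ (u k) ≤ 10000000 * ((1 + Real.log N) * Msum (fun k => Λ (u k)) N) := by
    have := mul_le_mul_of_nonneg_right m1 (hΛ.nn k)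
    nlinarith
  rw [e1]
  have r0 : 0 < r := by linarith
  calc Λ (u k) = (1 / r) * (r * Λ (u k)) := by field_simp
    _ ≤ (1 / r) * (10000000 * ((1 + Real.log N) * Msum (fun k => Λ (u k)) N)) := by gcongr
    _ = _ := by ring

end Pool.Agent.P.MP_923088_al
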