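import Pool.Agent.P.MP_923088_al.SU2
import Pool.Agent.P.MP_923088_al.Cheb

/-! The spaces of homogeneous polynomials in the first column and their characters. -/

namespace Pool.Agent.P.MP_923088_al

open ComplexConjugate Module

/-- Continuous complex functions on SU(2). -/
abbrev CF : Type := C(SU2, ℂ)

/-- Left translation. -/
noncomputable def Lt (g : SU2) : CF →ₐ[ℂ] CF :=
  ContinuousMap.compRightAlgHom ℂ ℂ ⟨fun x => g * x, continuous_const.mul continuous_id⟩

/-- Right translation. -/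
noncomputable def Rt (g : SU2) : CF →ₐ[ℂ] CF :=
  ContinuousMap.compRightAlgHom ℂ ℂ ⟨fun x => x * g, continuous_id.mul continuous_const⟩

lemma Lt_apply (g : SU2) (f : CF) (x : SU2) : Lt g f x = f (g * x) := rfl
lemma Rt_apply (g : SU2) (f : CF) (x : SU2) : Rt g f x = f (x * g) := rfl

/-- A matrix entry as a continuous function. -/
noncomputable def ent (i j : Fin 2) : CF := ⟨fun x => x.1 i j, continuous_entry i j⟩

lemma ent_apply (i j : Fin 2) (x : SU2) : ent i j x = x.1 i j := rfl

lemma Lt_ent (g : SU2) (i j : Fin 2) :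
    Lt g (ent i j) = g.1 i 0 • ent 0 j + g.1 i 1 • ent 1 j := by
  ext x
  rw [Lt_apply, ent_apply, mul_entry]; rfl

lemma Rt_ent (g : SU2) (i j : Fin 2) :
    Rt g (ent i j) = g.1 0 j • ent i 0 + g.1 1 j • ent i 1 := by
  ext x
  rw [Rt_apply, ent_apply, mul_entry]
  simp only [ContinuousMap.add_apply, ContinuousMap.smul_apply, ent_apply, smul_eq_mul]
  ring

/-- Monomials of degree `k` in the first column. -/
noncomputable def mono (k : ℕ) (i : Fin (k + 1)) : CF := ent 0 0 ^ (i : ℕ) * ent 1 0 ^ (k - i)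

/-- Homogeneous polynomials of degree `k` in the first column. -/
noncomputable def V (k : ℕ) : Submodule ℂ CF := Submodule.span ℂ (Set.range (mono k))

lemma mono_mem {i j k : ℕ} (h : i + j = k) : ent 0 0 ^ i * ent 1 0 ^ j ∈ V k := by
  apply Submodule.subset_span
  refine ⟨⟨i, by omega⟩, ?_⟩
  unfold mono
  have : k - i = j := by omega
  simp only [this]

lemma lin_mul_mem (a b : ℂ) {k : ℕ} {f : CF} (hf : f ∈ V k) :
    (a • ent 0 0 + b • ent 1 0) * f ∈ V (k + 1) := by
  induction hf using Submodule.span_induction with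
  | mem f hf =>
    obtain ⟨i, rfl⟩ := hf
    have hi := i.2
    have e : (a • ent 0 0 + b • ent 1 0) * mono k i
        = a • (ent 0 0 ^ ((i : ℕ) + 1) * ent 1 0 ^ (k - i))
          + b • (ent 0 0 ^ (i : ℕ) * ent 1 0 ^ (k - i + 1)) := by
      unfold mono
      simp only [Algebra.smul_def]; ring
    rw [e]
    exact add_mem (Submodule.smul_mem _ _ (mono_mem (by omega)))
      (Submodule.smul_mem _ _ (mono_mem (by omega)))
  | zero => rw [mul_zero]; exact zero_mem _
  | add f g _ _ hf hg => rw [mul_add]; exact add_mem hf hg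
  | smul c f _ hf => rw [mul_smul_comm]; exact Submodule.smul_mem _ _ hf

lemma lin_pow_mul_mem (a b : ℂ) {k : ℕ} {f : CF} (hf : f ∈ V k) (i : ℕ) :
    (a • ent 0 0 + b • ent 1 0) ^ i * f ∈ V (k + i) := by
  induction i with
  | zero => simpa using hf
  | succ i ih =>
    rw [pow_succ', mul_assoc]
    exact lin_mul_mem a b ih

lemma one_mem_V : (1 : CF) ∈ V 0 := by
  simpa using mono_mem (i := 0) (j := 0) (k := 0) rfl

lemma Lt_mem (g : SU2) {k : ℕ} {f : CF} (hf : f ∈ V k) : Lt g f ∈ V k := by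
  induction hf using Submodule.span_induction with
  | mem f hf =>
    obtain ⟨i, rfl⟩ := hf
    have hi := i.2
    unfold mono
    rw [map_mul, map_pow, map_pow, Lt_ent, Lt_ent]
    have h1 := lin_pow_mul_mem (g.1 1 0) (g.1 1 1) one_mem_V (k - i)
    have h2 := lin_pow_mul_mem (g.1 0 0) (g.1 0 1) h1 i
    rw [mul_one] at h2
    have e : 0 + (k - i) + i = k := by omega
    rwa [e] at h2
  | zero => rw [map_zero]; exact zero_mem _
  | add f g _ _ hf hg => rw [map_add]; exact add_mem hf hg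
  | smul c f _ hf => rw [map_smul]; exact Submodule.smul_mem _ _ hf

lemma dg_00 (z : ℂ) (hz : z * conj z = 1) : (dg z hz).1 0 0 = z := rfl
lemma dg_10 (z : ℂ) (hz : z * conj z = 1) : (dg z hz).1 1 0 = 0 := rfl
lemma dg_11 (z : ℂ) (hz : z * conj z = 1) : (dg z hz).1 1 1 = conj z := rfl
lemma dg_01 (z : ℂ) (hz : z * conj z = 1) : (dg z hz).1 0 1 = 0 := by
  change - conj (0 : ℂ) = 0
  simp

lemma Rt_dg (z : ℂ) (hz : z * conj z = 1) {k : ℕ} {f : CF} (hf : f ∈ V k) :
    Rt (dg z hz) f = z ^ k • f := by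
  induction hf using Submodule.span_induction with
  | mem f hf =>
    obtain ⟨i, rfl⟩ := hf
    have hi := i.2
    unfold mono
    rw [map_mul, map_pow, map_pow, Rt_ent, Rt_ent, dg_00, dg_10, zero_smul, zero_smul, add_zero,
      add_zero, smul_pow, smul_pow, smul_mul_smul_comm, ← pow_add]
    congr 2; omega
  | zero => simp
  | add f g _ _ hf hg => rw [map_add, hf, hg, smul_add]
  | smul c f _ hf => rw [map_smul, hf, smul_comm]

lemma Lt_dg (z : ℂ) (hz : z * conj z = 1) (k : ℕ) (i : Fin (k + 1)) :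
    Lt (dg z hz) (mono k i) = (z ^ (i : ℕ) * conj z ^ (k - i)) • mono k i := by
  unfold mono
  rw [map_mul, map_pow, map_pow, Lt_ent, Lt_ent, dg_00, dg_10, dg_01, dg_11, zero_smul, zero_smul,
    add_zero, zero_add, smul_pow, smul_pow, smul_mul_smul_comm]

lemma exists_prim (n : ℕ) (hn : n ≠ 0) : ∃ z : ℂ, z * conj z = 1 ∧ IsPrimitiveRoot z n := by
  refine ⟨_, ?_, Complex.isPrimitiveRoot_exp n hn⟩
  rw [Complex.mul_conj, Complex.normSq_eq_norm_sq,
    (Complex.isPrimitiveRoot_exp n hn).norm'_eq_one hn]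
  simp

lemma mono_ne_zero (k : ℕ) (i : Fin (k + 1)) : mono k i ≠ 0 := by
  intro h
  have hu : (3 / 5 : ℂ) * conj (3 / 5 : ℂ) + (4 / 5 : ℂ) * conj (4 / 5 : ℂ) = 1 := by
    simp only [map_div₀, map_ofNat]; norm_num
  have e := congrArg (fun f : CF => f (mkU _ _ hu)) h
  simp only [mono, ContinuousMap.mul_apply, ContinuousMap.pow_apply, ent_apply, mkU_00, mkU_10,
    ContinuousMap.zero_apply] at e
  exact absurd e (mul_ne_zero (pow_ne_zero _ (by norm_num)) (pow_ne_zero _ (by norm_num)))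

lemma linInd_mono (k : ℕ) : LinearIndependent ℂ (mono k) := by
  obtain ⟨z, hz, hp⟩ := exists_prim (2 * (k + 1)) (by omega)
  have hp2 : IsPrimitiveRoot (z ^ 2) (k + 1) := hp.pow (by omega) rfl
  apply Module.End.eigenvectors_linearIndependent' (Lt (dg z hz)).toLinearMap
    (fun i : Fin (k + 1) => z ^ (i : ℕ) * conj z ^ (k - i))
  · have e : ∀ i : Fin (k + 1), z ^ (i : ℕ) * conj z ^ (k - i) * z ^ k = (z ^ 2) ^ (i : ℕ) := by
      intro i
      have hi := i.2
      obtain ⟨d, hd⟩ : ∃ d, k = i + d := ⟨k - i, by omega⟩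
      have e1 : k - i = d := by omega
      rw [e1]
      have e2 : z ^ k = z ^ (i : ℕ) * z ^ d := by rw [← pow_add, ← hd]
      have e3 : z ^ d * conj z ^ d = 1 := by rw [← mul_pow, hz, one_pow]
      rw [e2]
      linear_combination (z ^ (i : ℕ)) ^ 2 * e3
    intro i j hij
    simp only at hij
    have : (z ^ 2) ^ (i : ℕ) = (z ^ 2) ^ (j : ℕ) := by rw [← e, ← e, hij]
    exact Fin.ext (hp2.pow_inj i.2 j.2 this)
  · intro i
    exact ⟨Module.End.mem_eigenspace_iff.mpr (Lt_dg z hz k i), mono_ne_zero k i⟩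

instance (k : ℕ) : FiniteDimensional ℂ (V k) :=
  FiniteDimensional.span_of_finite ℂ (Set.finite_range _)

/-- The action of SU(2) on the homogeneous polynomials of degree `k`. -/
noncomputable def rho (k : ℕ) (g : SU2) : Module.End ℂ (V k) :=
  (Lt g).toLinearMap.restrict (fun _ hf => Lt_mem g hf)

lemma rho_val (k : ℕ) (g : SU2) (v : V k) : (rho k g v : CF) = Lt g v := rfl

lemma rho_mul (k : ℕ) (g h : SU2) : rho k (g * h) = rho k h * rho k g := by
  ext v x
  rw [Module.End.mul_apply, rho_val, rho_val, rho_val, Lt_apply, Lt_apply, Lt_apply, mul_assoc]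

lemma rho_one (k : ℕ) : rho k 1 = 1 := by
  ext v x
  rw [rho_val, Lt_apply, one_mul]; rfl

lemma sum_pow_eq (z : ℂ) (hz : z * conj z = 1) (k : ℕ) :
    ∑ i ∈ Finset.range (k + 1), z ^ i * conj z ^ (k - i) = (u k z.re : ℂ) := by
  have s : ∀ k : ℕ, ∑ i ∈ Finset.range (k + 1 + 1), z ^ i * conj z ^ (k + 1 - i)
      = conj z * ∑ i ∈ Finset.range (k + 1), z ^ i * conj z ^ (k - i) + z ^ (k + 1) := by
    intro k
    rw [Finset.sum_range_succ, Finset.mul_sum, Nat.sub_self, pow_zero, mul_one]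
    congr 1
    apply Finset.sum_congr rfl
    intro i hi
    rw [Finset.mem_range] at hi
    have : k + 1 - i = k - i + 1 := by omega
    rw [this]; ring
  have re2 : ((2 * z.re : ℝ) : ℂ) = z + conj z := (Complex.add_conj z).symm
  induction k using Nat.twoStepInduction with
  | zero => simp [u_zero]
  | one => rw [s 0, u_one, re2]; simp; ring
  | more k h0 h1 =>
    have s1 := s k
    have s2 := s (k + 1)
    rw [h0, h1] at s1
    rw [h1] at s2
    have e : k + 1 + 1 = k + 2 := rfl
    rw [e] at s2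
    rw [s2, u_two]
    push_cast at re2 ⊢
    rw [re2]
    linear_combination (-z) * s1 - (u k z.re : ℂ) * hz

/-- The monomial basis. -/
noncomputable def bV (k : ℕ) : Basis (Fin (k + 1)) ℂ (V k) := Basis.span (linInd_mono k)

lemma bV_val (k : ℕ) (i : Fin (k + 1)) : (bV k i : CF) = mono k i :=
  congrArg Subtype.val (Basis.span_apply (linInd_mono k) i)

lemma trace_rho (k : ℕ) (g : SU2) : LinearMap.trace ℂ (V k) (rho k g) = (u k (hc g) : ℂ) := by
  obtain ⟨z, hz, h, rfl⟩ := exists_conj g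
  rw [hc_conj, hc_dg, rho_mul, rho_mul, LinearMap.trace_mul_comm, mul_assoc, ← rho_mul,
    inv_mul_cancel, rho_one, mul_one, ← sum_pow_eq z hz, ← Fin.sum_univ_eq_sum_range
      (fun i => z ^ i * conj z ^ (k - i)),
    LinearMap.trace_eq_matrix_trace ℂ (bV k), Matrix.trace]
  apply Finset.sum_congr rfl
  intro i _
  have e : rho k (dg z hz) (bV k i) = (z ^ (i : ℕ) * conj z ^ (k - i)) • bV k i := by
    apply Subtype.ext
    rw [rho_val, Submodule.coe_smul, bV_val, Lt_dg]
  rw [Matrix.diag_apply, LinearMap.toMatrix_apply, e, map_smul, Basis.repr_self]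
  simp

end Pool.Agent.P.MP_923088_al
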