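import Pool.Agent.P.MP_923088_al.Defs

/-! Elementary facts on SU(2): shape of the elements, compactness, conjugation into the torus. -/

namespace Pool.Agent.P.MP_923088_al

open Matrix ComplexConjugate

lemma mul_star (x : SU2) : x.1 * star x.1 = 1 :=
  mem_unitaryGroup_iff.mp (mem_specialUnitaryGroup_iff.mp x.2).1

lemma star_mul' (x : SU2) : star x.1 * x.1 = 1 :=
  mem_unitaryGroup_iff'.mp (mem_specialUnitaryGroup_iff.mp x.2).1

lemma det_one' (x : SU2) : x.1.det = 1 := (mem_specialUnitaryGroup_iff.mp x.2).2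

lemma det_entries (x : SU2) : x.1 0 0 * x.1 1 1 - x.1 0 1 * x.1 1 0 = 1 := by
  rw [← det_fin_two]; exact det_one' x

lemma star_eq_adj (x : SU2) : star x.1 = adjugate x.1 := by
  have h := mul_adjugate x.1
  rw [det_one', one_smul] at h
  calc star x.1 = star x.1 * (x.1 * adjugate x.1) := by rw [h, mul_one]
    _ = _ := by rw [← mul_assoc, star_mul', one_mul]

lemma entry11 (x : SU2) : x.1 1 1 = conj (x.1 0 0) := by
  have h := congrFun (congrFun (star_eq_adj x) 0) 0
  rw [adjugate_fin_two] at h
  simpa [star_apply] using h.symm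

lemma entry01 (x : SU2) : x.1 0 1 = - conj (x.1 1 0) := by
  have h := congrFun (congrFun (star_eq_adj x) 0) 1
  rw [adjugate_fin_two] at h
  simp only [star_apply, RCLike.star_def, of_apply, cons_val', cons_val_one, cons_val_fin_one,
    cons_val_zero] at h
  rw [h, neg_neg]

lemma col_norm (x : SU2) : x.1 0 0 * conj (x.1 0 0) + x.1 1 0 * conj (x.1 1 0) = 1 := by
  have h := det_entries x
  rw [entry11, entry01] at h
  linear_combination h

/-- The element of SU(2) with a given unit first column. -/
def mkU (a b : ℂ) (h : a * conj a + b * conj b = 1) : SU2 :=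
  ⟨!![a, - conj b; b, conj a], by
    rw [mem_specialUnitaryGroup_iff, mem_unitaryGroup_iff]
    constructor
    · ext i j
      fin_cases i <;> fin_cases j <;> simp [mul_apply, Fin.sum_univ_two, star_apply]
      · linear_combination h
      · ring
      · ring
      · linear_combination h
    · rw [det_fin_two_of]; linear_combination h⟩

lemma mkU_00 (a b : ℂ) (h : a * conj a + b * conj b = 1) : (mkU a b h).1 0 0 = a := rfl
lemma mkU_10 (a b : ℂ) (h : a * conj a + b * conj b = 1) : (mkU a b h).1 1 0 = b := rfl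
lemma mkU_01 (a b : ℂ) (h : a * conj a + b * conj b = 1) : (mkU a b h).1 0 1 = - conj b := rfl
lemma mkU_11 (a b : ℂ) (h : a * conj a + b * conj b = 1) : (mkU a b h).1 1 1 = conj a := rfl

lemma mul_entry (x y : SU2) (i j : Fin 2) :
    (x * y).1 i j = x.1 i 0 * y.1 0 j + x.1 i 1 * y.1 1 j := by
  change (x.1 * y.1) i j = _
  rw [mul_apply, Fin.sum_univ_two]

instance : CompactSpace SU2 := by
  refine isCompact_iff_compactSpace.mp (?_ : IsCompact
    ((specialUnitaryGroup (Fin 2) ℂ : Submonoid _) : Set (Matrix (Fin 2) (Fin 2) ℂ)))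
  have hc : IsCompact (Set.pi Set.univ (fun _ : Fin 2 =>
      Set.pi Set.univ (fun _ : Fin 2 => Metric.closedBall (0 : ℂ) 1))) :=
    isCompact_univ_pi fun _ => isCompact_univ_pi fun _ => isCompact_closedBall _ _
  apply IsCompact.of_isClosed_subset hc
  · have e : ((specialUnitaryGroup (Fin 2) ℂ : Submonoid _) : Set (Matrix (Fin 2) (Fin 2) ℂ))
        = {A | A * Aᴴ = 1} ∩ {A | A.det = 1} := by
      ext A
      rw [SetLike.mem_coe, mem_specialUnitaryGroup_iff, mem_unitaryGroup_iff]
      rfl
    have h1 : IsClosed {A : Matrix (Fin 2) (Fin 2) ℂ | A * Aᴴ = 1} :=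
      isClosed_eq (continuous_id.matrix_mul continuous_id.matrix_conjTranspose) continuous_const
    have h2 : IsClosed {A : Matrix (Fin 2) (Fin 2) ℂ | A.det = 1} :=
      isClosed_eq continuous_id.matrix_det continuous_const
    have h3 := h1.inter h2
    rw [← e] at h3
    exact h3
  · intro A hA i _ j _
    rw [mem_closedBall_zero_iff]
    exact entry_norm_bound_of_unitary (mem_specialUnitaryGroup_iff.mp hA).1 i j

lemma continuous_entry (i j : Fin 2) : Continuous (fun x : SU2 => x.1 i j) :=
  continuous_subtype_val.matrix_elem i j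

/-- The diagonal element with a given unimodular entry. -/
def dg (z : ℂ) (h : z * conj z = 1) : SU2 := mkU z 0 (by simpa using h)

lemma exists_conj (g : SU2) : ∃ (z : ℂ) (hz : z * conj z = 1) (h : SU2), g = h * dg z hz * h⁻¹ := by
  obtain ⟨z, hz⟩ := Module.End.exists_eigenvalue (Matrix.toLin' g.1)
  obtain ⟨v, hv⟩ := hz.exists_hasEigenvector
  have e := hv.apply_eq_smul
  have e0 := congrFun e 0
  have e1 := congrFun e 1
  simp only [toLin'_apply, mulVec, dotProduct, Fin.sum_univ_two, Pi.smul_apply, smul_eq_mul]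
    at e0 e1
  have hv0 : 0 < Complex.normSq (v 0) + Complex.normSq (v 1) := by
    by_contra hc
    have a0 := Complex.normSq_nonneg (v 0)
    have a1 := Complex.normSq_nonneg (v 1)
    have b0 : v 0 = 0 := Complex.normSq_eq_zero.mp (by linarith)
    have b1 : v 1 = 0 := Complex.normSq_eq_zero.mp (by linarith)
    apply hv.2
    funext i
    fin_cases i
    · exact b0
    · exact b1
  set r : ℝ := Real.sqrt (Complex.normSq (v 0) + Complex.normSq (v 1)) with hr
  have r0 : 0 < r := Real.sqrt_pos.mpr hv0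
  have r2 : (r : ℂ) * r = v 0 * conj (v 0) + v 1 * conj (v 1) := by
    rw [Complex.mul_conj, Complex.mul_conj, ← Complex.ofReal_mul, hr,
      Real.mul_self_sqrt hv0.le]
    push_cast; rfl
  have rc : (r : ℂ) ≠ 0 := by exact_mod_cast r0.ne'
  have hu : v 0 / r * conj (v 0 / r) + v 1 / r * conj (v 1 / r) = 1 := by
    rw [map_div₀, map_div₀, Complex.conj_ofReal]
    field_simp
    linear_combination -r2
  set h := mkU (v 0 / r) (v 1 / r) hu with hh
  set d := h⁻¹ * g * h with hd
  have gh : g * h = h * d := by rw [hd]; group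
  have c0 := mul_entry g h 0 0
  have c1 := mul_entry g h 1 0
  rw [gh, mul_entry] at c0 c1
  rw [hh] at c0 c1
  simp only [mkU_00, mkU_10, mkU_01, mkU_11] at c0 c1
  have f0 : g.1 0 0 * (v 0 / r) + g.1 0 1 * (v 1 / r) = z * (v 0 / r) := by
    field_simp; linear_combination e0
  have f1 : g.1 1 0 * (v 0 / r) + g.1 1 1 * (v 1 / r) = z * (v 1 / r) := by
    field_simp; linear_combination e1
  rw [f0] at c0
  rw [f1] at c1
  have d10 : d.1 1 0 = 0 := by
    linear_combination (v 0 / r) * c1 - (v 1 / r) * c0 - d.1 1 0 * hu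
  have hz' : d.1 0 0 * conj (d.1 0 0) = 1 := by
    have := col_norm d
    rw [d10] at this
    simpa using this
  refine ⟨d.1 0 0, hz', h, ?_⟩
  have : dg (d.1 0 0) hz' = d := by
    apply Subtype.ext
    ext i j
    fin_cases i <;> fin_cases j
    · rfl
    · change - conj (0 : ℂ) = d.1 0 1
      rw [entry01, d10]
    · exact d10.symm
    · exact (entry11 d).symm
  rw [this, hd]; group

/-- Half the trace: the cosine of the rotation angle. -/
noncomputable def hc (x : SU2) : ℝ := (x.1.trace).re / 2

lemma hc_conj (h d : SU2) : hc (h * d * h⁻¹) = hc d := by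
  unfold hc
  have : (h * d * h⁻¹).1 = h.1 * d.1 * star h.1 := rfl
  rw [this, trace_mul_comm, ← mul_assoc, star_mul', one_mul]

lemma hc_dg (z : ℂ) (hz : z * conj z = 1) : hc (dg z hz) = z.re := by
  unfold hc
  rw [trace_fin_two]
  change (z + conj z).re / 2 = _
  simp

lemma abs_hc_le (x : SU2) : |hc x| ≤ 1 := by
  obtain ⟨z, hz, h, rfl⟩ := exists_conj x
  rw [hc_conj, hc_dg]
  refine (Complex.abs_re_le_norm z).trans (le_of_eq ?_)
  rw [Complex.mul_conj, Complex.normSq_eq_norm_sq] at hz
  have : ‖z‖ ^ 2 = 1 := by exact_mod_cast hz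
  exact (pow_eq_one_iff_of_nonneg (norm_nonneg z) two_ne_zero).mp this

end Pool.Agent.P.MP_923088_al
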