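import Pool.Agent.P.MP_923088_al.Basic

/-! Size of integer polynomials: extrapolation, factorisation, counting. -/

open MeasureTheory Set
open scoped ENNReal

namespace SubQuad

/-- Real value of an integer polynomial. -/
noncomputable def ev {k : ℕ} (f : MvPolynomial (Fin k) ℤ) (x : Fin k → ℝ) : ℝ :=
  MvPolynomial.aeval x f

/-- `f` has size at most `s` on the cube. -/
structure Sz {k : ℕ} (T : ℝ) (f : MvPolynomial (Fin k) ℤ) (s : ℕ) : Prop where
  one : 1 ≤ s
  deg : (f.totalDegree : ℝ) * Real.log (f.totalDegree + 2) ≤ s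
  sup : ∀ x ∈ cube k T, |ev f x| ≤ Real.exp s

variable {k : ℕ}

lemma ev_mul (f g : MvPolynomial (Fin k) ℤ) (x : Fin k → ℝ) : ev (f * g) x = ev f x * ev g x := by
  simp [ev]

lemma ev_sub (f g : MvPolynomial (Fin k) ℤ) (x : Fin k → ℝ) : ev (f - g) x = ev f x - ev g x := by
  simp [ev]

lemma ev_C (c : ℤ) (x : Fin k → ℝ) : ev (MvPolynomial.C c) x = c := by
  simp [ev]

lemma ev_eq_eval (f : MvPolynomial (Fin k) ℤ) (x : Fin k → ℝ) :
    ev f x = MvPolynomial.eval x (MvPolynomial.map (algebraMap ℤ ℝ) f) := by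
  rw [ev, MvPolynomial.eval_map, MvPolynomial.aeval_def]

lemma continuous_ev (f : MvPolynomial (Fin k) ℤ) : Continuous (ev f) := by
  have : ev f = fun x => MvPolynomial.eval x (MvPolynomial.map (algebraMap ℤ ℝ) f) :=
    funext (ev_eq_eval f)
  rw [this]
  exact MvPolynomial.continuous_eval _

lemma ev_int (f : MvPolynomial (Fin k) ℤ) (y : Fin k → ℤ) :
    ev f (fun i => (y i : ℝ)) = ((MvPolynomial.eval y f : ℤ) : ℝ) := by
  induction f using MvPolynomial.induction_on with
  | C a => simp [ev]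
  | add p q hp hq => simp only [ev, map_add] at hp hq ⊢; rw [hp, hq]; simp
  | mul_X p i hp => simp only [ev, map_mul] at hp ⊢; rw [hp]; simp

lemma sepPoly_ev (f : MvPolynomial (Fin k) ℤ) {d : ℕ} (hd : f.totalDegree ≤ d) :
    SepPoly d (ev f) := by
  refine ⟨continuous_ev f, fun i x => ?_⟩
  have hm : (MvPolynomial.map (algebraMap ℤ ℝ) f).totalDegree ≤ d := by
    refine le_trans ?_ hd
    exact Finset.sup_mono (MvPolynomial.support_map_subset _ _)
  refine ⟨MvPolynomial.aeval (fun j => if j = i then Polynomial.X else Polynomial.C (x j))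
    (MvPolynomial.map (algebraMap ℤ ℝ) f), ?_, fun t => ?_⟩
  · have := MvPolynomial.aeval_natDegree_le _ hm
      (fun j => if j = i then (Polynomial.X : Polynomial ℝ) else Polynomial.C (x j)) (n := 1)
      (fun j => by split_ifs <;> simp)
    simpa using this
  · clear hm hd
    induction f using MvPolynomial.induction_on with
    | C a => simp [ev]
    | add p q hp hq => simp only [ev, map_add, Polynomial.eval_add] at hp hq ⊢; rw [hp, hq]
    | mul_X p j hp =>
      simp only [ev, map_mul, Polynomial.eval_mul] at hp ⊢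
      rw [hp]
      by_cases h : j = i
      · subst h
        simp
      · simp [h]

/-- A point of the cube at which finitely many functions are simultaneously not small. -/
lemma exists_good {ι : Type*} [Fintype ι] {T U : ℝ} (hT : 1 ≤ T) (hTU : T ≤ U)
    (F : ι → (Fin k → ℝ) → ℝ) (d : ι → ℕ) (hF : ∀ i, SepPoly (d i) (F i)) (u : ι → Fin k → ℝ)
    (hu : ∀ i, u i ∈ cube k U) {D : ℕ} (hD : ∑ i, d i ≤ D) :
    ∃ x ∈ cube k T, ∀ i, |F i (u i)| ≤ (4 * U * (k * D + 1)) ^ (k * d i) * |F i x| := by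
  by_contra hno
  push Not at hno
  set ε : ℝ := 1 / (k * D + 1) with hε
  have hε0 : 0 < ε := by positivity
  have hε1 : ε ≤ 1 := by
    rw [hε, div_le_one (by positivity)]
    have : (0 : ℝ) ≤ k * D := by positivity
    linarith
  have hU : 1 ≤ U := hT.trans hTU
  have hsub : cube k T ⊆
      ⋃ i, {x | x ∈ cube k T ∧ |F i x| < (ε / (4 * U)) ^ (k * d i) * |F i (u i)|} := by
    intro x hx
    obtain ⟨i, hi⟩ := hno x hx
    refine mem_iUnion.2 ⟨i, hx, ?_⟩
    have h1 : ε / (4 * U) = (4 * U * (k * D + 1))⁻¹ := by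
      rw [hε]
      field_simp
    rw [h1, inv_pow, ← div_eq_inv_mul, lt_div_iff₀ (by positivity), mul_comm]
    exact hi
  have h2 : ENNReal.ofReal (2 * T) * volume (cube k T) ≤
      ENNReal.ofReal (2 * k * D * ε * (2 * T) ^ k) := by
    calc ENNReal.ofReal (2 * T) * volume (cube k T)
        ≤ ENNReal.ofReal (2 * T) * ∑ i, volume
            {x | x ∈ cube k T ∧ |F i x| < (ε / (4 * U)) ^ (k * d i) * |F i (u i)|} := by
          gcongr
          exact (measure_mono hsub).trans (measure_iUnion_fintype_le _ _)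
      _ ≤ ∑ i, ENNReal.ofReal (2 * k * d i * ε * (2 * T) ^ k) := by
          rw [Finset.mul_sum]
          exact Finset.sum_le_sum fun i _ =>
            cartan (by linarith) hTU hU hε0 hε1 k (F i) (hF i) (u i) (hu i)
      _ ≤ _ := by
          rw [← ENNReal.ofReal_sum_of_nonneg fun i _ => by positivity]
          refine ENNReal.ofReal_le_ofReal ?_
          rw [← Finset.sum_mul, ← Finset.sum_mul, ← Finset.mul_sum]
          have : (∑ i, (d i : ℝ)) ≤ D := by exact_mod_cast hD
          gcongr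
  rw [vol_cube k (by linarith), ← ENNReal.ofReal_mul (by linarith),
    ENNReal.ofReal_le_ofReal_iff (by positivity)] at h2
  have h3 : (0 : ℝ) < (2 * T) ^ k := by positivity
  have h4 : 2 * T ≤ 2 * k * D * ε := le_of_mul_le_mul_right h2 h3
  have h5 : (k * D + 1) * ε = 1 := by
    rw [hε]
    field_simp
  nlinarith

lemma log_two_le (d : ℕ) : (1 / 2 : ℝ) ≤ Real.log (d + 2) := by
  have h1 := Real.log_two_gt_d9
  have h2 : Real.log 2 ≤ Real.log (d + 2) :=
    Real.log_le_log (by norm_num) (by linarith [Nat.cast_nonneg (α := ℝ) d])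
  linarith

lemma one_le_log {d : ℕ} (hd : d ≠ 0) : (1 : ℝ) ≤ Real.log (d + 2) := by
  rw [Real.le_log_iff_exp_le (by positivity)]
  have h1 := Real.exp_one_lt_d9
  have h2 : (1 : ℝ) ≤ d := by exact_mod_cast Nat.one_le_iff_ne_zero.2 hd
  linarith

lemma le_mul_log (d : ℕ) : (d : ℝ) ≤ d * Real.log (d + 2) := by
  rcases eq_or_ne d 0 with rfl | hd
  · simp
  · exact le_mul_of_one_le_right (Nat.cast_nonneg d) (one_le_log hd)

lemma Sz.deg_le {T : ℝ} {f : MvPolynomial (Fin k) ℤ} {s : ℕ} (h : Sz T f s) :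
    f.totalDegree ≤ s := by
  have := (le_mul_log f.totalDegree).trans h.deg
  exact_mod_cast this

/-- The extrapolation constant. -/
lemma exists_const (k : ℕ) {T : ℝ} (hT : 1 ≤ T) : ∃ C : ℝ, 1 ≤ C ∧ ∀ d D : ℕ,
    (4 * (T + D) * (k * D + 1)) ^ (k * d) ≤ Real.exp (C * (d * Real.log (D + 2))) := by
  have hA : (1 : ℝ) ≤ 4 * T * (k + 1) := by nlinarith [Nat.cast_nonneg (α := ℝ) k]
  have hL := Real.log_nonneg hA
  refine ⟨1 + k * (2 * Real.log (4 * T * (k + 1)) + 2), by
    have : (0 : ℝ) ≤ k * (2 * Real.log (4 * T * (k + 1)) + 2) := by positivity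
    linarith, fun d D => ?_⟩
  have hD : (0 : ℝ) ≤ D := Nat.cast_nonneg D
  have hk : (0 : ℝ) ≤ k := Nat.cast_nonneg k
  have hd : (0 : ℝ) ≤ d := Nat.cast_nonneg d
  have h1 : 4 * (T + D) * (k * D + 1) ≤ 4 * T * (k + 1) * (D + 2) ^ 2 := by
    have h2 : T + D ≤ T * (D + 2) := by nlinarith
    have h3 : (k : ℝ) * D + 1 ≤ (k + 1) * (D + 2) := by nlinarith
    calc 4 * (T + D) * (k * D + 1) ≤ 4 * (T * (D + 2)) * ((k + 1) * (D + 2)) := by gcongr
      _ = _ := by ring
  have h4 : 4 * T * (k + 1) * (D + 2) ^ 2 ≤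
      Real.exp ((2 * Real.log (4 * T * (k + 1)) + 2) * Real.log (D + 2)) := by
    rw [← Real.log_le_iff_le_exp (by positivity), Real.log_mul (by positivity) (by positivity),
      Real.log_pow]
    have := log_two_le D
    push_cast
    nlinarith
  calc (4 * (T + D) * (k * D + 1)) ^ (k * d)
      ≤ (Real.exp ((2 * Real.log (4 * T * (k + 1)) + 2) * Real.log (D + 2))) ^ (k * d) := by
        gcongr
        exact h1.trans h4
    _ ≤ _ := by
        rw [← Real.exp_nat_mul, Real.exp_le_exp]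
        have h5 : 0 ≤ d * Real.log (D + 2) := mul_nonneg hd (by linarith [log_two_le D])
        push_cast
        nlinarith

/-- Extrapolation from the cube to the grid. -/
lemma extrapolate {T : ℝ} (hT : 1 ≤ T) (f : MvPolynomial (Fin k) ℤ) {D : ℕ}
    (hD : f.totalDegree ≤ D) {S : ℝ} (hS : ∀ x ∈ cube k T, |ev f x| ≤ S) {u : Fin k → ℝ}
    (hu : u ∈ cube k (T + D)) : |ev f u| ≤ (4 * (T + D) * (k * D + 1)) ^ (k * D) * S := by
  obtain ⟨x, hx, h⟩ := exists_good (ι := Unit) hT (le_add_of_nonneg_right (Nat.cast_nonneg D))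
    (fun _ => ev f) (fun _ => D) (fun _ => sepPoly_ev f hD) (fun _ => u) (fun _ => hu) (D := D)
    (by simp)
  refine (h ()).trans ?_
  have := hS x hx
  gcongr

lemma grid_mem {T : ℝ} (hT : 1 ≤ T) {D : ℕ} (g : Fin k → Fin (D + 1)) :
    (fun i => (((g i : ℕ) : ℤ) : ℝ)) ∈ cube k (T + D) := by
  rw [mem_cube]
  intro i
  have h1 : ((g i : ℕ) : ℝ) ≤ D := by exact_mod_cast Nat.lt_succ_iff.1 (g i).2
  rw [Int.cast_natCast, abs_of_nonneg (Nat.cast_nonneg _)]
  linarith

lemma eq_zero_of_grid (f : MvPolynomial (Fin k) ℤ) {D : ℕ} (hD : f.totalDegree ≤ D)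
    (h : ∀ g : Fin k → Fin (D + 1), MvPolynomial.eval (fun i => ((g i : ℕ) : ℤ)) f = 0) :
    f = 0 := by
  refine MvPolynomial.eq_zero_of_eval_zero_at_prod_finset f
    (fun _ => (Finset.range (D + 1)).image (fun n : ℕ => (n : ℤ))) (fun i => ?_) fun x hx => ?_
  · rw [Finset.card_image_of_injective _ Nat.cast_injective, Finset.card_range]
    exact Nat.lt_succ_of_le ((MvPolynomial.degreeOf_le_totalDegree f i).trans hD)
  · simp only [Finset.mem_image, Finset.mem_range] at hx
    choose n hn hx using hx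
    have := h fun i => ⟨n i, hn i⟩
    simpa [hx] using this

/-- A nonzero integer polynomial is not too small on the whole cube. -/
lemma one_le_sup {T : ℝ} (hT : 1 ≤ T) {f : MvPolynomial (Fin k) ℤ} (hf : f ≠ 0) {S : ℝ}
    (hS : ∀ x ∈ cube k T, |ev f x| ≤ S) :
    1 ≤ (4 * (T + f.totalDegree) * (k * f.totalDegree + 1)) ^ (k * f.totalDegree) * S := by
  have h : ∃ g : Fin k → Fin (f.totalDegree + 1),
      MvPolynomial.eval (fun i => ((g i : ℕ) : ℤ)) f ≠ 0 := by
    by_contra h
    push Not at h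
    exact hf (eq_zero_of_grid f le_rfl h)
  obtain ⟨g, hg⟩ := h
  refine le_trans ?_ (extrapolate hT f le_rfl hS (grid_mem hT g))
  rw [ev_int, ← Int.cast_abs]
  exact_mod_cast Int.one_le_abs hg

lemma exists_factors {f : MvPolynomial (Fin k) ℤ} (hf : f ≠ 0) :
    ∃ (n : ℕ) (P : Fin n → MvPolynomial (Fin k) ℤ),
      (∀ i, Irreducible (P i) ∧ (P i).totalDegree ≠ 0) ∧
      ∑ i, (P i).totalDegree ≤ f.totalDegree ∧ ∀ x, ∏ i, |ev (P i) x| ≤ |ev f x| := by
  induction f using WfDvdMonoid.induction_on_irreducible with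
  | zero => exact absurd rfl hf
  | unit f hu =>
    obtain ⟨r, hr, rfl⟩ := MvPolynomial.isUnit_iff_eq_C_of_isReduced.1 hu
    refine ⟨0, Fin.elim0, fun i => i.elim0, by simp, fun x => ?_⟩
    rw [ev_C, ← Int.cast_abs]
    simp only [Finset.univ_eq_empty, Finset.prod_empty]
    exact_mod_cast Int.one_le_abs hr.ne_zero
  | mul a p ha hp ih =>
    obtain ⟨n, P, h1, h2, h3⟩ := ih ha
    have hdeg := MvPolynomial.totalDegree_mul_of_isDomain hp.ne_zero ha
    by_cases h0 : p.totalDegree = 0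
    · refine ⟨n, P, h1, by omega, fun x => ?_⟩
      have hp' := MvPolynomial.totalDegree_eq_zero_iff_eq_C.1 h0
      have hc : MvPolynomial.coeff 0 p ≠ 0 := fun h => hp.ne_zero (by rw [hp', h, map_zero])
      rw [ev_mul, abs_mul]
      have h4 : 1 ≤ |ev p x| := by
        rw [hp', ev_C, ← Int.cast_abs]
        exact_mod_cast Int.one_le_abs hc
      exact (h3 x).trans (le_mul_of_one_le_left (abs_nonneg _) h4)
    · refine ⟨n + 1, Fin.cons p P, fun i => ?_, ?_, fun x => ?_⟩
      · refine Fin.cases ?_ (fun j => ?_) i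
        · exact ⟨hp, h0⟩
        · exact h1 j
      · rw [Fin.sum_univ_succ]
        simp only [Fin.cons_zero, Fin.cons_succ]
        omega
      · rw [Fin.prod_univ_succ, ev_mul, abs_mul]
        simp only [Fin.cons_zero, Fin.cons_succ]
        exact mul_le_mul_of_nonneg_left (h3 x) (abs_nonneg _)

lemma isCompact_cube (k : ℕ) (T : ℝ) : IsCompact (cube k T) :=
  isCompact_univ_pi fun _ => isCompact_Icc

/-- The sizes of the irreducible factors add up to at most a constant times the size. -/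
lemma factor_size (k : ℕ) {T : ℝ} (hT : 1 ≤ T) : ∃ C : ℝ, 1 ≤ C ∧
    ∀ (f : MvPolynomial (Fin k) ℤ) (s : ℕ), f ≠ 0 → Sz T f s →
      ∃ (n : ℕ) (P : Fin n → MvPolynomial (Fin k) ℤ) (σ : Fin n → ℕ),
        (∀ i, Irreducible (P i) ∧ Sz T (P i) (σ i)) ∧ (∑ i, (σ i : ℝ)) ≤ C * s ∧
        ∀ x, ∏ i, |ev (P i) x| ≤ |ev f x| := by
  obtain ⟨C, hC, hCe⟩ := exists_const k hT
  refine ⟨3 + 2 * C, by linarith, fun f s hf hs => ?_⟩
  obtain ⟨n, P, h1, h2, h3⟩ := exists_factors hf
  have hne : (cube k T).Nonempty := ⟨0, by rw [mem_cube]; intro i; simp; linarith⟩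
  have hmax : ∀ i, ∃ y ∈ cube k T, ∀ x ∈ cube k T, |ev (P i) x| ≤ |ev (P i) y| := fun i => by
    obtain ⟨y, hy, h⟩ := (isCompact_cube k T).exists_isMaxOn hne
      (continuous_ev (P i)).abs.continuousOn
    exact ⟨y, hy, fun x hx => h hx⟩
  choose y hy hmax using hmax
  set d : Fin n → ℕ := fun i => (P i).totalDegree with hd
  set D := f.totalDegree with hD
  set S : Fin n → ℝ := fun i => |ev (P i) (y i)| with hS
  have hlow : ∀ i, 1 ≤ Real.exp (C * (d i * Real.log (d i + 2))) * S i := fun i =>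
    (one_le_sup hT (h1 i).1.ne_zero (hmax i)).trans
      (mul_le_mul_of_nonneg_right (hCe _ _) (abs_nonneg _))
  have hpos : ∀ i, 0 < S i := fun i => by
    by_contra h
    have h4 := mul_nonpos_of_nonneg_of_nonpos (Real.exp_pos (C * (d i * Real.log (d i + 2)))).le
      (not_lt.1 h)
    linarith [hlow i]
  have hlog : ∀ i, 0 ≤ C * (d i * Real.log (d i + 2)) + Real.log (S i) := fun i => by
    have := Real.log_le_log one_pos (hlow i)
    rwa [Real.log_one, Real.log_mul (Real.exp_pos _).ne' (hpos i).ne', Real.log_exp] at this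
  have hd1 : ∀ i, (1 : ℝ) ≤ d i * Real.log (d i + 2) := fun i => by
    have h4 : (1 : ℝ) ≤ d i := by exact_mod_cast Nat.one_le_iff_ne_zero.2 (h1 i).2
    exact h4.trans (le_mul_log _)
  have hdD : ∀ i, Real.log (d i + 2) ≤ Real.log (D + 2) := fun i => by
    have h4 : d i ≤ D := (Finset.single_le_sum (f := d) (fun _ _ => Nat.zero_le _)
      (Finset.mem_univ i)).trans h2
    have h5 : (d i : ℝ) ≤ D := by exact_mod_cast h4
    exact Real.log_le_log (by positivity) (by linarith)
  have hsum : ∑ i, d i * Real.log (D + 2) ≤ s := by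
    rw [← Finset.sum_mul]
    have h4 : (∑ i, (d i : ℝ)) ≤ D := by exact_mod_cast h2
    exact (mul_le_mul_of_nonneg_right h4 (by linarith [log_two_le D])).trans hs.deg
  obtain ⟨x, hx, hgood⟩ := exists_good hT (le_add_of_nonneg_right (Nat.cast_nonneg D))
    (fun i => ev (P i)) d (fun i => sepPoly_ev _ le_rfl) y (fun i => by
      have := mem_cube.1 (hy i)
      exact mem_cube.2 fun j => (this j).trans (le_add_of_nonneg_right (Nat.cast_nonneg D))) h2
  have hprod : ∑ i, Real.log (S i) ≤ C * s + s := by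
    have h4 : ∏ i, S i ≤ Real.exp (C * s + s) := by
      calc ∏ i, S i ≤ ∏ i, (Real.exp (C * (d i * Real.log (D + 2))) * |ev (P i) x|) :=
            Finset.prod_le_prod (fun i _ => (hpos i).le) fun i _ =>
              (hgood i).trans (mul_le_mul_of_nonneg_right (hCe _ _) (abs_nonneg _))
        _ = Real.exp (C * ∑ i, d i * Real.log (D + 2)) * ∏ i, |ev (P i) x| := by
            rw [Finset.prod_mul_distrib, ← Real.exp_sum, Finset.mul_sum]
        _ ≤ Real.exp (C * s) * Real.exp s := by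
            gcongr
            exact (h3 x).trans (hs.sup x hx)
        _ = _ := by rw [Real.exp_add]
    rw [← Real.log_prod fun i _ => (hpos i).ne']
    exact (Real.log_le_iff_le_exp (Finset.prod_pos fun i _ => hpos i)).2 h4
  refine ⟨n, P, fun i => ⌈d i * Real.log (d i + 2) + max 0 (Real.log (S i))⌉₊,
    fun i => ⟨(h1 i).1, ?_, ?_, fun z hz => ?_⟩, ?_, h3⟩
  · rw [Nat.one_le_ceil_iff]
    linarith [hd1 i, le_max_left 0 (Real.log (S i))]
  · exact le_trans (le_add_of_nonneg_right (le_max_left _ _)) (Nat.le_ceil _)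
  · refine (hmax i z hz).trans ?_
    rw [← Real.log_le_iff_le_exp (hpos i)]
    refine le_trans ?_ (Nat.le_ceil _)
    linarith [hd1 i, le_max_right 0 (Real.log (S i))]
  · have h5 : ∀ i, (⌈d i * Real.log (d i + 2) + max 0 (Real.log (S i))⌉₊ : ℝ) ≤
        (2 + C) * (d i * Real.log (D + 2)) + Real.log (S i) := fun i => by
      have h6 := (Nat.ceil_lt_add_one (a := d i * Real.log (d i + 2) + max 0 (Real.log (S i)))
        (by linarith [hd1 i, le_max_left 0 (Real.log (S i))])).le
      have h7 : max 0 (Real.log (S i)) ≤ C * (d i * Real.log (d i + 2)) + Real.log (S i) :=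
        max_le (hlog i) (by nlinarith [hd1 i])
      have h8 : d i * Real.log (d i + 2) ≤ d i * Real.log (D + 2) :=
        mul_le_mul_of_nonneg_left (hdD i) (Nat.cast_nonneg _)
      nlinarith [hd1 i]
    calc _ ≤ ∑ i, ((2 + C) * (d i * Real.log (D + 2)) + Real.log (S i)) :=
          Finset.sum_le_sum fun i _ => h5 i
      _ ≤ (2 + C) * s + (C * s + s) := by
          rw [Finset.sum_add_distrib, ← Finset.mul_sum]
          gcongr
      _ = _ := by ring

/-- Counting polynomials of bounded size. -/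
lemma count_size (k : ℕ) {T : ℝ} (hT : 1 ≤ T) : ∃ C : ℝ, 0 ≤ C ∧ ∀ s : ℕ,
    ∃ F : Finset (MvPolynomial (Fin k) ℤ), (∀ f, Sz T f s → f ∈ F) ∧
      (F.card : ℝ) ≤ Real.exp (C * s ^ (k + 1)) := by
  classical
  obtain ⟨C, hC, hCe⟩ := exists_const k hT
  refine ⟨(C + 3) * 2 ^ k, by positivity, fun s => ?_⟩
  rcases Nat.eq_zero_or_pos s with rfl | hs0
  · exact ⟨∅, fun f hf => absurd hf.one (by norm_num), by simp⟩
  have hs1 : (1 : ℝ) ≤ s := by exact_mod_cast hs0
  set D := Nat.findGreatest (fun D : ℕ => (D : ℝ) * Real.log (D + 2) ≤ s) s with hD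
  have hDs : (D : ℝ) * Real.log (D + 2) ≤ s :=
    Nat.findGreatest_spec (P := fun D : ℕ => (D : ℝ) * Real.log (D + 2) ≤ s) (Nat.zero_le s)
      (by simp)
  have hDle : (D : ℝ) ≤ s := (le_mul_log D).trans hDs
  have hdeg : ∀ f : MvPolynomial (Fin k) ℤ, Sz T f s → f.totalDegree ≤ D := fun f hf =>
    Nat.le_findGreatest (P := fun D : ℕ => (D : ℝ) * Real.log (D + 2) ≤ s) hf.deg_le hf.deg
  set N : ℕ := ⌊Real.exp ((C + 1) * s)⌋₊ with hN
  set φ : MvPolynomial (Fin k) ℤ → (Fin k → Fin (D + 1)) → ℤ :=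
    fun f g => MvPolynomial.eval (fun i => ((g i : ℕ) : ℤ)) f with hφ
  set B : Finset ((Fin k → Fin (D + 1)) → ℤ) :=
    Fintype.piFinset fun _ => Finset.Icc (-(N : ℤ)) N with hB
  have hmaps : MapsTo φ {f | Sz T f s} B := by
    intro f hf
    simp only [hB, Finset.mem_coe, Fintype.mem_piFinset, Finset.mem_Icc, ← abs_le]
    intro g
    have h1 := extrapolate hT f (hdeg f hf) hf.sup (grid_mem hT g)
    rw [ev_int, ← Int.cast_abs] at h1
    have h2 : ((|φ f g| : ℤ) : ℝ) ≤ Real.exp ((C + 1) * s) := by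
      refine h1.trans ?_
      calc _ ≤ Real.exp (C * s) * Real.exp s := by
            gcongr
            refine (hCe D D).trans ?_
            gcongr
        _ = _ := by rw [← Real.exp_add]; congr 1; ring
    have h3 : |φ f g| ≤ ⌊Real.exp ((C + 1) * s)⌋ := Int.le_floor.2 h2
    rwa [hN, Int.natCast_floor_eq_floor (Real.exp_pos _).le]
  have hinj : InjOn φ {f | Sz T f s} := by
    intro f hf g hg hfg
    rw [← sub_eq_zero]
    refine eq_zero_of_grid _ (D := D) ((MvPolynomial.totalDegree_sub _ _).trans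
      (max_le (hdeg f hf) (hdeg g hg))) fun y => ?_
    rw [map_sub, sub_eq_zero]
    exact congrFun hfg y
  have hfin : {f : MvPolynomial (Fin k) ℤ | Sz T f s}.Finite :=
    Set.Finite.of_injOn hmaps hinj B.finite_toSet
  refine ⟨hfin.toFinset, fun f hf => hfin.mem_toFinset.2 hf, ?_⟩
  have hcard : hfin.toFinset.card ≤ B.card :=
    Finset.card_le_card_of_injOn φ (fun f hf => hmaps (hfin.mem_toFinset.1 hf))
      (by simpa using hinj)
  have hBc : B.card = (2 * N + 1) ^ ((D + 1) ^ k) := by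
    rw [hB, Fintype.card_piFinset]
    simp only [Int.card_Icc, Finset.prod_const, Finset.card_univ, Fintype.card_fun,
      Fintype.card_fin]
    congr 1
    omega
  have hN1 : ((2 * N + 1 : ℕ) : ℝ) ≤ Real.exp ((C + 3) * s) := by
    have h1 : (N : ℝ) ≤ Real.exp ((C + 1) * s) := Nat.floor_le (Real.exp_pos _).le
    have h2 : 1 ≤ Real.exp ((C + 1) * s) := Real.one_le_exp (by positivity)
    have h3 : 2 * s + 1 ≤ Real.exp (2 * s) := Real.add_one_le_exp _
    have h4 : Real.exp ((C + 3) * s) = Real.exp (2 * s) * Real.exp ((C + 1) * s) := by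
      rw [← Real.exp_add]; congr 1; ring
    push_cast
    nlinarith
  calc (hfin.toFinset.card : ℝ) ≤ ((2 * N + 1 : ℕ) : ℝ) ^ ((D + 1) ^ k) := by
        rw [← Nat.cast_pow, ← hBc]
        exact_mod_cast hcard
    _ ≤ Real.exp ((C + 3) * s) ^ ((D + 1) ^ k) := by gcongr
    _ ≤ _ := by
        rw [← Real.exp_nat_mul, Real.exp_le_exp]
        push_cast
        have h1 : ((D : ℝ) + 1) ^ k ≤ (2 * s) ^ k := by gcongr; linarith
        calc ((D : ℝ) + 1) ^ k * ((C + 3) * s) ≤ (2 * s) ^ k * ((C + 3) * s) := by gcongr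
          _ = _ := by rw [mul_pow]; ring

end SubQuad
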