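import Pool.Agent.P.MP_923088_al.Words

/-! From the normal form to Lebesgue measure on tuples of quaternions and to Haar measure. -/

open MeasureTheory Set Quaternion
open scoped ENNReal

namespace SubQuad

variable {m : ℕ}

lemma letter_conj (q : Fin m → ℍ[ℝ]) (r : Fin m → ℝ) (g : ℍ[ℝ]) (a : Fin m × Bool) :
    letter (fun l => r l • (g * q l * star g)) a = r a.1 • (g * letter q a * star g) := by
  rcases a with ⟨l, _ | _⟩
  · simp [letter, Quaternion.star_smul, mul_assoc]
  · simp [letter]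

lemma wd_conj (q : Fin m → ℍ[ℝ]) (r : Fin m → ℝ) (g : ℍ[ℝ]) (L : List (Fin m × Bool)) :
    ∀ a, ∃ ρ : ℝ, wd (fun l => r l • (g * q l * star g)) (a :: L) =
      ρ • (g * wd q (a :: L) * star g) := by
  induction L with
  | nil => exact fun a => ⟨r a.1, by simp [wd, letter_conj]⟩
  | cons b L ih =>
    intro a
    obtain ⟨ρ, h⟩ := ih b
    refine ⟨r a.1 * ρ * normSq g, ?_⟩
    rw [wd_cons, h, letter_conj, wd_cons q a]
    have h1 : g * letter q a * star g * (g * wd q (b :: L) * star g) =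
        normSq g • (g * (letter q a * wd q (b :: L)) * star g) := by
      calc _ = g * letter q a * (star g * g) * wd q (b :: L) * star g := by
            simp only [mul_assoc]
        _ = _ := by
            rw [star_mul_self, mul_coe_eq_smul]
            simp only [smul_mul_assoc, mul_assoc]
    rw [smul_mul_smul_comm, h1, smul_smul]

lemma im_conj (g W : ℍ[ℝ]) : (g * W * star g).im = g * W.im * star g := by
  ext <;> simp <;> ring

lemma Good.conj {θ : ℝ} {q : Fin m → ℍ[ℝ]} (h : Good θ q) (r : Fin m → ℝ) (g : ℍ[ℝ]) :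
    Good θ fun l => r l • (g * q l * star g) := by
  obtain ⟨C, hC⟩ := h
  refine ⟨C, fun L h1 h2 => ?_⟩
  have h3 := hC L h1 h2
  obtain ⟨a, L, rfl⟩ := List.exists_cons_of_ne_nil h2
  obtain ⟨ρ, h4⟩ := wd_conj q r g L a
  rw [h4, im_smul, im_conj]
  simp only [norm_smul, norm_mul]
  calc _ = ‖ρ‖ * (‖g‖ * (Real.exp _ * ‖wd q (a :: L)‖) * ‖star g‖) := by ring
    _ ≤ _ := by gcongr

lemma rot_one (q : ℍ[ℝ]) : ∃ h : ℍ[ℝ], h ≠ 0 ∧ (star h * q * h).imJ = 0 ∧
    (star h * q * h).imK = 0 := by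
  by_cases h0 : q.imJ = 0 ∧ q.imK = 0
  · exact ⟨1, one_ne_zero, by simpa using h0⟩
  have hn := Real.sq_sqrt (show 0 ≤ q.imI ^ 2 + q.imJ ^ 2 + q.imK ^ 2 by positivity)
  refine ⟨⟨0, q.imI + √(q.imI ^ 2 + q.imJ ^ 2 + q.imK ^ 2), q.imJ, q.imK⟩, fun h => h0 ?_, ?_, ?_⟩
  · exact ⟨congrArg QuaternionAlgebra.imJ h, congrArg QuaternionAlgebra.imK h⟩
  · simp only [re_mul, imI_mul, imJ_mul, imK_mul, re_star, imI_star, imJ_star, imK_star]
    linear_combination (-q.imJ) * hn
  · simp only [re_mul, imI_mul, imJ_mul, imK_mul, re_star, imI_star, imJ_star, imK_star]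
    linear_combination (-q.imK) * hn

lemma rot_two (p q : ℍ[ℝ]) (h1 : p.imJ = 0) (h2 : p.imK = 0) : ∃ h : ℍ[ℝ], h ≠ 0 ∧
    (star h * p * h).imJ = 0 ∧ (star h * p * h).imK = 0 ∧ (star h * q * h).imK = 0 := by
  by_cases h0 : q.imK = 0
  · exact ⟨1, one_ne_zero, by simpa using ⟨h1, h2, h0⟩⟩
  have hn := Real.sq_sqrt (show 0 ≤ q.imJ ^ 2 + q.imK ^ 2 by positivity)
  refine ⟨⟨0, 0, q.imJ + √(q.imJ ^ 2 + q.imK ^ 2), q.imK⟩, fun h => h0 ?_, ?_, ?_, ?_⟩
  · exact congrArg QuaternionAlgebra.imK h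
  · simp only [re_mul, imI_mul, imJ_mul, imK_mul, re_star, imI_star, imJ_star, imK_star, h1, h2]
    ring
  · simp only [re_mul, imI_mul, imJ_mul, imK_mul, re_star, imI_star, imJ_star, imK_star, h1, h2]
    ring
  · simp only [re_mul, imI_mul, imJ_mul, imK_mul, re_star, imI_star, imJ_star, imK_star]
    linear_combination (-q.imK) * hn

lemma exists_unit (h : ℍ[ℝ]) (h0 : h ≠ 0) : ∃ e : ℍ[ℝ], (h * e).re = 1 ∧
    (∀ p : ℍ[ℝ], p.imJ = 0 → (star e * p * e).imJ = 0) ∧
    ∀ p : ℍ[ℝ], p.imK = 0 → (star e * p * e).imK = 0 := by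
  by_cases h1 : h.re ≠ 0
  · refine ⟨⟨h.re⁻¹, 0, 0, 0⟩, by simp [h1], fun p hp => by simp [hp], fun p hp => by simp [hp]⟩
  by_cases h2 : h.imI ≠ 0
  · refine ⟨⟨0, -h.imI⁻¹, 0, 0⟩, by simp [h2], fun p hp => by simp [hp], fun p hp => by simp [hp]⟩
  by_cases h3 : h.imJ ≠ 0
  · refine ⟨⟨0, 0, -h.imJ⁻¹, 0⟩, by simp [h3], fun p hp => by simp [hp], fun p hp => by simp [hp]⟩
  by_cases h4 : h.imK ≠ 0
  · refine ⟨⟨0, 0, 0, -h.imK⁻¹⟩, by simp [h4], fun p hp => by simp [hp], fun p hp => by simp [hp]⟩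
  push Not at h1 h2 h3 h4
  exact absurd (Quaternion.ext _ _ h1 h2 h3 h4) h0

lemma exists_rot (p q : ℍ[ℝ]) : ∃ g : ℍ[ℝ], g.re = 1 ∧
    (star g * p * g).imJ = 0 ∧ (star g * p * g).imK = 0 ∧ (star g * q * g).imK = 0 := by
  obtain ⟨a, ha, a1, a2⟩ := rot_one p
  obtain ⟨b, hb, b1, b2, b3⟩ := rot_two _ (star a * q * a) a1 a2
  obtain ⟨e, he, e1, e2⟩ := exists_unit (a * b) (mul_ne_zero ha hb)
  have h : ∀ x : ℍ[ℝ], star (a * b * e) * x * (a * b * e) =
      star e * (star b * (star a * x * a) * b) * e := fun x => by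
    simp only [star_mul, mul_assoc]
  exact ⟨a * b * e, he, by rw [h]; exact e1 _ b1, by rw [h]; exact e2 _ b2,
    by rw [h]; exact e2 _ b3⟩

/-- The parameters of the normal form read off a tuple. -/
noncomputable def proj (m : ℕ) : (Fin m → ℍ[ℝ]) →ₗ[ℝ] (Fin (kk m) → ℝ) where
  toFun p j := comp (p ((Fintype.equivFin (V m)).symm j).1.1) ((Fintype.equivFin (V m)).symm j).1.2
  map_add' p q := by
    funext j
    generalize_proofs
    simp only [Pi.add_apply]
    generalize ((Fintype.equivFin (V m)).symm j).1.2 = c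
    fin_cases c <;> simp [comp]
  map_smul' r p := by
    funext j
    simp only [Pi.smul_apply, RingHom.id_apply]
    generalize ((Fintype.equivFin (V m)).symm j).1.2 = c
    fin_cases c <;> simp [comp]

lemma par_proj (p : Fin m → ℍ[ℝ]) (l : Fin m) (c : Fin 3) :
    par (proj m p) l c = if (c : ℕ) ≤ l then comp (p l) c else 0 := by
  simp only [par, proj, LinearMap.coe_mk, AddHom.coe_mk, Equiv.symm_apply_apply]
  split_ifs <;> rfl

lemma proj_surjective : Function.Surjective (proj m) := by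
  intro x
  refine ⟨qv (par x), funext fun j => ?_⟩
  have h : ∀ l c, comp (qv (par x) l) c = par x l c := fun l c => by fin_cases c <;> rfl
  simp only [proj, LinearMap.coe_mk, AddHom.coe_mk, h, par]
  rw [dif_pos ((Fintype.equivFin (V m)).symm j).2]
  simp

/-- The conjugating quaternion read off a tuple. -/
def rot (hm : 2 ≤ m) (p : Fin m → ℍ[ℝ]) : ℍ[ℝ] :=
  ⟨1, (p ⟨0, by omega⟩).imJ, (p ⟨0, by omega⟩).imK, (p ⟨1, by omega⟩).imK⟩

/-- The parametrisation of tuples. -/
noncomputable def Phi (hm : 2 ≤ m) (p : Fin m → ℍ[ℝ]) : Fin m → ℍ[ℝ] :=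
  fun l => (p l).re • (rot hm p * qv (par (proj m p)) l * star (rot hm p))

lemma exists_Phi (hm : 2 ≤ m) (q : Fin m → ℍ[ℝ]) (hq : ∀ l, (q l).re ≠ 0) :
    ∃ p, Phi hm p = q := by
  obtain ⟨g, hg, h1, h2, h3⟩ := exists_rot (q ⟨0, by omega⟩) (q ⟨1, by omega⟩)
  have hg0 : normSq g ≠ 0 := fun h => by
    rw [normSq_eq_zero.1 h] at hg
    simp at hg
  set y : Fin m → ℍ[ℝ] := fun l => star g * q l * g with hy
  have hre : ∀ l, (y l).re = normSq g * (q l).re := fun l => by
    simp only [hy, re_mul, imI_mul, imJ_mul, imK_mul, re_star, imI_star, imJ_star, imK_star,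
      normSq_def']
    ring
  have hy0 : ∀ l, (y l).re ≠ 0 := fun l => by rw [hre]; exact mul_ne_zero hg0 (hq l)
  set p : Fin m → ℍ[ℝ] := fun l => ⟨(y l).re / normSq g ^ 2, (y l).imI / (y l).re,
    if (l : ℕ) = 0 then g.imI else (y l).imJ / (y l).re,
    if (l : ℕ) = 0 then g.imJ else if (l : ℕ) = 1 then g.imK else (y l).imK / (y l).re⟩ with hp
  have hrot : rot hm p = g := by
    ext
    · exact hg.symm
    · simp [rot, hp]
    · simp [rot, hp]
    · simp [rot, hp]
  have hqv : ∀ l, qv (par (proj m p)) l = ((y l).re)⁻¹ • y l := fun l => by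
    ext
    · simp [qv, hy0 l]
    · simp [qv, par_proj, comp, hp, div_eq_inv_mul]
    · simp only [qv, par_proj, comp, hp, imJ_smul, smul_eq_mul]
      by_cases h : (l : ℕ) = 0
      · have h4 : l = ⟨0, by omega⟩ := Fin.ext h
        have h5 : (y l).imJ = 0 := by rw [h4]; exact h1
        simp [h, h5]
      · have h4 : 1 ≤ (l : ℕ) := by omega
        simp [h, h4, div_eq_inv_mul]
    · simp only [qv, par_proj, comp, hp, imK_smul, smul_eq_mul]
      by_cases h : (l : ℕ) = 0
      · have h4 : l = ⟨0, by omega⟩ := Fin.ext h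
        have h5 : (y l).imK = 0 := by rw [h4]; exact h2
        simp [h, h5]
      · by_cases h' : (l : ℕ) = 1
        · have h4 : l = ⟨1, by omega⟩ := Fin.ext h'
          have h5 : (y l).imK = 0 := by rw [h4]; exact h3
          simp [h', h5]
        · have h4 : 2 ≤ (l : ℕ) := by omega
          simp [h, h', h4, div_eq_inv_mul]
  refine ⟨p, funext fun l => ?_⟩
  have h4 : g * y l * star g = normSq g ^ 2 • q l := by
    calc g * y l * star g = (g * star g) * q l * (g * star g) := by simp only [hy, mul_assoc]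
      _ = _ := by rw [self_mul_star, mul_coe_eq_smul, coe_mul_eq_smul, smul_smul, sq]
  rw [Phi, hrot, hqv, mul_smul_comm, smul_mul_assoc, h4, smul_smul, smul_smul]
  have h5 : (p l).re * ((y l).re)⁻¹ * normSq g ^ 2 = 1 := by
    have := hy0 l
    simp only [hp]
    field_simp
  rw [h5, one_smul]

/-- The quaternion with real part one and given imaginary components. -/
def mk1 (a b c : ℝ) : ℍ[ℝ] := ⟨1, a, b, c⟩

lemma differentiable_mk {E : Type*} [NormedAddCommGroup E] [NormedSpace ℝ E] {a b c : E → ℝ}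
    (ha : Differentiable ℝ a) (hb : Differentiable ℝ b) (hc : Differentiable ℝ c) :
    Differentiable ℝ fun p => mk1 (a p) (b p) (c p) := by
  have : (fun p => mk1 (a p) (b p) (c p)) = fun p => (1 : ℍ[ℝ]) +
      a p • (mk1 1 0 0 - 1) + b p • (mk1 0 1 0 - 1) + c p • (mk1 0 0 1 - 1) := by
    funext p
    ext <;> simp [mk1]
  rw [this]
  exact (((differentiable_const _).add (ha.smul_const _)).add (hb.smul_const _)).add
    (hc.smul_const _)

lemma differentiable_Phi (hm : 2 ≤ m) : Differentiable ℝ (Phi hm) := by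
  have h0 : ∀ (f : ℍ[ℝ] →ₗ[ℝ] ℝ) (l : Fin m), Differentiable ℝ fun p : Fin m → ℍ[ℝ] => f (p l) :=
    fun f l => (LinearMap.toContinuousLinearMap f).differentiable.comp (differentiable_apply l)
  have hJ := h0 (QuaternionAlgebra.imJₗ _ _ _)
  have hK := h0 (QuaternionAlgebra.imKₗ _ _ _)
  have h1 : ∀ l c, Differentiable ℝ fun p : Fin m → ℍ[ℝ] => par (proj m p) l c := fun l c => by
    simp only [par]
    split_ifs
    · exact (differentiable_apply _).comp (LinearMap.toContinuousLinearMap (proj m)).differentiable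
    · exact differentiable_const _
  refine differentiable_pi.2 fun l => ?_
  refine (h0 (QuaternionAlgebra.reₗ _ _ _) l).smul (Differentiable.mul (Differentiable.mul ?_ ?_) ?_)
  · exact differentiable_mk (hJ _) (hK _) (hK _)
  · exact differentiable_mk (h1 l 0) (h1 l 1) (h1 l 2)
  · have h2 : (fun p => star (rot hm p)) = fun p : Fin m → ℍ[ℝ] => mk1 (-(p ⟨0, by omega⟩).imJ)
        (-(p ⟨0, by omega⟩).imK) (-(p ⟨1, by omega⟩).imK) := by
      funext p
      ext <;> simp [rot, mk1]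
    rw [h2]
    exact differentiable_mk (hJ _).neg (hK _).neg (hK _).neg

lemma null_not_good (hm : 2 ≤ m) [MeasurableSpace (Fin m → ℍ[ℝ])] [BorelSpace (Fin m → ℍ[ℝ])]
    (ν : Measure (Fin m → ℍ[ℝ])) [ν.IsAddHaarMeasure] :
    ν {q | ¬ Good ((1 / 2) ^ kk m) q} = 0 := by
  set Z := toMeasurable volume {x : Fin (kk m) → ℝ | ¬ Good ((1 / 2) ^ kk m) (qv (par x))} with hZ
  have hZ0 : volume Z = 0 := by
    rw [hZ, measure_toMeasurable]
    exact ae_iff.1 ae_good
  have h1 : ν (proj m ⁻¹' Z) = 0 := by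
    have h2 := (ae_comp_linearMap_mem_iff (proj m) ν volume proj_surjective
      (measurableSet_toMeasurable volume _).compl).2 (compl_mem_ae_iff.2 hZ0)
    exact compl_mem_ae_iff.1 h2
  have h2 := addHaar_image_eq_zero_of_differentiableOn_of_addHaar_eq_zero ν
    (differentiable_Phi hm).differentiableOn h1
  have h3 : ∀ l, ν {q | (q l).re = 0} = 0 := fun l => by
    refine Measure.addHaar_submodule ν (LinearMap.ker
      ((QuaternionAlgebra.reₗ _ _ _ : ℍ[ℝ] →ₗ[ℝ] ℝ).comp (LinearMap.proj l))) fun h => ?_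
    have h4 : (1 : Fin m → ℍ[ℝ]) ∈ LinearMap.ker
        ((QuaternionAlgebra.reₗ _ _ _ : ℍ[ℝ] →ₗ[ℝ] ℝ).comp
          (LinearMap.proj l : (Fin m → ℍ[ℝ]) →ₗ[ℝ] ℍ[ℝ])) := h ▸ Submodule.mem_top
    exact one_ne_zero (LinearMap.mem_ker.1 h4)
  refine measure_mono_null (t := Phi hm '' (proj m ⁻¹' Z) ∪ ⋃ l, {q | (q l).re = 0})
    (fun q hq => ?_) (measure_union_null h2 (measure_iUnion_null h3))
  by_contra hno
  simp only [mem_union, mem_iUnion, mem_ofPred_eq, not_or, not_exists] at hno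
  obtain ⟨p, rfl⟩ := exists_Phi hm q hno.2
  refine hq (Good.conj ?_ _ _)
  by_contra h4
  exact hno.1 ⟨p, subset_toMeasurable _ _ h4, rfl⟩

/-- The group of unit quaternions. -/
abbrev S3 := Metric.sphere (0 : ℍ[ℝ]) 1

lemma continuous_wd (L : List (Fin m × Bool)) : Continuous fun q : Fin m → ℍ[ℝ] => wd q L := by
  induction L with
  | nil => exact continuous_const
  | cons a L ih =>
    simp only [wd_cons]
    refine Continuous.mul ?_ ih
    rcases a with ⟨l, _ | _⟩
    · exact (continuous_apply l).star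
    · exact continuous_apply l

lemma measurableSet_good [MeasurableSpace (Fin m → S3)] [BorelSpace (Fin m → S3)] (θ : ℝ) :
    MeasurableSet {a : Fin m → S3 | Good θ fun l => (a l : ℍ[ℝ])} := by
  have hc : ∀ L, Continuous fun a : Fin m → S3 => wd (fun l => (a l : ℍ[ℝ])) L := fun L =>
    (continuous_wd L).comp (continuous_pi fun l => continuous_subtype_val.comp (continuous_apply l))
  simp only [Good, ofPred_exists, ofPred_forall]
  refine MeasurableSet.iUnion fun C => MeasurableSet.iInter fun L =>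
    MeasurableSet.iInter fun _ => MeasurableSet.iInter fun _ => IsClosed.measurableSet ?_
  exact isClosed_le (continuous_const.mul (hc L).norm) (continuous_im.comp (hc L)).norm

open Classical in
/-- Normalisation of a tuple. -/
noncomputable def nrm (q : Fin m → ℍ[ℝ]) : Fin m → S3 := fun l =>
  if h : q l = 0 then 1 else ⟨‖q l‖⁻¹ • q l, by simp [norm_smul, h]⟩

lemma coe_nrm {q : Fin m → ℍ[ℝ]} {l : Fin m} (h : q l ≠ 0) :
    (nrm q l : ℍ[ℝ]) = ‖q l‖⁻¹ • q l := by simp [nrm, h]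

theorem ae_good_haar (hm : 2 ≤ m) [MeasurableSpace (Fin m → S3)] [BorelSpace (Fin m → S3)]
    (μ : Measure (Fin m → S3)) [μ.IsHaarMeasure] :
    ∀ᵐ a ∂μ, Good ((1 / 2) ^ kk m) fun l => (a l : ℍ[ℝ]) := by
  haveI : ProperSpace ℍ[ℝ] := FiniteDimensional.proper_real _
  letI : MeasurableSpace (Fin m → ℍ[ℝ]) := borel _
  haveI : BorelSpace (Fin m → ℍ[ℝ]) := ⟨rfl⟩
  set ν : Measure (Fin m → ℍ[ℝ]) := Measure.addHaar with hν
  set W : Set (Fin m → ℍ[ℝ]) := {q | ∀ l, q l ≠ 0} ∩ Metric.ball 0 1 with hW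
  have hWo : IsOpen W := by
    refine IsOpen.inter ?_ Metric.isOpen_ball
    simp only [ofPred_forall]
    exact isOpen_iInter_of_finite fun l => isOpen_ne_fun (continuous_apply l) continuous_const
  have hcont : ContinuousOn (nrm : (Fin m → ℍ[ℝ]) → Fin m → S3) W := by
    refine continuousOn_pi.2 fun l => ?_
    rw [Topology.IsInducing.subtypeVal.continuousOn_iff]
    refine ContinuousOn.congr (f := fun q : Fin m → ℍ[ℝ] => ‖q l‖⁻¹ • q l) ?_
      fun q hq => coe_nrm (hq.1 l)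
    exact ((continuous_apply l).norm.continuousOn.inv₀ fun q hq => norm_ne_zero_iff.2 (hq.1 l)).smul
      (continuous_apply l).continuousOn
  have hae := hcont.aemeasurable (μ := ν) hWo.measurableSet
  have happ : ∀ A, MeasurableSet A → (ν.restrict W).map nrm A = ν (nrm ⁻¹' A ∩ W) := fun A hA => by
    rw [Measure.map_apply_of_aemeasurable hae hA, Measure.restrict_apply' hWo.measurableSet]
  haveI : IsFiniteMeasure (ν.restrict W) := isFiniteMeasure_restrict.2
    ((measure_mono inter_subset_right).trans_lt measure_ball_lt_top).ne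
  haveI : ((ν.restrict W).map nrm).IsMulLeftInvariant := by
    refine ⟨fun g => Measure.ext fun A hA => ?_⟩
    rw [Measure.map_apply (measurable_const_mul g) hA, happ _ hA,
      happ _ (measurable_const_mul g hA)]
    have hg : ∀ l, ‖(g l : ℍ[ℝ])‖ = 1 := fun l => norm_eq_of_mem_sphere (g l)
    let M : (Fin m → ℍ[ℝ]) →ₗ[ℝ] (Fin m → ℍ[ℝ]) := LinearMap.mulLeft ℝ fun l => (g l : ℍ[ℝ])
    have hM : ∀ q l, M q l = g l * q l := fun q l => rfl
    have hn : ∀ q l, ‖M q l‖ = ‖q l‖ := fun q l => by rw [hM, norm_mul, hg, one_mul]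
    have hinj : Function.Injective M := (injective_iff_map_eq_zero M).2 fun q hq => by
      funext l
      have := hn q l
      rw [hq] at this
      exact norm_eq_zero.1 (by simpa using this.symm)
    have hWM : M ⁻¹' W = W := by
      ext q
      have h0 : ∀ l, M q l ≠ 0 ↔ q l ≠ 0 := fun l => by
        rw [← norm_ne_zero_iff, hn, norm_ne_zero_iff]
      simp only [hW, mem_preimage, mem_inter_iff, mem_ofPred_eq, mem_ball_zero_iff,
        pi_norm_lt_iff one_pos, h0, hn]
    have hpre : ∀ B, ν (M ⁻¹' B) = ENNReal.ofReal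
        |LinearMap.det ((LinearEquiv.ofInjectiveEndo M hinj).symm :
          (Fin m → ℍ[ℝ]) →ₗ[ℝ] (Fin m → ℍ[ℝ]))| * ν B := fun B =>
      Measure.addHaar_preimage_linearEquiv ν (LinearEquiv.ofInjectiveEndo M hinj) B
    have hball : M ⁻¹' Metric.ball 0 1 = Metric.ball 0 1 := by
      ext q
      simp only [mem_preimage, mem_ball_zero_iff, pi_norm_lt_iff one_pos, hn]
    have h1 := hpre (Metric.ball 0 1)
    rw [hball] at h1
    have h2 : ν (Metric.ball 0 1) ≠ 0 := (Metric.measure_ball_pos ν 0 one_pos).ne'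
    have h3 := (ENNReal.mul_left_inj h2 measure_ball_lt_top.ne).1 ((one_mul _).trans h1)
    have h4 := hpre (nrm ⁻¹' A ∩ W)
    rw [← h3, one_mul] at h4
    rw [← h4, preimage_inter, hWM]
    congr 1
    ext q
    refine and_congr_left fun hq => ?_
    have h5 : nrm (M q) = g * nrm q := by
      funext l
      have h6 : M q l ≠ 0 := by rw [← norm_ne_zero_iff, hn, norm_ne_zero_iff]; exact hq.1 l
      apply Subtype.ext
      rw [coe_nrm h6, hn, hM, Pi.mul_apply, Metric.unitSphere.coe_mul, coe_nrm (hq.1 l),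
        mul_smul_comm]
    simp only [mem_preimage, h5]
  have hne : (ν.restrict W).map nrm ≠ 0 := by
    intro h
    have h1 := happ univ MeasurableSet.univ
    rw [h, preimage_univ, univ_inter] at h1
    refine (hWo.measure_pos ν ⟨fun _ => ((1 / 2 : ℝ) : ℍ[ℝ]), fun l h2 => ?_, ?_⟩).ne' h1.symm
    · have h3 : (1 / 2 : ℝ) = 0 := congrArg QuaternionAlgebra.re h2
      norm_num at h3
    · rw [mem_ball_zero_iff, pi_norm_lt_iff one_pos]
      intro l
      rw [norm_coe]
      norm_num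
  refine absolutelyContinuous_of_isMulLeftInvariant μ _ hne ?_
  refine (happ _ (measurableSet_good _).compl).trans
    (measure_mono_null ?_ (null_not_good hm ν))
  rintro q ⟨h1, h2⟩ h3
  refine h1 ?_
  have h4 := h3.conj (fun l => ‖q l‖⁻¹) 1
  simp only [one_mul, star_one, mul_one] at h4
  have h5 : (fun l => (nrm q l : ℍ[ℝ])) = fun l => ‖q l‖⁻¹ • q l :=
    funext fun l => coe_nrm (h2.1 l)
  simpa only [mem_ofPred_eq, h5] using h4

lemma coe_lift (a : Fin m → S3) (L : List (Fin m × Bool)) :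
    ((FreeGroup.lift a (FreeGroup.mk L) : S3) : ℍ[ℝ]) = wd (fun l => (a l : ℍ[ℝ])) L := by
  rw [FreeGroup.lift_mk]
  induction L with
  | nil => rfl
  | cons b L ih =>
    rw [List.map_cons, List.prod_cons, Metric.unitSphere.coe_mul, ih, wd_cons]
    congr 1
    rcases b with ⟨l, _ | _⟩
    · have h : normSq (a l : ℍ[ℝ]) = 1 := by
        rw [normSq_eq_norm_mul_self, norm_eq_of_mem_sphere, mul_one]
      simp [letter, inv_def, h]
    · rfl

theorem main (hm : 2 ≤ m) [MeasurableSpace (Fin m → S3)] [BorelSpace (Fin m → S3)]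
    (μ : Measure (Fin m → S3)) [μ.IsHaarMeasure] :
    ∀ᵐ a ∂μ, ∃ C : ℝ, ∀ w : FreeGroup (Fin m), w ≠ 1 → ∀ r : ℝ,
      Real.exp (-(C * (w.norm : ℝ) ^ (2 - (1 / 2 : ℝ) ^ (3 * m - 3)) * Real.log (w.norm + 2))) ≤
        ‖((FreeGroup.lift a w : S3) : ℍ[ℝ]) - r‖ := by
  filter_upwards [ae_good_haar hm μ] with a ⟨C, hC⟩
  refine ⟨C, fun w hw r => ?_⟩
  have h1 := FreeGroup.toWord_eq_nil_iff.not.2 hw
  have h2 := hC w.toWord FreeGroup.isReduced_toWord h1
  rw [← coe_lift, FreeGroup.mk_toWord, norm_eq_of_mem_sphere, mul_one] at h2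
  refine le_trans ?_ (h2.trans (norm_im_le _ r))
  have h3 : (1 : ℝ) ≤ w.toWord.length := by exact_mod_cast List.length_pos_iff.2 h1
  have h4 := log_two_le w.toWord.length
  have h5 : ((1 / 2 : ℝ)) ^ (3 * m - 3) ≤ (1 / 2) ^ kk m :=
    pow_le_pow_of_le_one (by norm_num) (by norm_num) (kk_le hm)
  rw [Real.exp_le_exp, neg_le_neg_iff, FreeGroup.norm, mul_assoc]
  gcongr

end SubQuad
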