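import Pool.Agent.P.MP_923088_al.Rep
import Pool.Agent.P.MP_923088_al.Spec
import Pool.Agent.P.MP_923088_al.Boot

/-! The averaging operator on the spaces of homogeneous polynomials. -/

namespace Pool.Agent.P.MP_923088_al

open ComplexConjugate Module MeasureTheory

/-- The averaging operator on continuous functions. -/
noncomputable def Tp (S : Finset SU2) : Module.End ℂ CF :=
  (1 / (S.card : ℂ)) • ∑ s ∈ S, (Lt s).toLinearMap

/-- The averaging operator on homogeneous polynomials of degree `k`. -/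
noncomputable def Tk (S : Finset SU2) (k : ℕ) : Module.End ℂ (V k) :=
  (1 / (S.card : ℂ)) • ∑ s ∈ S, rho k s

lemma Tp_eq (S : Finset SU2) (f : CF) : Tp S f = (1 / (S.card : ℂ)) • ∑ s ∈ S, Lt s f := by
  simp [Tp, LinearMap.sum_apply]

lemma Tp_apply (S : Finset SU2) (f : CF) (x : SU2) :
    Tp S f x = (1 / (S.card : ℂ)) * ∑ s ∈ S, f (s * x) := by
  rw [Tp_eq, ContinuousMap.smul_apply, ContinuousMap.sum_apply]; rfl

lemma Tk_val (S : Finset SU2) (k : ℕ) (v : V k) : (Tk S k v : CF) = Tp S v := by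
  rw [Tp_eq, Tk, LinearMap.smul_apply, LinearMap.sum_apply, Submodule.coe_smul,
    Submodule.coe_sum]
  rfl

/-- The averaging operator on real functions. -/
noncomputable def Aop (S : Finset SU2) : Module.End ℝ (SU2 → ℝ) :=
  (1 / (S.card : ℝ)) • ∑ s ∈ S, LinearMap.funLeft ℝ ℝ (fun x => s * x)

lemma Aop_apply (S : Finset SU2) (φ : SU2 → ℝ) (x : SU2) :
    Aop S φ x = (1 / (S.card : ℝ)) * ∑ s ∈ S, φ (s * x) := by
  simp [Aop, LinearMap.sum_apply, Finset.sum_apply, LinearMap.funLeft_apply]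

lemma Aop_pow_nonneg (S : Finset SU2) {φ : SU2 → ℝ} (h : ∀ x, 0 ≤ φ x) (j : ℕ) :
    ∀ x, 0 ≤ (Aop S ^ j) φ x := by
  induction j with
  | zero => simpa using h
  | succ j ih =>
    intro x
    rw [pow_succ', Module.End.mul_apply, Aop_apply]
    exact mul_nonneg (by positivity) (Finset.sum_nonneg fun s _ => ih _)

lemma Aop_pow_le (S : Finset SU2) {φ : SU2 → ℝ} (h : ∀ x, φ x ≤ 1) (j : ℕ) :
    ∀ x, (Aop S ^ j) φ x ≤ 1 := by
  induction j with
  | zero => simpa using h
  | succ j ih =>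
    intro x
    rw [pow_succ', Module.End.mul_apply, Aop_apply]
    have a1 : ∑ s ∈ S, (Aop S ^ j) φ (s * x) ≤ ∑ s ∈ S, (1 : ℝ) :=
      Finset.sum_le_sum fun s _ => ih _
    rw [Finset.sum_const, nsmul_eq_mul, mul_one] at a1
    calc _ ≤ (1 / (S.card : ℝ)) * S.card := by gcongr
      _ ≤ 1 := by rw [one_div, inv_mul_eq_div]; exact div_self_le_one _

/-- Expectation of a class function after `2 * n` steps. -/
noncomputable def Lam (S : Finset SU2) (n : ℕ) : (ℝ → ℝ) →ₗ[ℝ] ℝ :=
  (LinearMap.proj (1 : SU2)) ∘ₗ (Aop S ^ (2 * n)) ∘ₗ LinearMap.funLeft ℝ ℝ hc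

lemma Lam_apply (S : Finset SU2) (n : ℕ) (F : ℝ → ℝ) :
    Lam S n F = (Aop S ^ (2 * n)) (fun y => F (hc y)) 1 := rfl

lemma trace_Tk (S : Finset SU2) (k j : ℕ) : ∀ x : SU2,
    LinearMap.trace ℂ (V k) (rho k x * Tk S k ^ j)
      = (((Aop S ^ j) (fun y => u k (hc y)) x : ℝ) : ℂ) := by
  induction j with
  | zero => intro x; simp [trace_rho]
  | succ j ih =>
    intro x
    rw [pow_succ', pow_succ', Module.End.mul_apply, Aop_apply, ← mul_assoc]
    nth_rewrite 1 [Tk]
    rw [mul_smul_comm, smul_mul_assoc, map_smul, Finset.mul_sum, Finset.sum_mul, map_sum,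
      smul_eq_mul]
    push_cast
    congr 1
    apply Finset.sum_congr rfl
    intro s _
    rw [← rho_mul, ih]

variable [MeasurableSpace SU2] [BorelSpace SU2] (m : Measure SU2) [m.IsHaarMeasure]
  [IsProbabilityMeasure m]

/-- The embedding in the space of square integrable functions. -/
noncomputable def io : CF →ₗ[ℂ] Lp ℂ 2 m := (ContinuousMap.toLp 2 m ℂ).toLinearMap

lemma io_inj : Function.Injective (io m) := ContinuousMap.toLp_injective m

omit [m.IsHaarMeasure] in
lemma inner_io (f g : CF) : inner ℂ (io m f) (io m g) = ∫ x, g x * conj (f x) ∂m :=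
  ContinuousMap.inner_toLp m f g

omit [m.IsHaarMeasure] in
lemma norm_io (f : CF) : ‖io m f‖ = Real.sqrt (∫ x, ‖f x‖ ^ 2 ∂m) := by
  rw [@norm_eq_sqrt_re_inner ℂ, inner_io]
  congr 1
  have e : ∀ x, f x * conj (f x) = ((‖f x‖ ^ 2 : ℝ) : ℂ) := by
    intro x; rw [Complex.mul_conj, Complex.normSq_eq_norm_sq]
  simp only [e]
  rw [integral_complex_ofReal]
  simp

lemma inner_Lt (s : SU2) (f g : CF) :
    inner ℂ (io m (Lt s f)) (io m g) = inner ℂ (io m f) (io m (Lt s⁻¹ g)) := by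
  rw [inner_io, inner_io, ← integral_mul_left_eq_self (fun x => Lt s⁻¹ g x * conj (f x)) s]
  simp only [Lt_apply, inv_mul_cancel_left]

lemma norm_Lt (s : SU2) (f : CF) : ‖io m (Lt s f)‖ = ‖io m f‖ := by
  rw [norm_io, norm_io, ← integral_mul_left_eq_self (fun x => ‖f x‖ ^ 2) s]
  simp only [Lt_apply]

lemma Tp_symm {S : Finset SU2} (hinv : ∀ s ∈ S, s⁻¹ ∈ S) (f g : CF) :
    inner ℂ (io m (Tp S f)) (io m g) = inner ℂ (io m f) (io m (Tp S g)) := by
  rw [Tp_eq, Tp_eq, map_smul, map_smul, map_sum, map_sum, inner_smul_left, inner_smul_right,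
    sum_inner, inner_sum]
  congr 1
  · simp
  · apply Finset.sum_nbij' (fun s => s⁻¹) (fun s => s⁻¹) hinv hinv
    · intro s _; exact inv_inv s
    · intro s _; exact inv_inv s
    · intro s _; exact inner_Lt m s f g

include m in
lemma Lt_eq_of_eig {S : Finset SU2} {f : CF} (hf : f ≠ 0) {μ : ℂ} (hμ : 1 ≤ ‖μ‖)
    (h : Tp S f = μ • f) : S.Nonempty ∧ ∀ s ∈ S, Lt s f = μ • f := by
  have hne : S.Nonempty := by
    rw [Finset.nonempty_iff_ne_empty]
    rintro rfl
    rw [Tp_eq, Finset.sum_empty, smul_zero] at h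
    rcases smul_eq_zero.mp h.symm with h0 | h0
    · rw [h0, norm_zero] at hμ; linarith
    · exact hf h0
  have c0 : (S.card : ℂ) ≠ 0 := by exact_mod_cast hne.card_pos.ne'
  refine ⟨hne, fun s hs => io_inj m ?_⟩
  rw [map_smul]
  apply eq_of_avg S (fun s => io m (Lt s f)) (io m f) μ hμ (fun s _ => norm_Lt m s f) _ s hs
  rw [← map_smul, ← h, Tp_eq, map_smul, map_sum, smul_smul, mul_one_div_cancel c0, one_smul]

include m in
lemma eig_le_one {S : Finset SU2} {f : CF} (hf : f ≠ 0) {μ : ℂ} (h : Tp S f = μ • f) :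
    ‖μ‖ ≤ 1 := by
  by_contra hc
  have hc' : 1 < ‖μ‖ := not_le.mp hc
  obtain ⟨⟨s, hs⟩, h2⟩ := Lt_eq_of_eig m hf hc'.le h
  have e := norm_Lt m s f
  rw [h2 s hs, map_smul, norm_smul] at e
  have p : 0 < ‖io m f‖ := norm_pos_iff.mpr (fun h0 => hf (io_inj m (by rw [h0, map_zero])))
  nlinarith

include m in
lemma eig_lt_one {S : Finset SU2} (hS : Dense ((Subgroup.closure (S : Set SU2)) : Set SU2))
    {k : ℕ} (hk : 1 ≤ k) {f : CF} (hV : f ∈ V k) (hf : f ≠ 0) {μ : ℝ}
    (h : Tp S f = (μ : ℂ) • f) : |μ| < 1 := by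
  have le1 := eig_le_one m hf h
  rw [Complex.norm_real, Real.norm_eq_abs] at le1
  by_contra hc
  have e1 : |μ| = 1 := le_antisymm le1 (not_lt.mp hc)
  have e2 : (μ : ℂ) ^ 2 = 1 := by
    rw [← Complex.ofReal_pow, ← sq_abs, e1]; simp
  obtain ⟨-, h2⟩ := Lt_eq_of_eig m hf (by rw [Complex.norm_real, Real.norm_eq_abs, e1]) h
  let K : Subgroup SU2 :=
    { carrier := {g | ∀ x, f (g * x) ^ 2 = f x ^ 2}
      mul_mem' := by
        intro a b ha hb x
        rw [mul_assoc, ha, hb]
      one_mem' := by intro x; rw [one_mul]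
      inv_mem' := by
        intro a ha x
        rw [← ha (a⁻¹ * x), mul_inv_cancel_left] }
  have K1 : Subgroup.closure (S : Set SU2) ≤ K := by
    rw [Subgroup.closure_le]
    intro s hs x
    have := congrArg (fun F : CF => F x) (h2 s hs)
    simp only [Lt_apply, ContinuousMap.smul_apply, smul_eq_mul] at this
    rw [this, mul_pow, e2, one_mul]
  have K2 : IsClosed (K : Set SU2) := by
    have : (K : Set SU2) = ⋂ x, {g | f (g * x) ^ 2 = f x ^ 2} := by
      ext g; simp only [Set.mem_iInter]; rfl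
    rw [this]
    apply isClosed_iInter
    intro x
    exact isClosed_eq ((f.continuous.comp (continuous_id.mul continuous_const)).pow 2)
      continuous_const
  have K3 : ∀ g, f g ^ 2 = f 1 ^ 2 := by
    intro g
    have : g ∈ (K : Set SU2) := by
      have := closure_minimal (show ((Subgroup.closure (S : Set SU2)) : Set SU2) ⊆ K from K1) K2
      exact this (hS g)
    simpa using this 1
  obtain ⟨z, hz, hp⟩ := exists_prim (2 * k + 1) (by omega)
  have z1 : z ^ (2 * k) ≠ 1 := hp.pow_ne_one_of_pos_of_lt (by omega) (by omega)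
  have r := congrArg (fun F : CF => F 1) (Rt_dg z hz hV)
  simp only [Rt_apply, ContinuousMap.smul_apply, smul_eq_mul] at r
  have r2 := K3 (1 * dg z hz)
  rw [r, mul_pow, ← pow_mul, mul_comm k 2] at r2
  have f1 : f 1 ^ 2 = 0 := by
    by_contra h0
    exact z1 (mul_right_cancel₀ h0 (by rw [r2, one_mul]))
  apply hf
  ext g
  have := K3 g
  rw [f1] at this
  simpa using this

include m in
theorem exists_eig {S : Finset SU2} (hinv : ∀ s ∈ S, s⁻¹ ∈ S)
    (hS : Dense ((Subgroup.closure (S : Set SU2)) : Set SU2)) :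
    ∃ c : ℝ, 0 < c ∧ ∀ D k : ℕ, 1 ≤ k → k ≤ D + 1 →
      0 ≤ 1 - c / Real.log (D + 2) ^ (131 / 100 : ℝ) ∧
      V k ≤ ⨆ μ : {μ : ℂ // ‖μ‖ ≤ 1 - c / Real.log (D + 2) ^ (131 / 100 : ℝ)},
        Module.End.eigenspace (Tp S) μ.1 := by
  have ex : ∀ k, ∃ (b : Basis (Fin (finrank ℂ (V k))) ℂ (V k)) (μ : Fin (finrank ℂ (V k)) → ℝ),
      ∀ i, Tk S k (b i) = (μ i : ℂ) • b i := by
    intro k
    apply exists_eigenbasis (io m ∘ₗ (V k).subtype) ((io_inj m).comp Subtype.val_injective)
    intro x y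
    simp only [LinearMap.comp_apply, Submodule.subtype_apply, Tk_val]
    exact Tp_symm m hinv _ _
  choose b μ hb using ex
  have hb' : ∀ k i, Tp S (b k i) = (μ k i : ℂ) • (b k i : CF) := by
    intro k i
    rw [← Tk_val, hb, Submodule.coe_smul]
  have bne : ∀ k i, (b k i : CF) ≠ 0 := fun k i h0 =>
    (b k).ne_zero i (Subtype.ext h0)
  have tr : ∀ n k, Lam S n (u k) = ∑ i, |μ k i| ^ (2 * n) := by
    intro n k
    have t1 := trace_Tk S k (2 * n) 1
    rw [rho_one, one_mul, trace_pow_eq (b k) (fun i => (μ k i : ℂ)) _ (hb k), ← Lam_apply] at t1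
    have t2 : Lam S n (u k) = ∑ i, μ k i ^ (2 * n) := by exact_mod_cast t1.symm
    rw [t2]
    apply Finset.sum_congr rfl
    intro i _
    rw [pow_mul, pow_mul, sq_abs]
  have pos : ∀ n, IsPos (Lam S n) := fun n =>
    ⟨fun F hF => Aop_pow_nonneg S (fun y => hF _ (abs_hc_le y)) _ 1,
      fun k => by rw [tr]; positivity⟩
  have mx : ∀ k, ∃ l : ℝ, 0 ≤ l ∧ (∀ i, |μ k i| ≤ l) ∧ ∃ i, l = |μ k i| := by
    intro k
    have hne : Nonempty (Fin (finrank ℂ (V k))) := by
      rw [finrank_eq_card_basis (bV k)]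
      exact ⟨⟨0, by simp⟩⟩
    obtain ⟨i, hi⟩ := Finite.exists_max (fun i => |μ k i|)
    exact ⟨_, abs_nonneg _, hi, i, rfl⟩
  choose lam l0 l1 l2 using mx
  have d : Data (fun n k => Lam S n (u k)) lam :=
    { nn := fun n k => (pos n).nn k
      zero := fun n => Aop_pow_le S (fun y => le_rfl) _ 1
      l0 := l0
      l1 := by
        intro k
        obtain ⟨i, hi⟩ := l2 k
        have := eig_le_one m (bne k i) (hb' k i)
        rwa [Complex.norm_real, Real.norm_eq_abs, ← hi] at this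
      l2 := by
        intro k hk
        obtain ⟨i, hi⟩ := l2 k
        rw [hi]
        exact eig_lt_one m hS hk (b k i).2 (bne k i) (hb' k i)
      P1a := by
        intro n k
        obtain ⟨i, hi⟩ := l2 k
        rw [hi, tr]
        exact Finset.single_le_sum (f := fun i => |μ k i| ^ (2 * n)) (fun j _ => by positivity)
          (Finset.mem_univ i)
      P1b := by
        intro n t k
        rw [tr, tr, Finset.sum_mul]
        apply Finset.sum_le_sum
        intro i _
        rw [mul_add, pow_add]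
        have := l1 k i
        gcongr
      P2 := fun n N N' h1 h2 => (pos n).P2 h1 h2
      P3 := fun n N k h1 h2 h3 => (pos n).P3 h1 h2 h3 }
  obtain ⟨c, c0, hc⟩ := d.gap
  refine ⟨c, c0, fun D k h1 h2 => ⟨(l0 k).trans (hc D k h1 h2), fun f hf => ?_⟩⟩
  have e : f = ∑ i, (b k).repr ⟨f, hf⟩ i • (b k i : CF) := by
    have := congrArg Subtype.val ((b k).sum_repr ⟨f, hf⟩)
    rw [Submodule.coe_sum] at this
    exact this.symm
  rw [e]
  apply Submodule.sum_mem
  intro i _
  apply Submodule.smul_mem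
  apply Submodule.mem_iSup_of_mem ⟨(μ k i : ℂ), by
    rw [Complex.norm_real, Real.norm_eq_abs]; exact (l1 k i).trans (hc D k h1 h2)⟩
  exact Module.End.mem_eigenspace_iff.mpr (hb' k i)

end Pool.Agent.P.MP_923088_al
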