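import Pool.Agent.P.MP_923088_al.Family

/-! Words in quaternions with polynomial entries. -/

open MeasureTheory Set Quaternion
open scoped ENNReal

namespace SubQuad

variable {m : ℕ}

section ring

variable {R S : Type*} [CommRing R] [CommRing S]

/-- A letter: the quaternion or its conjugate. -/
def letter (q : Fin m → ℍ[R]) (a : Fin m × Bool) : ℍ[R] := cond a.2 (q a.1) (star (q a.1))

/-- The value of a word. -/
def wd (q : Fin m → ℍ[R]) (L : List (Fin m × Bool)) : ℍ[R] := (L.map (letter q)).prod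

lemma wd_nil (q : Fin m → ℍ[R]) : wd q [] = 1 := rfl

lemma wd_cons (q : Fin m → ℍ[R]) (a : Fin m × Bool) (L : List (Fin m × Bool)) :
    wd q (a :: L) = letter q a * wd q L := by simp [wd]

/-- The quaternion with real part one and given imaginary part. -/
def qv (y : Fin m → Fin 3 → R) (l : Fin m) : ℍ[R] := ⟨1, y l 0, y l 1, y l 2⟩

/-- Imaginary components. -/
def comp (q : ℍ[R]) (c : Fin 3) : R := ![q.imI, q.imJ, q.imK] c

/-- Componentwise image of a quaternion. -/
def qmap (φ : R →+* S) (q : ℍ[R]) : ℍ[S] := ⟨φ q.re, φ q.imI, φ q.imJ, φ q.imK⟩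

lemma qmap_mul (φ : R →+* S) (p q : ℍ[R]) : qmap φ (p * q) = qmap φ p * qmap φ q := by
  ext <;> simp [qmap]

lemma qmap_wd (φ : R →+* S) (y : Fin m → Fin 3 → R) (L : List (Fin m × Bool)) :
    qmap φ (wd (qv y) L) = wd (qv fun l c => φ (y l c)) L := by
  induction L with
  | nil => ext <;> simp [qmap, wd_nil]
  | cons a L ih =>
    rw [wd_cons, wd_cons, qmap_mul, ih]
    congr 1
    rcases a with ⟨l, _ | _⟩ <;> ext <;> simp [qmap, letter, qv]

lemma comp_qmap (φ : R →+* S) (q : ℍ[R]) (c : Fin 3) : comp (qmap φ q) c = φ (comp q c) := by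
  fin_cases c <;> rfl

lemma sandwich (e x : ℍ[R]) (h : normSq e = 0) : e * x * e = (2 * (e * x).re) • e := by
  have h1 : e * x * e = (2 * (e * x).re) • e - normSq e • star x := by
    ext <;> simp [normSq_def'] <;> ring
  rw [h1, h, zero_smul, sub_zero]

end ring

/-- An isotropic complex specialisation. -/
noncomputable def iso (l : Fin m) (c : Fin 3) : ℂ :=
  ![Complex.I * Complex.cosh (l : ℕ), Complex.sinh (l : ℕ), 0] c

lemma normSq_iso (a : Fin m × Bool) : normSq (letter (qv iso) a) = 0 := by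
  have h := Complex.cosh_sq ((a.1 : ℕ) : ℂ)
  have h1 : normSq (qv iso a.1) = 0 := by
    rw [normSq_def']
    simp only [qv, iso, Matrix.cons_val_zero, Matrix.cons_val_one, Matrix.cons_val]
    rw [mul_pow, Complex.I_sq, h]
    ring
  rcases a with ⟨l, _ | _⟩
  · simpa [letter] using h1
  · simpa [letter] using h1

lemma re_iso (a b : Fin m × Bool) (h : a.1 = b.1 → a.2 = b.2) :
    (letter (qv iso) b * letter (qv iso) a).re ≠ 0 := by
  have h1 := Complex.cosh_sub ((b.1 : ℕ) : ℂ) ((a.1 : ℕ) : ℂ)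
  have h2 : Complex.cosh (((b.1 : ℕ) : ℂ) - ((a.1 : ℕ) : ℂ)) =
      (Real.cosh (((b.1 : ℕ) : ℝ) - ((a.1 : ℕ) : ℝ)) : ℝ) := by push_cast; rfl
  have h3 : (1 : ℂ) + Complex.cosh (((b.1 : ℕ) : ℂ) - ((a.1 : ℕ) : ℂ)) ≠ 0 := by
    rw [h2]
    have := Real.cosh_pos (((b.1 : ℕ) : ℝ) - ((a.1 : ℕ) : ℝ))
    exact_mod_cast (by linarith : (1 : ℝ) + Real.cosh (((b.1 : ℕ) : ℝ) - ((a.1 : ℕ) : ℝ)) ≠ 0)
  have h4 : a.1 ≠ b.1 → (1 : ℂ) - Complex.cosh (((b.1 : ℕ) : ℂ) - ((a.1 : ℕ) : ℂ)) ≠ 0 := by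
    intro hne
    rw [h2]
    have h5 : (((b.1 : ℕ) : ℝ) - ((a.1 : ℕ) : ℝ)) ≠ 0 := by
      rw [sub_ne_zero]
      exact fun h6 => hne (Fin.ext (by exact_mod_cast h6.symm))
    have := Real.one_lt_cosh.2 h5
    exact_mod_cast (by linarith : (1 : ℝ) - Real.cosh (((b.1 : ℕ) : ℝ) - ((a.1 : ℕ) : ℝ)) ≠ 0)
  have hI := Complex.I_sq
  rcases a with ⟨l, _ | _⟩ <;> rcases b with ⟨l', _ | _⟩ <;>
    simp only [letter, qv, iso, cond_true, cond_false, re_mul, re_star, imI_star, imJ_star,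
      imK_star, Matrix.cons_val_zero, Matrix.cons_val_one, Matrix.cons_val] at * <;> intro h5
  · exact h3 (by rw [h1]; linear_combination h5 + (Complex.cosh (l' : ℕ) * Complex.cosh (l : ℕ)) * hI)
  · exact h4 (fun h6 => absurd (h h6) (by decide))
      (by rw [h1]; linear_combination h5 - (Complex.cosh (l' : ℕ) * Complex.cosh (l : ℕ)) * hI)
  · exact h4 (fun h6 => absurd (h h6) (by decide))
      (by rw [h1]; linear_combination h5 - (Complex.cosh (l' : ℕ) * Complex.cosh (l : ℕ)) * hI)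
  · exact h3 (by rw [h1]; linear_combination h5 + (Complex.cosh (l' : ℕ) * Complex.cosh (l : ℕ)) * hI)

lemma wd_iso_ne_zero : ∀ (L : List (Fin m × Bool)) (a : Fin m × Bool),
    FreeGroup.IsReduced (a :: L) → wd (qv iso) (a :: L) ≠ 0 := by
  intro L
  induction L with
  | nil =>
    intro a _ h
    have := congrArg QuaternionAlgebra.re h
    rcases a with ⟨l, _ | _⟩ <;> simp [wd, letter, qv] at this
  | cons b L ih =>
    intro a h h0
    rw [FreeGroup.isReduced_cons_cons] at h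
    refine ih b h.2 ?_
    rw [wd_cons, wd_cons] at h0
    have h1 : (letter (qv iso) b * letter (qv iso) a * letter (qv iso) b) * wd (qv iso) L = 0 := by
      rw [mul_assoc, mul_assoc, h0, mul_zero]
    rw [sandwich _ _ (normSq_iso b), smul_mul_assoc, smul_eq_zero] at h1
    rw [wd_cons]
    exact h1.resolve_left (mul_ne_zero two_ne_zero (re_iso a b h.1))

lemma exists_comp_iso {L : List (Fin m × Bool)} (h : FreeGroup.IsReduced L) (hL : L ≠ []) :
    ∃ c, comp (wd (qv iso) L) c ≠ 0 := by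
  obtain ⟨a, L, rfl⟩ := List.exists_cons_of_ne_nil hL
  by_contra hno
  push Not at hno
  have h0 := hno 0
  have h1 := hno 1
  have h2 := hno 2
  simp only [comp, Matrix.cons_val_zero, Matrix.cons_val_one, Matrix.cons_val] at h0 h1 h2
  have h3 : normSq (wd (qv iso) (a :: L)) = 0 := by
    rw [wd_cons, map_mul, normSq_iso, zero_mul]
  rw [normSq_def', h0, h1, h2] at h3
  refine wd_iso_ne_zero L a h ?_
  ext
  · simpa using h3
  · exact h0
  · exact h1
  · exact h2

/-- The free coordinates of the normal form. -/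
abbrev V (m : ℕ) := {p : Fin m × Fin 3 // (p.2 : ℕ) ≤ p.1}

/-- Number of free coordinates. -/
abbrev kk (m : ℕ) : ℕ := Fintype.card (V m)

lemma kk_le (hm : 2 ≤ m) : kk m ≤ 3 * m - 3 := by
  classical
  have h1 : kk m = (Finset.univ.filter fun p : Fin m × Fin 3 => (p.2 : ℕ) ≤ p.1).card :=
    Fintype.card_subtype _
  have h2 := Finset.card_filter_add_card_filter_not (s := Finset.univ)
    (fun p : Fin m × Fin 3 => (p.2 : ℕ) ≤ p.1)
  have h3 : ({(⟨0, by omega⟩, 1), (⟨0, by omega⟩, 2), (⟨1, by omega⟩, 2)} :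
      Finset (Fin m × Fin 3)) ⊆ Finset.univ.filter fun p => ¬ (p.2 : ℕ) ≤ p.1 := by
    intro p hp
    simp only [Finset.mem_insert, Finset.mem_singleton] at hp
    rcases hp with rfl | rfl | rfl <;> simp
  have h4 := Finset.card_le_card h3
  rw [Finset.card_eq_three.2 ⟨_, _, _, by simp, by simp, by simp, rfl⟩] at h4
  simp only [Finset.card_univ, Fintype.card_prod, Fintype.card_fin] at h2
  omega

/-- The normal form with parameters `x`. -/
noncomputable def par {R : Type*} [Zero R] (x : Fin (kk m) → R) (l : Fin m) (c : Fin 3) : R :=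
  if h : (c : ℕ) ≤ l then x (Fintype.equivFin (V m) ⟨(l, c), h⟩) else 0

/-- The generic word. -/
noncomputable def gw (L : List (Fin m × Bool)) : ℍ[MvPolynomial (Fin (kk m)) ℤ] :=
  wd (qv (par MvPolynomial.X)) L

lemma aeval_gw {S : Type*} [CommRing S] (x : Fin (kk m) → S) (L : List (Fin m × Bool))
    (c : Fin 3) : MvPolynomial.aeval x (comp (gw L) c) = comp (wd (qv (par x)) L) c := by
  have h := comp_qmap (MvPolynomial.aeval x : MvPolynomial (Fin (kk m)) ℤ →ₐ[ℤ] S).toRingHom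
    (gw L) c
  rw [gw, qmap_wd] at h
  refine h.symm.trans ?_
  congr 3
  funext l c
  simp only [par]
  split_ifs <;> simp

lemma exists_comp {L : List (Fin m × Bool)} (h : FreeGroup.IsReduced L) (hL : L ≠ []) :
    ∃ c, comp (gw L) c ≠ 0 := by
  obtain ⟨c, hc⟩ := exists_comp_iso h hL
  refine ⟨c, fun h0 => hc ?_⟩
  have h1 := aeval_gw (fun j => iso ((Fintype.equivFin (V m)).symm j).1.1
    ((Fintype.equivFin (V m)).symm j).1.2) L c
  rw [h0, map_zero] at h1
  rw [h1]
  congr 3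
  funext l c
  simp only [par, Equiv.symm_apply_apply]
  split_ifs with h2
  · rfl
  · fin_cases c
    · simp at h2
    · have h3 : (l : ℕ) = 0 := by simpa using h2
      simp [iso, h3]
    · simp [iso]

/-- All components have degree at most `n`. -/
def QDeg {k : ℕ} (q : ℍ[MvPolynomial (Fin k) ℤ]) (n : ℕ) : Prop :=
  q.re.totalDegree ≤ n ∧ q.imI.totalDegree ≤ n ∧ q.imJ.totalDegree ≤ n ∧ q.imK.totalDegree ≤ n

lemma QDeg.mul {k a b : ℕ} {p q : ℍ[MvPolynomial (Fin k) ℤ]} (hp : QDeg p a) (hq : QDeg q b) :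
    QDeg (p * q) (a + b) := by
  obtain ⟨p0, p1, p2, p3⟩ := hp
  obtain ⟨q0, q1, q2, q3⟩ := hq
  have hm : ∀ {f g : MvPolynomial (Fin k) ℤ}, f.totalDegree ≤ a → g.totalDegree ≤ b →
      (f * g).totalDegree ≤ a + b := fun hf hg =>
    (MvPolynomial.totalDegree_mul _ _).trans (add_le_add hf hg)
  have ha : ∀ {f g : MvPolynomial (Fin k) ℤ}, f.totalDegree ≤ a + b → g.totalDegree ≤ a + b →
      (f + g).totalDegree ≤ a + b := fun hf hg =>
    (MvPolynomial.totalDegree_add _ _).trans (max_le hf hg)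
  have hs : ∀ {f g : MvPolynomial (Fin k) ℤ}, f.totalDegree ≤ a + b → g.totalDegree ≤ a + b →
      (f - g).totalDegree ≤ a + b := fun hf hg =>
    (MvPolynomial.totalDegree_sub _ _).trans (max_le hf hg)
  refine ⟨?_, ?_, ?_, ?_⟩
  · rw [re_mul]
    exact hs (hs (hs (hm p0 q0) (hm p1 q1)) (hm p2 q2)) (hm p3 q3)
  · rw [imI_mul]
    exact hs (ha (ha (hm p0 q1) (hm p1 q0)) (hm p2 q3)) (hm p3 q2)
  · rw [imJ_mul]
    exact ha (ha (hs (hm p0 q2) (hm p1 q3)) (hm p2 q0)) (hm p3 q1)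
  · rw [imK_mul]
    exact ha (hs (ha (hm p0 q3) (hm p1 q2)) (hm p2 q1)) (hm p3 q0)

lemma qdeg_gw (L : List (Fin m × Bool)) : QDeg (gw L) L.length := by
  have h1 : ∀ l c, (par (MvPolynomial.X : Fin (kk m) → MvPolynomial (Fin (kk m)) ℤ)
      l c).totalDegree ≤ 1 := fun l c => by
    simp only [par]
    split_ifs <;> simp
  induction L with
  | nil => simp [QDeg, gw, wd_nil]
  | cons a L ih =>
    rw [gw, wd_cons, List.length_cons, add_comm]
    refine QDeg.mul ?_ ih
    rcases a with ⟨l, _ | _⟩ <;> simp [QDeg, letter, qv, h1]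

lemma comp_degree (L : List (Fin m × Bool)) (c : Fin 3) :
    (comp (gw L) c).totalDegree ≤ L.length := by
  obtain ⟨-, h1, h2, h3⟩ := qdeg_gw L
  fin_cases c
  · exact h1
  · exact h2
  · exact h3

lemma abs_comp_le (q : ℍ[ℝ]) (c : Fin 3) : |comp q c| ≤ ‖q.im‖ := by
  refine abs_le_of_sq_le_sq' ?_ (norm_nonneg _) |> abs_le.2
  rw [sq ‖q.im‖, ← normSq_eq_norm_mul_self, normSq_def']
  fin_cases c <;> simp [comp] <;> nlinarith [sq_nonneg q.imI, sq_nonneg q.imJ, sq_nonneg q.imK]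

lemma norm_im_le (q : ℍ[ℝ]) (r : ℝ) : ‖q.im‖ ≤ ‖q - r‖ := by
  refine le_of_sq_le_sq ?_ (norm_nonneg _)
  rw [sq, sq, ← normSq_eq_norm_mul_self, ← normSq_eq_norm_mul_self, normSq_def', normSq_def']
  simp
  positivity

lemma norm_wd_le {q : Fin m → ℍ[ℝ]} {b : ℝ} (h : ∀ l, ‖q l‖ ≤ b) (L : List (Fin m × Bool)) :
    ‖wd q L‖ ≤ b ^ L.length := by
  induction L with
  | nil => simp [wd_nil]
  | cons a L ih =>
    rw [wd_cons, norm_mul, List.length_cons, pow_succ']
    have h1 : ‖letter q a‖ ≤ b := by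
      rcases a with ⟨l, _ | _⟩
      · simpa [letter] using h l
      · simpa [letter] using h l
    exact mul_le_mul h1 ih (norm_nonneg _) ((norm_nonneg _).trans h1)

lemma norm_qv_le {T : ℝ} (hT : 1 ≤ T) {x : Fin (kk m) → ℝ} (hx : x ∈ cube (kk m) T) (l : Fin m) :
    ‖qv (par x) l‖ ≤ Real.exp (2 * T) := by
  have h1 : ∀ c, par x l c ^ 2 ≤ T ^ 2 := fun c => by
    refine sq_le_sq' ?_ ?_ <;> simp only [par] <;> split_ifs
    · exact (abs_le.1 (mem_cube.1 hx _)).1
    · linarith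
    · exact (abs_le.1 (mem_cube.1 hx _)).2
    · linarith
  refine le_trans (le_of_sq_le_sq (b := 2 * T) ?_ (by linarith)) ?_
  · rw [sq, ← normSq_eq_norm_mul_self, normSq_def']
    simp only [qv]
    nlinarith [h1 0, h1 1, h1 2]
  · linarith [Real.add_one_le_exp (2 * T)]

/-- The lower bound for all reduced words. -/
def Good (θ : ℝ) (q : Fin m → ℍ[ℝ]) : Prop :=
  ∃ C : ℕ, ∀ L : List (Fin m × Bool), FreeGroup.IsReduced L → L ≠ [] →
    Real.exp (-(C * ((L.length : ℝ) ^ (2 - θ) * Real.log (L.length + 2)))) * ‖wd q L‖ ≤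
      ‖(wd q L).im‖

lemma ae_good_cube {T : ℝ} (hT : 1 ≤ T) : ∀ᵐ x : Fin (kk m) → ℝ, x ∈ cube (kk m) T →
    Good ((1 / 2) ^ kk m) (qv (par x)) := by
  classical
  set F : ℕ → Finset (List (Fin m × Bool)) := fun N =>
    ((Finset.univ : Finset (Fin N → Fin m × Bool)).image List.ofFn).filter
      fun L => FreeGroup.IsReduced L ∧ L ≠ [] with hF
  have hmem : ∀ N L, L ∈ F N ↔ L.length = N ∧ FreeGroup.IsReduced L ∧ L ≠ [] := fun N L => by
    simp only [hF, Finset.mem_filter, Finset.mem_image, Finset.mem_univ, true_and]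
    refine and_congr_left fun _ => ⟨?_, ?_⟩
    · rintro ⟨g, rfl⟩
      simp
    · rintro rfl
      exact ⟨L.get, List.ofFn_get L⟩
  have hc : ∀ L : List (Fin m × Bool), ∃ c, FreeGroup.IsReduced L → L ≠ [] →
      comp (gw L) c ≠ 0 := fun L => by
    by_cases h : FreeGroup.IsReduced L ∧ L ≠ []
    · obtain ⟨c, hc⟩ := exists_comp h.1 h.2
      exact ⟨c, fun _ _ => hc⟩
    · exact ⟨0, fun h1 h2 => absurd ⟨h1, h2⟩ h⟩
  choose c hc using hc
  set s : ℕ → ℕ := fun N => ⌈2 * T * (N * Real.log (N + 2))⌉₊ with hs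
  have hNl : ∀ N : ℕ, 1 ≤ N → (1 : ℝ) ≤ N * Real.log (N + 2) := fun N hN =>
    le_trans (by exact_mod_cast hN) (le_mul_log N)
  have hsl : ∀ N : ℕ, 2 * T * (N * Real.log (N + 2)) ≤ s N := fun N => Nat.le_ceil _
  have hsu : ∀ N : ℕ, 1 ≤ N → (s N : ℝ) ≤ 3 * T * (N * Real.log (N + 2)) := fun N hN => by
    have h1 := hNl N hN
    have h2 := (Nat.ceil_lt_add_one (a := 2 * T * (N * Real.log (N + 2))) (by positivity)).le
    have h3 : 1 ≤ T * (N * Real.log (N + 2)) := one_le_mul_of_one_le_of_one_le hT h1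
    simp only [hs]
    linarith
  have hW : ∀ x ∈ cube (kk m) T, ∀ L : List (Fin m × Bool),
      ‖wd (qv (par x)) L‖ ≤ Real.exp (2 * T * L.length) := fun x hx L => by
    refine (norm_wd_le (norm_qv_le hT hx) L).trans (le_of_eq ?_)
    rw [← Real.exp_nat_mul, mul_comm]
  have hm0 : (0 : ℝ) ≤ m := Nat.cast_nonneg m
  have h := ae_family hT F (fun L => comp (gw L) (c L)) s (B := 2 * m + 3 * T + 2) (by positivity)
    (fun N => by
      have h1 : (F N).card ≤ (m * 2) ^ N := (Finset.card_filter_le _ _).trans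
        (Finset.card_image_le.trans (by simp))
      calc ((F N).card : ℝ) ≤ ((m : ℝ) * 2) ^ N := by exact_mod_cast h1
        _ ≤ Real.exp (2 * m + 3 * T + 2) ^ N := by
            gcongr
            linarith [Real.add_one_le_exp (2 * m + 3 * T + 2 : ℝ)]
        _ = _ := by rw [← Real.exp_nat_mul, mul_comm])
    (by
      ext L
      simp only [hmem, List.length_eq_zero_iff, Finset.notMem_empty, iff_false]
      exact fun h => h.2.2 h.1)
    (fun N L hL => by
      obtain ⟨rfl, h1, h2⟩ := (hmem N L).1 hL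
      have h3 : 1 ≤ L.length := List.length_pos_iff.2 h2
      have h4 := hNl _ h3
      have h5 := hsl L.length
      refine ⟨hc L h1 h2, ?_, ?_, fun x hx => ?_⟩
      · have : (1 : ℝ) ≤ s L.length := by nlinarith
        exact_mod_cast this
      · have h6 : ((comp (gw L) (c L)).totalDegree : ℝ) ≤ L.length := by
          exact_mod_cast comp_degree L (c L)
        have h7 := log_two_le (comp (gw L) (c L)).totalDegree
        calc _ ≤ L.length * Real.log (L.length + 2) := by gcongr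
          _ ≤ _ := by nlinarith
      · rw [ev, aeval_gw]
        refine (abs_comp_le _ _).trans ((norm_im_le _ 0).trans ?_)
        rw [coe_zero, sub_zero]
        refine (hW x hx L).trans (Real.exp_le_exp.2 (le_trans ?_ h5))
        have := le_mul_log L.length
        gcongr)
    (fun N hN => by
      have h1 : (1 : ℝ) ≤ N := by exact_mod_cast hN
      have h2 : Real.log (N + 2) ≤ Real.exp N := by
        linarith [Real.add_one_le_exp (N : ℝ), Real.log_le_sub_one_of_pos (x := N + 2) (by linarith)]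
      have h3 : (N : ℝ) ≤ Real.exp N := by linarith [Real.add_one_le_exp (N : ℝ)]
      have h4 : 3 * T ≤ Real.exp (3 * T * N) := by nlinarith [Real.add_one_le_exp (3 * T * N)]
      have h5 := log_two_le N
      calc (s N : ℝ) ≤ Real.exp (3 * T * N) * (Real.exp N * Real.exp N) :=
            (hsu N hN).trans (by gcongr)
        _ ≤ _ := by
            rw [← Real.exp_add, ← Real.exp_add, Real.exp_le_exp]
            nlinarith)
  filter_upwards [h] with x hx hxc
  obtain ⟨K, hK, hx⟩ := hx hxc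
  refine ⟨⌈3 * T * K + 2 * T⌉₊, fun L h1 h2 => ?_⟩
  have h3 : 1 ≤ L.length := List.length_pos_iff.2 h2
  have h4 := hx L.length L ((hmem _ L).2 ⟨rfl, h1, h2⟩)
  rw [ev, aeval_gw] at h4
  refine le_trans ?_ (h4.trans (abs_comp_le _ _))
  set θ : ℝ := (1 / 2) ^ kk m with hθ
  have hθ1 : θ ≤ 1 := pow_le_one₀ (by norm_num) (by norm_num)
  set n : ℝ := ((L.length : ℕ) : ℝ) with hn
  have hn1 : 1 ≤ n := by rw [hn]; exact_mod_cast h3
  have h5 : n ^ (2 - θ) = n * n ^ (1 - θ) := by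
    rw [← Real.rpow_one_add' (by linarith) (by linarith)]
    congr 1
    ring
  have h6 : 1 ≤ n ^ (1 - θ) := Real.one_le_rpow hn1 (by linarith)
  have h7 : 1 ≤ Real.log (n + 2) := one_le_log (by omega)
  have h8 : 3 * T * K + 2 * T ≤ ⌈3 * T * K + 2 * T⌉₊ := Nat.le_ceil _
  have h9 : n ≤ n ^ (2 - θ) * Real.log (n + 2) := by
    rw [h5, mul_assoc]
    exact le_mul_of_one_le_right (by linarith) (one_le_mul_of_one_le_of_one_le h6 h7)
  have h10 : K * s L.length * n ^ (1 - θ) ≤ 3 * T * K * (n ^ (2 - θ) * Real.log (n + 2)) := by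
    calc _ ≤ K * (3 * T * (n * Real.log (n + 2))) * n ^ (1 - θ) := by
          gcongr
          exact hsu _ h3
      _ = _ := by rw [h5]; ring
  calc _ ≤ Real.exp (-(⌈3 * T * K + 2 * T⌉₊ * (n ^ (2 - θ) * Real.log (n + 2)))) *
        Real.exp (2 * T * n) := by
        gcongr
        exact hW x hxc L
    _ ≤ _ := by
        rw [← Real.exp_add, Real.exp_le_exp]
        nlinarith [mul_le_mul_of_nonneg_right h8 (by linarith : 0 ≤ n ^ (2 - θ) * Real.log (n + 2)),
          mul_le_mul_of_nonneg_left h9 (by linarith : 0 ≤ 2 * T)]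

lemma ae_good : ∀ᵐ x : Fin (kk m) → ℝ, Good ((1 / 2) ^ kk m) (qv (par x)) := by
  have h : ∀ᵐ x : Fin (kk m) → ℝ, ∀ n : ℕ, x ∈ cube (kk m) (n + 1) →
      Good ((1 / 2) ^ kk m) (qv (par x)) :=
    ae_all_iff.2 fun n => ae_good_cube (by linarith [Nat.cast_nonneg (α := ℝ) n])
  filter_upwards [h] with x hx
  refine hx ⌈‖x‖⌉₊ (mem_cube.2 fun i => ?_)
  have h1 : |x i| ≤ ‖x‖ := norm_le_pi_norm x i
  linarith [Nat.le_ceil ‖x‖]

end SubQuad
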